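import Pool.Agent.Helper18.SK.Defs

/-!
# Strongly k-abelian powers: `k`-abelian equivalent words of length at most `2 k - 2` are equal
-/

set_option autoImplicit false

namespace Pool.Agent.Helper14.SK

open Pool.Agent.Helper18.SK

variable {α : Type} [DecidableEq α]

theorem occ_nil {x : List α} (hx : x ≠ []) : occ x [] = 0 := by
  cases x with
  | nil => exact absurd rfl hx
  | cons a x => simp [occ]

theorem occ_cons (x : List α) (c : α) (u : List α) :
    occ x (c :: u) = (if x <+: c :: u then 1 else 0) + occ x u := by
  unfold occ
  rw [List.tails_cons, List.countP_cons, add_comm]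
  congr 1
  simp only [List.isPrefixOf_iff_prefix]

theorem sum_occ_single [Fintype α] (u : List α) : ∑ a : α, occ [a] u = u.length := by
  induction u with
  | nil => simp [occ]
  | cons c u ih =>
    simp only [occ_cons, Finset.sum_add_distrib, ih, List.length_cons]
    rw [add_comm]
    congr 1
    rw [Finset.sum_eq_single c]
    · simp
    · intro b _ hb
      simp only [List.cons_prefix_cons, List.nil_prefix, and_true, ite_eq_right_iff, one_ne_zero,
        imp_false]
      exact hb
    · intro h
      exact absurd (Finset.mem_univ c) h

theorem occ_prefix [Fintype α] {x : List α} (hx : x ≠ []) (u : List α) :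
    occ x u = (if x <+: u then 1 else 0) + ∑ a : α, occ (a :: x) u := by
  induction u with
  | nil =>
    rw [occ_nil hx]
    simp [occ_nil, hx]
  | cons c u ih =>
    rw [occ_cons, ih]
    simp only [occ_cons, Finset.sum_add_distrib]
    have key : (∑ a : α, if a :: x <+: c :: u then 1 else 0) = if x <+: u then 1 else 0 := by
      rw [Finset.sum_eq_single c]
      · simp only [List.cons_prefix_cons, true_and]
      · intro b _ hb
        rw [if_neg]
        rw [List.cons_prefix_cons]
        intro h
        exact hb h.1
      · intro h
        exact absurd (Finset.mem_univ c) h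
    rw [key]

theorem occ_suffix [Fintype α] {x : List α} (hx : x ≠ []) (u : List α) :
    occ x u = (if x <:+ u then 1 else 0) + ∑ a : α, occ (x ++ [a]) u := by
  induction u with
  | nil =>
    rw [occ_nil hx]
    simp [occ_nil, hx]
  | cons c u ih =>
    rw [occ_cons, ih]
    simp only [occ_cons, Finset.sum_add_distrib]
    have key : (if x <+: c :: u then 1 else 0) + (if x <:+ u then 1 else 0) =
        (if x <:+ c :: u then 1 else 0) + ∑ a : α, (if x ++ [a] <+: c :: u then 1 else 0) := by
      by_cases h1 : x = c :: u
      · have h2 : ¬ x <:+ u := by
          intro h
          have := h.length_le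
          rw [h1] at this
          simp at this
        have h3 : ∀ a : α, ¬ x ++ [a] <+: c :: u := by
          intro a h
          have := h.length_le
          rw [h1] at this
          simp at this
        rw [if_neg h2, if_pos (by rw [h1]), if_pos (by rw [h1])]
        simp [h3]
      · have h2 : (x <:+ c :: u) ↔ x <:+ u := by
          rw [List.suffix_cons_iff]
          simp [h1]
        simp only [h2]
        rw [add_comm]
        congr 1
        by_cases h3 : x <+: c :: u
        · obtain ⟨r, hr⟩ := h3
          cases r with
          | nil =>
            rw [List.append_nil] at hr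
            exact absurd hr h1
          | cons b r =>
            rw [if_pos ⟨b :: r, hr⟩, Finset.sum_eq_single b]
            · rw [if_pos]
              exact ⟨r, by rw [← hr]; simp⟩
            · intro d _ hd
              rw [if_neg]
              intro h
              apply hd
              rw [← hr, List.prefix_append_right_inj] at h
              rw [List.cons_prefix_cons] at h
              exact h.1
            · intro h
              exact absurd (Finset.mem_univ b) h
        · rw [if_neg h3]
          symm
          apply Finset.sum_eq_zero
          intro a _
          rw [if_neg]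
          intro h
          exact h3 ((List.prefix_append _ _).trans h)
    omega

theorem length_eq_of_kEquiv [Fintype α] {k : ℕ} (hk : 1 ≤ k) {u v : List α} (h : KEquiv k u v) :
    u.length = v.length := by
  rw [← sum_occ_single u, ← sum_occ_single v]
  apply Finset.sum_congr rfl
  intro a _
  exact h [a] (by simp) (by simpa using hk)

theorem occ_pos_iff {x : List α} (hx : x ≠ []) (u : List α) : 0 < occ x u ↔ x <:+: u := by
  induction u with
  | nil =>
    rw [occ_nil hx]
    simp [hx]
  | cons c u ih =>
    rw [occ_cons, List.infix_cons_iff, ← ih]
    by_cases h : x <+: c :: u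
    · simp [h]
    · simp [h]

/-- `k`-abelian equivalent words of length at most `2 k - 2` are equal. -/
theorem eq_of_kEquiv [Fintype α] {k : ℕ} (hk : 1 ≤ k) {u v : List α} (h : KEquiv k u v)
    (hu : u.length ≤ 2 * k - 2) : u = v := by
  have hl := length_eq_of_kEquiv hk h
  by_cases hu0 : u = []
  · subst hu0
    exact (List.length_eq_zero_iff.1 hl.symm).symm
  by_cases huk : u.length ≤ k
  · have h1 := h u (List.length_pos_iff.2 hu0) huk
    have h2 : 0 < occ u u := (occ_pos_iff hu0 u).2 List.infix_rfl
    rw [h1, occ_pos_iff hu0] at h2
    exact h2.eq_of_length hl
  push Not at huk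
  have hk2 : 2 ≤ k := by
    by_contra h3
    have : k = 1 := by omega
    subst this
    simp at hu
    exact hu0 hu
  have hp : u.take (k - 1) = v.take (k - 1) := by
    have hx : (u.take (k - 1)).length = k - 1 := by
      rw [List.length_take]
      omega
    have hx0 : u.take (k - 1) ≠ [] := by
      intro h3
      rw [h3] at hx
      simp at hx
      omega
    have h1 := occ_prefix hx0 u
    have h2 := occ_prefix hx0 v
    rw [if_pos (List.take_prefix _ _)] at h1
    rw [h _ (by omega) (by omega), Finset.sum_congr rfl (fun a _ => h (a :: u.take (k - 1))
      (by simp) (by rw [List.length_cons, hx]; omega))] at h1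
    have h3 : u.take (k - 1) <+: v := by
      by_contra h4
      rw [if_neg h4] at h2
      omega
    rw [List.prefix_iff_eq_take, hx] at h3
    exact h3
  have hs : u.drop (u.length - (k - 1)) = v.drop (v.length - (k - 1)) := by
    set x := u.drop (u.length - (k - 1)) with hxd
    have hx : x.length = k - 1 := by
      rw [hxd, List.length_drop]
      omega
    have hx0 : x ≠ [] := by
      intro h3
      rw [h3] at hx
      simp at hx
      omega
    have h1 := occ_suffix hx0 u
    have h2 := occ_suffix hx0 v
    rw [if_pos (List.drop_suffix _ _)] at h1
    rw [h _ (by omega) (by omega), Finset.sum_congr rfl (fun a _ => h (x ++ [a])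
      (by simp) (by rw [List.length_append, hx]; simp; omega))] at h1
    have h3 : x <:+ v := by
      by_contra h4
      rw [if_neg h4] at h2
      omega
    rw [List.suffix_iff_eq_drop, hx] at h3
    exact h3
  have e1 := List.take_append_drop (u.length - (k - 1)) u
  have e2 := List.take_append_drop (v.length - (k - 1)) v
  have h5 : u.take (u.length - (k - 1)) = v.take (v.length - (k - 1)) := by
    have h6 := congrArg (List.take (u.length - (k - 1))) hp
    rw [List.take_take, List.take_take] at h6
    rw [show min (u.length - (k - 1)) (k - 1) = u.length - (k - 1) by omega] at h6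
    rw [h6, hl]
  rw [← e1, ← e2, h5, hs]

end Pool.Agent.Helper14.SK
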