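import Pool.Agent.Helper18.SK.Final
import Pool.Agent.Helper14.SK.Equal

/-!
# Strongly k-abelian powers: long words from codes without overlaps
-/

set_option autoImplicit false

namespace Pool.Agent.Helper14.SK

open Pool.Agent.Helper18.SK

variable {α : Type} [DecidableEq α]

/-- The words in `S` have length `ℓ`, and no proper prefix of one is a suffix of one. -/
def NonOverlap (ℓ : ℕ) (S : List (List α)) : Prop :=
  (∀ x ∈ S, x.length = ℓ) ∧
    ∀ x ∈ S, ∀ y ∈ S, ∀ h, 1 ≤ h → h < ℓ → x.take h ≠ y.drop (ℓ - h)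

omit [DecidableEq α] in
theorem facs_cons_of_le {ℓ : ℕ} (a : α) (y : List α) (h : ℓ ≤ y.length + 1) :
    facs ℓ (a :: y) = (a :: y).take ℓ :: facs ℓ y := by
  unfold facs
  rw [List.tails_cons, List.filter_cons_of_pos (by simpa using h), List.map_cons]

theorem facs_of_lt {ℓ : ℕ} (hℓ : 1 ≤ ℓ) (p : List α) (h : p.length < ℓ) : facs ℓ p = [] := by
  obtain ⟨-, -, hlen, -⟩ := PkW1.w1 α ℓ hℓ
  apply List.length_eq_zero_iff.1
  rw [hlen]
  omega

section

variable {ℓ : ℕ} {S : List (List α)}

theorem filter_pre (hℓ : 1 ≤ ℓ) (hS : NonOverlap ℓ S) (d : List α) (hd : d ∈ S) :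
    ∀ s : List α, s <:+ d → s.length < ℓ → ∀ r : List α,
      (facs ℓ (s ++ r)).filter (· ∈ S) = (facs ℓ r).filter (· ∈ S) := by
  intro s
  induction s with
  | nil => intro _ _ r; rfl
  | cons a s ih =>
    intro hs hsl r
    have hs' : s <:+ d := (List.suffix_cons a s).trans hs
    have hsl' : s.length < ℓ := by
      rw [List.length_cons] at hsl
      omega
    rw [← ih hs' hsl' r, List.cons_append]
    by_cases h : ℓ ≤ (s ++ r).length + 1
    · rw [facs_cons_of_le a _ h, List.filter_cons_of_neg]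
      simp only [decide_eq_true_eq]
      intro hm
      refine hS.2 _ hm d hd (a :: s).length (by simp) hsl ?_
      have hdl := hS.1 d hd
      rw [List.take_take, min_eq_left hsl.le]
      rw [List.suffix_iff_eq_drop, hdl] at hs
      rw [← hs, ← List.cons_append, List.take_left']
      rfl
    · rw [facs_of_lt hℓ (a :: (s ++ r)) (by rw [List.length_cons]; omega),
        facs_of_lt hℓ (s ++ r) (by omega)]

theorem filter_block (hℓ : 1 ≤ ℓ) (hS : NonOverlap ℓ S) (e : List α) (he : e ∈ S) (r : List α) :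
    (facs ℓ (e ++ r)).filter (· ∈ S) = e :: (facs ℓ r).filter (· ∈ S) := by
  have hel := hS.1 e he
  obtain ⟨a, e', rfl⟩ : ∃ a e', e = a :: e' := by
    cases e with
    | nil =>
      simp at hel
      omega
    | cons a e' => exact ⟨a, e', rfl⟩
  have hel' : e'.length + 1 = ℓ := by simpa using hel
  rw [List.cons_append, facs_cons_of_le a _ (by rw [List.length_append]; omega)]
  have h1 : (a :: (e' ++ r)).take ℓ = a :: e' := by
    rw [← List.cons_append]
    exact List.take_left' hel
  rw [h1, List.filter_cons_of_pos (by simpa using he)]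
  rw [filter_pre hℓ hS _ he e' (List.suffix_cons a e') (by omega) r]

theorem filter_flatten (hℓ : 1 ≤ ℓ) (hS : NonOverlap ℓ S) (x : List (List α))
    (hx : ∀ e ∈ x, e ∈ S) (p : List α) (hp : p.length < ℓ) :
    (facs ℓ (x.flatten ++ p)).filter (· ∈ S) = x := by
  induction x with
  | nil =>
    rw [List.flatten_nil, List.nil_append, facs_of_lt hℓ p hp]
    rfl
  | cons e x ih =>
    rw [List.flatten_cons, List.append_assoc, filter_block hℓ hS e (hx e (by simp)),
      ih (fun e' he' => hx e' (List.mem_cons_of_mem _ he'))]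

theorem filter_seam (hℓ : 1 ≤ ℓ) (hS : NonOverlap ℓ S) (σ : List α)
    (hσ : σ.length ≤ 2 * ℓ - 1) : ((facs ℓ σ).filter (· ∈ S)).length ≤ 1 := by
  induction σ with
  | nil =>
    rw [facs_of_lt hℓ [] (by simp; omega)]
    simp
  | cons a σ ih =>
    by_cases h : ℓ ≤ σ.length + 1
    · by_cases hm : (a :: σ).take ℓ ∈ S
      · have h1 := List.take_append_drop ℓ (a :: σ)
        rw [← h1, filter_block hℓ hS _ hm, facs_of_lt hℓ]
        · simp
        · rw [List.length_drop]
          omega
      · rw [facs_cons_of_le a _ h, List.filter_cons_of_neg (by simpa using hm)]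
        exact ih (by rw [List.length_cons] at hσ; omega)
    · rw [facs_of_lt hℓ (a :: σ) (by rw [List.length_cons]; omega)]
      simp

end

/-! ### Factors of a concatenation of blocks -/

omit [DecidableEq α] in
theorem suffix_flatten {ℓ : ℕ} (l : List (List α)) (hl : ∀ x ∈ l, x.length = ℓ) :
    ∀ v : List α, v <:+ l.flatten → ∃ (s : List α) (l₂ : List (List α)),
      v = s ++ l₂.flatten ∧ l₂ <:+ l ∧ (s = [] ∨ ∃ d ∈ l, s <:+ d ∧ s.length < ℓ) := by
  induction l with
  | nil =>
    intro v hv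
    refine ⟨[], [], ?_, List.suffix_rfl, Or.inl rfl⟩
    simpa using hv
  | cons d l ih =>
    intro v hv
    rw [List.flatten_cons] at hv
    obtain ⟨t, ht⟩ := hv
    rw [List.append_eq_append_iff] at ht
    rcases ht with ⟨a, h1, h2⟩ | ⟨c, h1, h2⟩
    · -- `d = t ++ a`, `v = a ++ l.flatten`
      have hd := hl d (by simp)
      by_cases ha : a.length < ℓ
      · exact ⟨a, l, h2, List.suffix_cons d l, Or.inr ⟨d, by simp, ⟨t, h1.symm⟩, ha⟩⟩
      · have h3 : a = d := by
          have h4 : a <:+ d := ⟨t, h1.symm⟩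
          exact h4.eq_of_length_le (by omega)
        refine ⟨[], d :: l, ?_, List.suffix_rfl, Or.inl rfl⟩
        rw [h2, h3]
        simp
    · -- `t = d ++ c`, `l.flatten = c ++ v`
      obtain ⟨s, l₂, e1, e2, e3⟩ := ih (fun x hx => hl x (List.mem_cons_of_mem _ hx)) v ⟨c, h2.symm⟩
      refine ⟨s, l₂, e1, e2.trans (List.suffix_cons d l), ?_⟩
      rcases e3 with e3 | ⟨d', hd', e3⟩
      · exact Or.inl e3
      · exact Or.inr ⟨d', List.mem_cons_of_mem _ hd', e3⟩

omit [DecidableEq α] in
theorem prefix_append_cases {u s w : List α} (h : u <+: s ++ w) :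
    u <+: s ∨ ∃ u', u = s ++ u' ∧ u' <+: w := by
  obtain ⟨t, ht⟩ := h
  rw [List.append_eq_append_iff] at ht
  rcases ht with ⟨a, h1, h2⟩ | ⟨c, h1, h2⟩
  · exact Or.inl ⟨a, h1.symm⟩
  · exact Or.inr ⟨c, h1, ⟨t, h2.symm⟩⟩

omit [DecidableEq α] in
theorem prefix_flatten {ℓ : ℕ} (hℓ : 1 ≤ ℓ) (l : List (List α)) (hl : ∀ x ∈ l, x.length = ℓ) :
    ∀ u : List α, u <+: l.flatten → ∃ (x : List (List α)) (p : List α),
      u = x.flatten ++ p ∧ x <+: l ∧ p.length < ℓ ∧ (p = [] ∨ ∃ e ∈ l, p <+: e) := by
  induction l with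
  | nil =>
    intro u hu
    refine ⟨[], [], ?_, List.prefix_rfl, by simp; omega, Or.inl rfl⟩
    simpa using hu
  | cons e l ih =>
    intro u hu
    rw [List.flatten_cons] at hu
    have he := hl e (by simp)
    obtain ⟨t, ht⟩ := hu
    rw [List.append_eq_append_iff] at ht
    rcases ht with ⟨a, h1, h2⟩ | ⟨c, h1, h2⟩
    · -- `e = u ++ a`
      by_cases hu : u.length < ℓ
      · exact ⟨[], u, by simp, List.nil_prefix, hu, Or.inr ⟨e, by simp, ⟨a, h1.symm⟩⟩⟩
      · have h4 : u <+: e := ⟨a, h1.symm⟩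
        have h3 : u = e := h4.eq_of_length_le (by omega)
        refine ⟨[e], [], by simp [h3], ?_, by simp; omega, Or.inl rfl⟩
        exact ⟨l, rfl⟩
    · -- `u = e ++ c`, `l.flatten = c ++ t`
      obtain ⟨x, p, e1, e2, e3, e4⟩ := ih (fun x hx => hl x (List.mem_cons_of_mem _ hx)) c
        ⟨t, h2.symm⟩
      refine ⟨e :: x, p, ?_, ?_, e3, ?_⟩
      · rw [h1, e1, List.flatten_cons, List.append_assoc]
      · rw [List.cons_prefix_cons]
        exact ⟨rfl, e2⟩
      · rcases e4 with e4 | ⟨e', he', e4⟩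
        · exact Or.inl e4
        · exact Or.inr ⟨e', List.mem_cons_of_mem _ he', e4⟩

/-! ### The main lemma -/

/-- A sequence of words of a code without overlaps avoids strongly `k`-abelian `n`-th powers, if
each nonempty piece contains some word of the code at least once and at most `n - 2` times and no
ordinary `n`-th power lies inside two consecutive words. -/
theorem block_avoids [Fintype α] {k n ℓ : ℕ} {S : List (List α)} (hℓ : 1 ≤ ℓ) (hℓk : ℓ ≤ k)
    (hn : 1 ≤ n) (hS : NonOverlap ℓ S)
    (hP : ∀ x ∈ S, ∀ y ∈ S, ∀ z : List α, z ≠ [] →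
      ¬ (List.replicate n z).flatten <:+: x.drop 1 ++ y.take (ℓ - 1))
    (l : List (List α)) (hl : ∀ x ∈ l, x ∈ S)
    (hQ : ∀ l' : List (List α), l' <:+: l → l' ≠ [] → ∃ a, 1 ≤ l'.count a ∧ l'.count a ≤ n - 2) :
    Avoids k n l.flatten := by
  intro u hu hpow
  obtain ⟨hu0, z, hz, hK⟩ := hpow
  set y := (List.replicate n z).flatten with hy
  have hk : 1 ≤ k := hℓ.trans hℓk
  have hlen := length_eq_of_kEquiv hk hK
  have hlS : ∀ x ∈ l, x.length = ℓ := fun x hx => hS.1 x (hl x hx)
  obtain ⟨v, hv1, hv2⟩ := List.infix_iff_prefix_suffix.1 hu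
  obtain ⟨s, l₂, e1, e2, e3⟩ := suffix_flatten l hlS v hv2
  rw [e1] at hv1
  -- no full block
  have hshort : ∀ x ∈ S, ∀ x' ∈ S, u <:+: x.drop 1 ++ x'.take (ℓ - 1) → False := by
    intro x hx x' hx' hux
    have h1 := hux.length_le
    rw [List.length_append, List.length_drop, List.length_take, hS.1 x hx, hS.1 x' hx'] at h1
    have h2 := eq_of_kEquiv hk hK (by omega)
    rw [h2] at hux
    exact hP x hx x' hx' z hz hux
  have hsuf : ∀ s' : List α, (s' = [] ∨ ∃ d ∈ l, s' <:+ d ∧ s'.length < ℓ) →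
      ∀ x' ∈ S, ∃ x ∈ S, s' <:+ x.drop 1 := by
    intro s' hs' x' hx'
    rcases hs' with rfl | ⟨d, hd, hsd, hsl⟩
    · exact ⟨x', hx', List.nil_suffix⟩
    · refine ⟨d, hl d hd, ?_⟩
      obtain ⟨t, ht⟩ := hsd
      have hdl := hlS d hd
      have htl : 1 ≤ t.length := by
        rw [← ht, List.length_append] at hdl
        omega
      refine ⟨t.drop 1, ?_⟩
      rw [← ht, List.drop_append_of_le_length htl]
  rcases prefix_append_cases hv1 with h1 | ⟨u', rfl, h1⟩
  · -- `u` is inside `s`
    rcases e3 with rfl | ⟨d, hd, hsd, hsl⟩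
    · exact hu0 (List.prefix_nil.1 h1)
    · obtain ⟨x, hx, hsx⟩ := hsuf s (Or.inr ⟨d, hd, hsd, hsl⟩) d (hl d hd)
      refine hshort x hx d (hl d hd) (h1.isInfix.trans ?_)
      exact hsx.isInfix.trans (List.prefix_append _ _).isInfix
  · obtain ⟨x, p, f1, f2, f3, f4⟩ := prefix_flatten hℓ l₂
      (fun x hx => hlS x (e2.subset hx)) u' h1
    by_cases hx0 : x = []
    · subst hx0
      rw [List.flatten_nil, List.nil_append] at f1
      subst f1
      -- a word of the code
      obtain ⟨w, hw⟩ : ∃ w, w ∈ S := by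
        rcases f4 with rfl | ⟨e, he, -⟩
        · rcases e3 with rfl | ⟨d, hd, -⟩
          · exact absurd rfl hu0
          · exact ⟨d, hl d hd⟩
        · exact ⟨e, hl e (e2.subset he)⟩
      obtain ⟨x, hx, hsx⟩ := hsuf s e3 w hw
      obtain ⟨x', hx', hpx⟩ : ∃ x' ∈ S, u' <+: x'.take (ℓ - 1) := by
        rcases f4 with rfl | ⟨e, he, hpe⟩
        · exact ⟨w, hw, List.nil_prefix⟩
        · refine ⟨e, hl e (e2.subset he), ?_⟩
          rw [List.prefix_take_iff]
          exact ⟨hpe, by omega⟩
      refine hshort x hx x' hx' ?_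
      obtain ⟨t, ht⟩ := hsx
      obtain ⟨t', ht'⟩ := hpx
      refine ⟨t, t', ?_⟩
      rw [← ht, ← ht']
      simp
    · -- full blocks
      have hxl : x <:+: l := f2.isInfix.trans e2.isInfix
      have hxS : ∀ e ∈ x, e ∈ S := fun e he => hl e (hxl.subset he)
      obtain ⟨a, ha1, ha2⟩ := hQ x hxl hx0
      have hax : a ∈ x := List.count_pos_iff.1 ha1
      have haS : a ∈ S := hxS a hax
      have hal := hS.1 a haS
      obtain ⟨hocc, -, -, -, -, h6, -⟩ := PkW1.w1 α ℓ hℓ
      have hfil : (facs ℓ (s ++ u')).filter (· ∈ S) = x := by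
        rw [f1]
        rcases e3 with rfl | ⟨d, hd, hsd, hsl⟩
        · rw [List.nil_append]
          exact filter_flatten hℓ hS x hxS p f3
        · rw [filter_pre hℓ hS d (hl d hd) s hsd hsl]
          exact filter_flatten hℓ hS x hxS p f3
      have hc : ∀ w : List α, (facs ℓ w).count a = ((facs ℓ w).filter (· ∈ S)).count a := by
        intro w
        rw [List.count_filter (by simpa using haS)]
      have hcu : (facs ℓ (s ++ u')).count a = x.count a := by
        rw [hc, hfil]
      have hcy : (facs ℓ y).count a = x.count a := by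
        rw [← hcu, ← hocc a _ hal, ← hocc a _ hal]
        exact (hK a (by omega) (by omega)).symm
      have hyl : ℓ - 1 ≤ y.length := by
        rw [← hlen, List.length_append, f1, List.length_append]
        have h7 : a.length ≤ x.flatten.length :=
          (List.infix_of_mem_flatten hax).length_le
        omega
      have hyl' : y.length = n * z.length := by
        rw [hy]
        simp
      have hdiv := Pool.Agent.Helper74.SK.pe α ℓ n z a hℓ hn hz (by rw [← hyl']; exact hyl) hal
      rw [← hy, h6 y (y.take (ℓ - 1)) (by omega), List.count_append, hcy] at hdiv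
      have hseam : (facs ℓ (y.drop (y.length - (ℓ - 1)) ++ y.take (ℓ - 1))).count a ≤ 1 := by
        rw [hc]
        refine List.count_le_length.trans (filter_seam hℓ hS _ ?_)
        rw [List.length_append, List.length_drop, List.length_take]
        omega
      have h8 := Nat.le_of_dvd (by omega) hdiv
      omega

end Pool.Agent.Helper14.SK
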