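import Pool.Agent.Helper14.SK.Code

/-!
# Strongly k-abelian powers: long words from pairs of words of a code
-/

set_option autoImplicit false

namespace Pool.Agent.Helper14.SK

open Pool.Agent.Helper18.SK

section decomp

variable {α : Type}

theorem suffix_flatten' {ℓ : ℕ} (l : List (List α)) (hl : ∀ x ∈ l, x.length = ℓ) :
    ∀ v : List α, v <:+ l.flatten → ∃ (D : List (List α)) (s : List α) (l₂ : List (List α)),
      v = s ++ l₂.flatten ∧ D ++ l₂ <:+ l ∧ D.length ≤ 1 ∧ s <:+ D.flatten ∧
        (s = [] ∨ s.length < ℓ) := by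
  induction l with
  | nil =>
    intro v hv
    refine ⟨[], [], [], ?_, List.suffix_rfl, by simp, List.suffix_rfl, Or.inl rfl⟩
    simpa using hv
  | cons d l ih =>
    intro v hv
    rw [List.flatten_cons] at hv
    obtain ⟨t, ht⟩ := hv
    rw [List.append_eq_append_iff] at ht
    rcases ht with ⟨a, h1, h2⟩ | ⟨c, h1, h2⟩
    · -- `d = t ++ a`, `v = a ++ l.flatten`
      have hd := hl d (by simp)
      by_cases ha : a.length < ℓ
      · exact ⟨[d], a, l, h2, List.suffix_rfl, by simp, ⟨t, by simpa using h1.symm⟩, Or.inr ha⟩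
      · have h3 : a = d := by
          have h4 : a <:+ d := ⟨t, h1.symm⟩
          exact h4.eq_of_length_le (by omega)
        refine ⟨[], [], d :: l, ?_, List.suffix_rfl, by simp, List.suffix_rfl, Or.inl rfl⟩
        rw [h2, h3]
        simp
    · -- `t = d ++ c`, `l.flatten = c ++ v`
      obtain ⟨D, s, l₂, e1, e2, e3, e4, e5⟩ := ih (fun x hx => hl x (List.mem_cons_of_mem _ hx)) v
        ⟨c, h2.symm⟩
      exact ⟨D, s, l₂, e1, e2.trans (List.suffix_cons d l), e3, e4, e5⟩

theorem prefix_flatten' {ℓ : ℕ} (hℓ : 1 ≤ ℓ) (l : List (List α)) (hl : ∀ x ∈ l, x.length = ℓ) :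
    ∀ u : List α, u <+: l.flatten → ∃ (x E : List (List α)) (p : List α),
      u = x.flatten ++ p ∧ x ++ E <+: l ∧ E.length ≤ 1 ∧ p <+: E.flatten ∧ p.length < ℓ := by
  induction l with
  | nil =>
    intro u hu
    refine ⟨[], [], [], ?_, List.prefix_rfl, by simp, List.prefix_rfl, by simp; omega⟩
    simpa using hu
  | cons e l ih =>
    intro u hu
    rw [List.flatten_cons] at hu
    have he := hl e (by simp)
    obtain ⟨t, ht⟩ := hu
    rw [List.append_eq_append_iff] at ht
    rcases ht with ⟨a, h1, h2⟩ | ⟨c, h1, h2⟩
    · -- `e = u ++ a`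
      by_cases hu : u.length < ℓ
      · exact ⟨[], [e], u, by simp, ⟨l, by simp⟩, by simp, ⟨a, by simpa using h1.symm⟩, hu⟩
      · have h4 : u <+: e := ⟨a, h1.symm⟩
        have h3 : u = e := h4.eq_of_length_le (by omega)
        refine ⟨[e], [], [], by simp [h3], ⟨l, by simp⟩, by simp, List.prefix_rfl, by simp; omega⟩
    · -- `u = e ++ c`, `l.flatten = c ++ t`
      obtain ⟨x, E, p, e1, e2, e3, e4, e5⟩ := ih (fun x hx => hl x (List.mem_cons_of_mem _ hx)) c
        ⟨t, h2.symm⟩
      refine ⟨e :: x, E, p, ?_, ?_, e3, e4, e5⟩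
      · rw [h1, e1, List.flatten_cons, List.append_assoc]
      · rw [List.cons_append, List.cons_prefix_cons]
        exact ⟨rfl, e2⟩

/-- The shape of a factor of a concatenation of blocks of length `ℓ`. -/
theorem infix_flatten {ℓ : ℕ} (hℓ : 1 ≤ ℓ) (l : List (List α)) (hl : ∀ x ∈ l, x.length = ℓ)
    (u : List α) (hu : u <:+: l.flatten) :
    (∃ d ∈ l, u <:+: d) ∨ ∃ (D x E : List (List α)) (s p : List α),
      D ++ x ++ E <:+: l ∧ D.length ≤ 1 ∧ E.length ≤ 1 ∧ s <:+ D.flatten ∧ p <+: E.flatten ∧
        (s = [] ∨ s.length < ℓ) ∧ p.length < ℓ ∧ u = s ++ x.flatten ++ p := by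
  obtain ⟨v, hv1, hv2⟩ := List.infix_iff_prefix_suffix.1 hu
  obtain ⟨D, s, l₂, e1, e2, e3, e4, e5⟩ := suffix_flatten' l hl v hv2
  rw [e1] at hv1
  have hDl : ∀ d ∈ D, d ∈ l := fun d hd => e2.subset (List.mem_append_left _ hd)
  have hl₂ : ∀ x ∈ l₂, x.length = ℓ := fun x hx => hl x (e2.subset (List.mem_append_right _ hx))
  rcases prefix_append_cases hv1 with h1 | ⟨u', rfl, h1⟩
  · -- `u` is inside `s`
    by_cases hD : D = []
    · subst hD
      have h2 : s = [] := by simpa using e4
      subst h2
      have h3 : u = [] := List.prefix_nil.1 h1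
      subst h3
      exact Or.inr ⟨[], [], [], [], [], List.nil_infix, by simp, by simp, by simp, by simp,
        Or.inl rfl, by simp; omega, by simp⟩
    · obtain ⟨d, rfl⟩ : ∃ d, D = [d] := by
        apply List.length_eq_one_iff.1
        have := List.length_pos_iff.2 hD
        omega
      refine Or.inl ⟨d, hDl d (by simp), h1.isInfix.trans ?_⟩
      simpa using e4.isInfix
  · obtain ⟨x, E, p, f1, f2, f3, f4, f5⟩ := prefix_flatten' hℓ l₂ hl₂ u' h1
    refine Or.inr ⟨D, x, E, s, p, ?_, e3, f3, e4, f4, e5, f5, ?_⟩
    · have h2 : D ++ x ++ E <+: D ++ l₂ := by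
        rw [List.append_assoc]
        exact (List.prefix_append_right_inj D).2 f2
      exact h2.isInfix.trans e2.isInfix
    · rw [f1, List.append_assoc]

end decomp

variable {α : Type} [DecidableEq α]

/-- A sequence of words of a code without overlaps avoids strongly `k`-abelian `n`-th powers, if
each piece of length at least `2` contains two words of the code a number of times not divisible by
`n`, no ordinary `n`-th power lies in three consecutive words, and the length of the words is at
most `2 k / 3`. -/
theorem block_avoids2 [Fintype α] {k n ℓ : ℕ} {S : List (List α)} (hℓ : 1 ≤ ℓ) (hℓk : 3 * ℓ ≤ 2 * k)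
    (hn : 1 ≤ n) (hS : NonOverlap ℓ S) (l : List (List α)) (hl : ∀ x ∈ l, x ∈ S)
    (hP : ∀ l' : List (List α), l' <:+: l → l'.length ≤ 3 → ∀ z : List α, z ≠ [] →
      ¬ (List.replicate n z).flatten <:+: l'.flatten)
    (hQ : ∀ l' : List (List α), l' <:+: l → 2 ≤ l'.length →
      ∃ a b, a ≠ b ∧ ¬ n ∣ l'.count a ∧ ¬ n ∣ l'.count b) :
    Avoids k n l.flatten := by
  intro u hu hpow
  obtain ⟨hu0, z, hz, hK⟩ := hpow
  set y := (List.replicate n z).flatten with hy
  have hk : 1 ≤ k := by omega
  have hlen := length_eq_of_kEquiv hk hK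
  have hlS : ∀ x ∈ l, x.length = ℓ := fun x hx => hS.1 x (hl x hx)
  have hlenfl : ∀ l' : List (List α), l' <:+: l → l'.flatten.length = ℓ * l'.length := by
    intro l' hl'
    rw [List.length_flatten]
    have h5 : l'.map List.length = List.replicate l'.length ℓ := by
      rw [List.eq_replicate_iff]
      refine ⟨by simp, ?_⟩
      intro b hb
      rw [List.mem_map] at hb
      obtain ⟨x, hx, rfl⟩ := hb
      exact hlS x (hl'.subset hx)
    rw [h5]
    simp [mul_comm]
  -- short factors
  have hshort : ∀ l' : List (List α), l' <:+: l → l'.length ≤ 3 → u <:+: l'.flatten →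
      u.length ≤ 2 * k - 2 → False := by
    intro l' hl' hl3 hul huk
    have h2 := eq_of_kEquiv hk hK huk
    rw [h2] at hul
    exact hP l' hl' hl3 z hz hul
  rcases infix_flatten hℓ l hlS u hu with ⟨d, hd, hud⟩ | ⟨D, x, E, s, p, h1, h2, h3, h4, h5, h6,
    h7, h8⟩
  · have hd1 : [d] <:+: l := by
      obtain ⟨l₁, l₂, rfl⟩ := List.append_of_mem hd
      exact ⟨l₁, l₂, by simp⟩
    refine hshort [d] hd1 (by simp) (by simpa using hud) ?_
    have := hud.length_le
    rw [hlS d hd] at this
    omega
  · have hs : s.length < ℓ := by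
      rcases h6 with rfl | h6
      · simp
        omega
      · exact h6
    have hxl : x <:+: l := (List.infix_append D x E).trans h1
    by_cases hx : x.length ≤ 1
    · refine hshort (D ++ x ++ E) h1 (by
        rw [List.length_append, List.length_append]
        omega) ?_ ?_
      · rw [h8, List.flatten_append, List.flatten_append]
        obtain ⟨a, ha⟩ := h4
        obtain ⟨b, hb⟩ := h5
        refine ⟨a, b, ?_⟩
        rw [← ha, ← hb]
        simp
      · rw [h8, List.length_append, List.length_append, hlenfl x hxl]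
        have : ℓ * x.length ≤ ℓ * 1 := Nat.mul_le_mul_left _ hx
        omega
    · push Not at hx
      obtain ⟨a, b, hab, ha, hb⟩ := hQ x hxl (by omega)
      obtain ⟨hocc, -, -, -, -, h6', -⟩ := PkW1.w1 α ℓ hℓ
      have hmem : ∀ a : List α, ¬ n ∣ x.count a → a ∈ x := by
        intro a ha
        by_contra hc
        apply ha
        rw [List.count_eq_zero_of_not_mem hc]
        exact dvd_zero n
      have hxS : ∀ e ∈ x, e ∈ S := fun e he => hl e (hxl.subset he)
      have hfil : (facs ℓ u).filter (· ∈ S) = x := by
        rw [h8, List.append_assoc]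
        have hfl := filter_flatten hℓ hS x hxS p h7
        by_cases hD : D = []
        · subst hD
          have h2 : s = [] := by simpa using h4
          rw [h2, List.nil_append]
          exact hfl
        · obtain ⟨d, rfl⟩ : ∃ d, D = [d] := by
            apply List.length_eq_one_iff.1
            have := List.length_pos_iff.2 hD
            omega
          have hdS : d ∈ S := hl d (h1.subset (by simp))
          rw [filter_pre hℓ hS d hdS s (by simpa using h4) hs]
          exact hfl
      have hyl : ℓ - 1 ≤ y.length := by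
        rw [← hlen, h8, List.length_append, List.length_append, hlenfl x hxl]
        have : ℓ * 1 ≤ ℓ * x.length := Nat.mul_le_mul_left _ (by omega)
        omega
      have hyl' : y.length = n * z.length := by
        rw [hy]
        simp
      set σ := y.drop (y.length - (ℓ - 1)) ++ y.take (ℓ - 1) with hσ
      have hseam : ((facs ℓ σ).filter (· ∈ S)).length ≤ 1 := by
        refine filter_seam hℓ hS _ ?_
        rw [hσ, List.length_append, List.length_drop, List.length_take]
        omega
      have key : ∀ a : List α, ¬ n ∣ x.count a → a ∈ (facs ℓ σ).filter (· ∈ S) := by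
        intro a ha
        have hax := hmem a ha
        have haS := hxS a hax
        have hal := hS.1 a haS
        have hc : ∀ w : List α, (facs ℓ w).count a = ((facs ℓ w).filter (· ∈ S)).count a := by
          intro w
          rw [List.count_filter (by simpa using haS)]
        have hcy : (facs ℓ y).count a = x.count a := by
          have h9 : (facs ℓ u).count a = x.count a := by rw [hc, hfil]
          rw [← h9, ← hocc a _ hal, ← hocc a _ hal]
          exact (hK a (by omega) (by omega)).symm
        have hdiv := Pool.Agent.Helper74.SK.pe α ℓ n z a hℓ hn hz (by rw [← hyl']; exact hyl) hal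
        rw [← hy, h6' y (y.take (ℓ - 1)) (by omega), List.count_append, hcy, ← hσ] at hdiv
        by_contra hcon
        have h10 : (facs ℓ σ).count a = 0 := by
          rw [hc, List.count_eq_zero_of_not_mem hcon]
        rw [h10, add_zero] at hdiv
        exact ha hdiv
      have ka := key a ha
      have kb := key b hb
      obtain ⟨c, hc⟩ : ∃ c, (facs ℓ σ).filter (· ∈ S) = [c] := by
        apply List.length_eq_one_iff.1
        have := List.length_pos_iff.2 (List.ne_nil_of_mem ka)
        omega
      rw [hc, List.mem_singleton] at ka kb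
      exact hab (ka.trans kb.symm)

end Pool.Agent.Helper14.SK
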