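import Pool.Agent.Helper14.SK.Block

/-!
# Strongly k-abelian powers: the lower bound from a code without overlaps
-/

set_option autoImplicit false

namespace Pool.Agent.Helper14.SK

open Pool.Agent.Helper18.SK

variable {α : Type} [DecidableEq α]

/-- A long sequence over `S` all of whose nonempty pieces contain some member of `S` between one
and `n - 2` times. -/
theorem exists_seq {n : ℕ} (hn : 3 ≤ n) (S : List (List α)) (hnd : S.Nodup) (hS : S ≠ []) :
    ∃ l : List (List α), (∀ x ∈ l, x ∈ S) ∧ (n - 1) ^ S.length ≤ l.length + 1 ∧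
      ∀ l' : List (List α), l' <:+: l → l' ≠ [] → ∃ a, 1 ≤ l'.count a ∧ l'.count a ≤ n - 2 := by
  obtain ⟨h, c, rfl⟩ : ∃ h c, S = h :: c := by
    cases S with
    | nil => exact absurd rfl hS
    | cons h c => exact ⟨h, c, rfl⟩
  obtain ⟨hh, hc⟩ := List.nodup_cons.1 hnd
  obtain ⟨l, -, h2, h3, h4⟩ := Pool.Agent.Helper25.SK.lw Unit (List α) (fun _ => ()) (fun _ => ())
    (n - 1) () [h] c (by omega) ⟨rfl, rfl⟩ (by simp) (by simp) (by simp) hc (by
      intro e he
      refine ⟨?_, by simp, by simp⟩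
      intro h5
      rw [List.mem_singleton] at h5
      exact hh (h5 ▸ he)) () (by simp) () (by simp)
  refine ⟨l, ?_, ?_, ?_⟩
  · intro x hx
    rcases h2 x hx with h5 | h5
    · rw [List.mem_singleton] at h5
      rw [h5]
      exact List.mem_cons_self
    · exact List.mem_cons_of_mem _ h5
  · refine le_trans (le_of_eq ?_) h3
    rw [List.length_singleton, List.length_cons, one_mul, pow_succ, mul_comm]
    congr 1
    omega
  · intro l' hl' hl0
    obtain ⟨a, ha1, ha2⟩ := h4 l' hl' hl0
    rw [count_eq_count _ List.instBEq inferInstance inferInstance] at ha1 ha2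
    exact ⟨a, ha1, by omega⟩

/-- The lower bound from a code. -/
theorem code_bound [Fintype α] {k n ℓ : ℕ} {S : List (List α)} (hℓ : 1 ≤ ℓ) (hℓk : ℓ ≤ k)
    (hn : 3 ≤ n) (hS : NonOverlap ℓ S) (hnd : S.Nodup) (hS0 : S ≠ [])
    (hP : ∀ x ∈ S, ∀ y ∈ S, ∀ z : List α, z ≠ [] →
      ¬ (List.replicate n z).flatten <:+: x.drop 1 ++ y.take (ℓ - 1)) :
    ∃ w : List α, Avoids k n w ∧ ℓ * (n - 1) ^ S.length ≤ w.length + ℓ := by
  obtain ⟨l, h1, h2, h3⟩ := exists_seq hn S hnd hS0
  refine ⟨l.flatten, block_avoids hℓ hℓk (by omega) hS hP l h1 h3, ?_⟩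
  have h4 : l.flatten.length = l.length * ℓ := by
    rw [List.length_flatten]
    have h5 : l.map List.length = List.replicate l.length ℓ := by
      rw [List.eq_replicate_iff]
      refine ⟨by simp, ?_⟩
      intro b hb
      rw [List.mem_map] at hb
      obtain ⟨x, hx, rfl⟩ := hb
      exact hS.1 x (h1 x hx)
    rw [h5]
    simp
  rw [h4]
  calc ℓ * (n - 1) ^ S.length ≤ ℓ * (l.length + 1) := Nat.mul_le_mul_left _ h2
    _ = l.length * ℓ + ℓ := by ring

end Pool.Agent.Helper14.SK
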