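import Pool.Agent.Helper14.SK.Mark

/-!
# Strongly k-abelian powers: the number of power-free words
-/

set_option autoImplicit false

namespace Pool.Agent.Helper14.SK

open Pool.Agent.Helper18.SK

section

variable {α : Type} [DecidableEq α] [Fintype α]

/-- The words of length `t` without `E`-th powers. -/
noncomputable def G (α : Type) [DecidableEq α] [Fintype α] (E : ℕ) : ℕ → Finset (List α)
  | 0 => {[]}
  | t + 1 => by
    classical
    exact ((G α E t ×ˢ (Finset.univ : Finset α)).image fun p => p.1 ++ [p.2]).filter (PFree E)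

omit [DecidableEq α] [Fintype α] in
theorem PFree.sub {E : ℕ} {w v : List α} (h : PFree E w) (hv : v <:+: w) : PFree E v :=
  fun z hz hi => h z hz (hi.trans hv)

omit [DecidableEq α] [Fintype α] in
theorem pFree_nil {E : ℕ} (hE : 1 ≤ E) : PFree E ([] : List α) := by
  intro z hz h
  have h1 := h.length_le
  have hzl : 1 ≤ z.length := List.length_pos_iff.2 hz
  simp at h1
  rcases h1 with h1 | h1
  · omega
  · exact hz h1

theorem mem_G {E : ℕ} (hE : 1 ≤ E) (t : ℕ) (w : List α) :
    w ∈ G α E t ↔ PFree E w ∧ w.length = t := by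
  induction t generalizing w with
  | zero =>
    simp only [G, Finset.mem_singleton, List.length_eq_zero_iff]
    constructor
    · rintro rfl
      exact ⟨pFree_nil hE, rfl⟩
    · exact fun h => h.2
  | succ t ih =>
    simp only [G, Finset.mem_filter, Finset.mem_image, Finset.mem_product, Finset.mem_univ,
      and_true, Prod.exists]
    constructor
    · rintro ⟨⟨v, c, hv, rfl⟩, h⟩
      refine ⟨h, ?_⟩
      rw [List.length_append, ((ih v).1 hv).2]
      rfl
    · rintro ⟨h, hl⟩
      refine ⟨?_, h⟩
      have hw : w ≠ [] := by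
        rintro rfl
        simp at hl
      refine ⟨w.dropLast, w.getLast hw, ?_, List.dropLast_append_getLast hw⟩
      rw [ih]
      refine ⟨h.sub (List.dropLast_prefix w).isInfix, ?_⟩
      rw [List.length_dropLast, hl]
      rfl

theorem card_step {E : ℕ} (hE : 2 ≤ E) (t : ℕ) :
    (G α E t).card * Fintype.card α ≤ (G α E (t + 1)).card +
      ∑ p ∈ (Finset.range (t + 1)).filter (fun p => E * (p + 1) ≤ t + 1),
        (G α E (t + 1 - (E - 1) * (p + 1))).card := by
  classical
  set I : Finset (List α) := (G α E t ×ˢ (Finset.univ : Finset α)).image fun p => p.1 ++ [p.2]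
    with hI
  have hIc : I.card = (G α E t).card * Fintype.card α := by
    rw [hI, Finset.card_image_of_injective, Finset.card_product, Finset.card_univ]
    rintro ⟨v, c⟩ ⟨v', c'⟩ h
    simp only at h
    obtain ⟨h1, h2⟩ := List.append_inj' h rfl
    simp only [List.cons.injEq, and_true] at h2
    rw [h1, h2]
  let Bad : ℕ → Finset (List α) := fun p =>
    I.filter fun v => ∃ z : List α, z.length = p + 1 ∧ (List.replicate E z).flatten <:+ v
  have hIl : ∀ v ∈ I, v.length = t + 1 := by
    intro v hv
    rw [hI, Finset.mem_image] at hv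
    obtain ⟨⟨w, c⟩, hw, rfl⟩ := hv
    rw [Finset.mem_product] at hw
    rw [List.length_append, ((mem_G (by omega) t w).1 hw.1).2]
    rfl
  have hcover : I ⊆ G α E (t + 1) ∪
      ((Finset.range (t + 1)).filter (fun p => E * (p + 1) ≤ t + 1)).biUnion Bad := by
    intro v hv
    rw [Finset.mem_union]
    by_cases hf : PFree E v
    · left
      rw [mem_G (by omega)]
      exact ⟨hf, hIl v hv⟩
    · right
      have hv' := hv
      rw [hI, Finset.mem_image] at hv'
      obtain ⟨⟨w, c⟩, hw, hwv⟩ := hv'
      rw [Finset.mem_product] at hw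
      simp only at hwv
      have hwf := ((mem_G (by omega) t w).1 hw.1).1
      unfold PFree at hf
      push Not at hf
      obtain ⟨z, hz, hzv⟩ := hf
      have hsuf : (List.replicate E z).flatten <:+ v := by
        rw [← hwv, List.infix_concat_iff] at hzv
        rcases hzv with h | h
        · rw [← hwv]
          exact h
        · exact absurd h (hwf z hz)
      have hzl : 1 ≤ z.length := List.length_pos_iff.2 hz
      have hl1 := hsuf.length_le
      rw [hIl v hv] at hl1
      simp only [List.length_flatten, List.map_replicate, List.sum_replicate, smul_eq_mul] at hl1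
      have hl2 : z.length ≤ E * z.length := Nat.le_mul_of_pos_left _ (by omega)
      rw [Finset.mem_biUnion]
      refine ⟨z.length - 1, ?_, ?_⟩
      · rw [Finset.mem_filter, Finset.mem_range]
        rw [show z.length - 1 + 1 = z.length by omega]
        exact ⟨by omega, hl1⟩
      · simp only [Bad, Finset.mem_filter]
        exact ⟨hv, z, by omega, hsuf⟩
  have hBad : ∀ p ∈ (Finset.range (t + 1)).filter (fun p => E * (p + 1) ≤ t + 1),
      (Bad p).card ≤ (G α E (t + 1 - (E - 1) * (p + 1))).card := by
    intro p hp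
    rw [Finset.mem_filter] at hp
    have hEp := hp.2
    obtain ⟨E', rfl⟩ : ∃ E', E = E' + 2 := ⟨E - 2, by omega⟩
    rw [show E' + 2 - 1 = E' + 1 by omega]
    have e0 : (E' + 2) * (p + 1) = (E' + 1) * (p + 1) + (p + 1) := by ring
    have e1 : 1 ≤ (E' + 1) * (p + 1) := Nat.one_le_iff_ne_zero.2 (by positivity)
    have hspl : ∀ v ∈ Bad p, ∃ v' z : List α, z.length = p + 1 ∧
        v = v' ++ (List.replicate (E' + 2) z).flatten ∧
        v.take (t + 1 - (E' + 1) * (p + 1)) = v' ++ z ∧
        v'.length = t + 1 - (E' + 2) * (p + 1) := by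
      intro v hv
      simp only [Bad, Finset.mem_filter] at hv
      obtain ⟨hvI, z, hzl, v', hv'⟩ := hv
      have hvl := hIl v hvI
      have hl : v'.length + (E' + 2) * (p + 1) = t + 1 := by
        rw [← hvl, ← hv']
        simp [hzl]
      refine ⟨v', z, hzl, hv'.symm, ?_, by omega⟩
      rw [← hv', List.replicate_succ, List.flatten_cons, ← List.append_assoc, List.take_left']
      rw [List.length_append, hzl]
      omega
    refine Finset.card_le_card_of_injOn (fun v => v.take (t + 1 - (E' + 1) * (p + 1))) ?_ ?_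
    · intro v hv
      have hvI : v ∈ I := by
        simp only [Bad, Finset.coe_filter, Set.mem_ofPred_eq] at hv
        exact hv.1
      have hvl := hIl v hvI
      rw [hI, Finset.mem_image] at hvI
      obtain ⟨⟨w, c⟩, hw, hwv⟩ := hvI
      rw [Finset.mem_product] at hw
      simp only at hwv
      obtain ⟨hwf, hwl⟩ := (mem_G (by omega) t w).1 hw.1
      simp only [SetLike.mem_coe]
      rw [mem_G (by omega)]
      constructor
      · refine hwf.sub ?_
        rw [← hwv, List.take_append_of_le_length (by omega)]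
        exact (List.take_prefix _ _).isInfix
      · rw [List.length_take]
        omega
    · intro v1 h1 v2 h2 h12
      simp only at h12
      obtain ⟨a1, z1, l1, f1, g1, k1⟩ := hspl v1 h1
      obtain ⟨a2, z2, l2, f2, g2, k2⟩ := hspl v2 h2
      rw [g1, g2] at h12
      obtain ⟨h3, h4⟩ := List.append_inj h12 (by omega)
      rw [f1, f2, h3, h4]
  calc (G α E t).card * Fintype.card α = I.card := hIc.symm
    _ ≤ (G α E (t + 1) ∪
      ((Finset.range (t + 1)).filter (fun p => E * (p + 1) ≤ t + 1)).biUnion Bad).card :=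
        Finset.card_le_card hcover
    _ ≤ (G α E (t + 1)).card +
        (((Finset.range (t + 1)).filter (fun p => E * (p + 1) ≤ t + 1)).biUnion Bad).card :=
        Finset.card_union_le _ _
    _ ≤ _ := by
        refine Nat.add_le_add_left (Finset.card_biUnion_le.trans ?_) _
        exact Finset.sum_le_sum hBad

theorem geom_bound {x r : ℝ} (hxr : x * r = 1) (N : ℕ) :
    (∑ p ∈ Finset.range N, x ^ (p + 1)) * (r - 1) = 1 - x ^ N := by
  induction N with
  | zero => simp
  | succ N ih =>
    rw [Finset.sum_range_succ, add_mul, ih]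
    have : x ^ (N + 1) * r = x ^ N := by
      rw [pow_succ, mul_assoc, hxr, mul_one]
    linear_combination this

/-- Growth of the number of words without `E`-th powers. -/
theorem card_growth {E : ℕ} (hE : 2 ≤ E) {β : ℝ} (hβ : 1 ≤ β)
    (hm : β ^ E ≤ (Fintype.card α : ℝ) * (β ^ (E - 1) - 1)) (t : ℕ) :
    β * (G α E t).card ≤ (G α E (t + 1)).card := by
  induction t using Nat.strong_induction_on with
  | _ t ih =>
  obtain ⟨E', rfl⟩ : ∃ E', E = E' + 2 := ⟨E - 2, by omega⟩
  rw [show E' + 2 - 1 = E' + 1 by omega] at hm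
  set r := β ^ (E' + 1) with hr
  have hβ0 : 0 < β := by linarith
  have hr1 : 1 ≤ r := one_le_pow₀ hβ
  have hr0 : 0 < r := by linarith
  have hβr : β ^ (E' + 2) = β * r := by
    rw [hr]
    ring
  rw [hβr] at hm
  have hr2 : 0 < r - 1 := by
    by_contra hc
    have : r - 1 = 0 := by linarith
    rw [this, mul_zero] at hm
    have : 0 < β * r := by positivity
    linarith
  have hpow : ∀ j ≤ t, β ^ j * ((G α (E' + 2) (t - j)).card : ℝ) ≤ (G α (E' + 2) t).card := by
    intro j
    induction j with
    | zero => intro _; simp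
    | succ j ihj =>
      intro hj
      have h1 := ihj (by omega)
      have h2 := ih (t - (j + 1)) (by omega)
      rw [show t - (j + 1) + 1 = t - j by omega] at h2
      calc β ^ (j + 1) * ((G α (E' + 2) (t - (j + 1))).card : ℝ)
          = β ^ j * (β * ((G α (E' + 2) (t - (j + 1))).card : ℝ)) := by ring
        _ ≤ β ^ j * ((G α (E' + 2) (t - j)).card : ℝ) :=
            mul_le_mul_of_nonneg_left h2 (by positivity)
        _ ≤ _ := h1
  have hstep := card_step (α := α) (E := E' + 2) (by omega) t
  rw [show E' + 2 - 1 = E' + 1 by omega] at hstep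
  have hstep' : ((G α (E' + 2) t).card : ℝ) * (Fintype.card α : ℝ) ≤
      ((G α (E' + 2) (t + 1)).card : ℝ) +
      ∑ p ∈ (Finset.range (t + 1)).filter (fun p => (E' + 2) * (p + 1) ≤ t + 1),
        ((G α (E' + 2) (t + 1 - (E' + 1) * (p + 1))).card : ℝ) := by
    exact_mod_cast hstep
  set g : ℝ := ((G α (E' + 2) t).card : ℝ) with hg
  have hg0 : 0 ≤ g := by positivity
  set x := 1 / r with hx
  have hxr : x * r = 1 := by
    rw [hx]
    field_simp
  have hx0 : 0 ≤ x := by positivity
  have hsum : ∑ p ∈ (Finset.range (t + 1)).filter (fun p => (E' + 2) * (p + 1) ≤ t + 1),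
        ((G α (E' + 2) (t + 1 - (E' + 1) * (p + 1))).card : ℝ) ≤
      ∑ p ∈ Finset.range (t + 1), g * β * x ^ (p + 1) := by
    rw [Finset.sum_filter]
    refine Finset.sum_le_sum fun p _ => ?_
    split_ifs with hp
    · have e0 : (E' + 2) * (p + 1) = (E' + 1) * (p + 1) + (p + 1) := by ring
      have e1 : 1 ≤ (E' + 1) * (p + 1) := Nat.one_le_iff_ne_zero.2 (by positivity)
      have h1 := hpow ((E' + 1) * (p + 1) - 1) (by omega)
      rw [show t - ((E' + 1) * (p + 1) - 1) = t + 1 - (E' + 1) * (p + 1) by omega] at h1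
      have h2 : β ^ ((E' + 1) * (p + 1) - 1) * β = r ^ (p + 1) := by
        rw [← pow_succ, Nat.sub_add_cancel e1, hr, ← pow_mul]
      have h3 : r ^ (p + 1) * x ^ (p + 1) = 1 := by
        rw [← mul_pow, mul_comm, hxr, one_pow]
      have hx1 : 0 ≤ x ^ (p + 1) := by positivity
      set G' : ℝ := ((G α (E' + 2) (t + 1 - (E' + 1) * (p + 1))).card : ℝ) with hG'
      calc G' = G' * (r ^ (p + 1) * x ^ (p + 1)) := by rw [h3, mul_one]
        _ = (β ^ ((E' + 1) * (p + 1) - 1) * G') * (β * x ^ (p + 1)) := by
            rw [← h2]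
            ring
        _ ≤ g * (β * x ^ (p + 1)) := mul_le_mul_of_nonneg_right h1 (by positivity)
        _ = g * β * x ^ (p + 1) := by ring
    · positivity
  rw [← Finset.mul_sum] at hsum
  have hgeo := geom_bound hxr (t + 1)
  set sx := ∑ p ∈ Finset.range (t + 1), x ^ (p + 1) with hsx
  have hxN : 0 ≤ x ^ (t + 1) := by positivity
  have h5 : sx * (r - 1) ≤ 1 := by linarith
  have h6 : g * (Fintype.card α : ℝ) ≤ ((G α (E' + 2) (t + 1)).card : ℝ) + g * β * sx := by
    linarith
  -- multiply by `r - 1`
  have h7 : (β * g) * (r - 1) ≤ ((G α (E' + 2) (t + 1)).card : ℝ) * (r - 1) := by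
    have h8 := mul_le_mul_of_nonneg_right h6 hr2.le
    have h9 : g * β * (sx * (r - 1)) ≤ g * β * 1 := mul_le_mul_of_nonneg_left h5 (by positivity)
    have h10 : g * (β * r) ≤ g * ((Fintype.card α : ℝ) * (r - 1)) :=
      mul_le_mul_of_nonneg_left hm hg0
    nlinarith
  exact le_of_mul_le_mul_right h7 hr2

theorem pow_le_card {E : ℕ} (hE : 2 ≤ E) {β : ℝ} (hβ : 1 ≤ β)
    (hm : β ^ E ≤ (Fintype.card α : ℝ) * (β ^ (E - 1) - 1)) (t : ℕ) :
    β ^ t ≤ (G α E t).card := by
  induction t with
  | zero => simp [G]
  | succ t ih =>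
    calc β ^ (t + 1) = β * β ^ t := by ring
      _ ≤ β * (G α E t).card := mul_le_mul_of_nonneg_left ih (by linarith)
      _ ≤ _ := card_growth hE hβ hm t

end

end Pool.Agent.Helper14.SK
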