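import Mathlib

/-!
# The Thue–Morse word has no overlaps
-/

set_option autoImplicit false

namespace Pool.Agent.Helper14.SK

/-- The Thue–Morse word. -/
def tm (n : ℕ) : ℕ := (Nat.digits 2 n).sum % 2

theorem digits_sum_two_mul (n : ℕ) : (Nat.digits 2 (2 * n)).sum = (Nat.digits 2 n).sum := by
  rcases Nat.eq_zero_or_pos n with h | h
  · subst h
    rfl
  · have h1 := Nat.digits_add 2 (by norm_num) 0 n (by norm_num) (Or.inr h.ne')
    rw [Nat.zero_add] at h1
    rw [h1]
    simp

theorem digits_sum_two_mul_add_one (n : ℕ) :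
    (Nat.digits 2 (2 * n + 1)).sum = (Nat.digits 2 n).sum + 1 := by
  have h1 := Nat.digits_add 2 (by norm_num) 1 n (by norm_num) (Or.inl (by norm_num))
  rw [add_comm 1] at h1
  rw [h1]
  simp [add_comm]

theorem tm_even (n : ℕ) : tm (2 * n) = tm n := by
  rw [tm, digits_sum_two_mul, tm]

theorem tm_odd (n : ℕ) : tm (2 * n + 1) = 1 - tm n := by
  rw [tm, digits_sum_two_mul_add_one, tm]
  omega

theorem tm_lt (n : ℕ) : tm n < 2 := Nat.mod_lt _ (by norm_num)

theorem tm_pair (n : ℕ) : tm (2 * n) ≠ tm (2 * n + 1) := by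
  rw [tm_even, tm_odd]
  have := tm_lt n
  omega

theorem tm_three (s : ℕ) : ¬ (tm s = tm (s + 1) ∧ tm (s + 1) = tm (s + 2)) := by
  rintro ⟨h1, h2⟩
  rcases Nat.even_or_odd' s with ⟨a, rfl | rfl⟩
  · exact tm_pair a h1
  · apply tm_pair (a + 1)
    rw [show 2 * (a + 1) = 2 * a + 1 + 1 by ring]
    exact h2

/-- No overlaps. -/
theorem tm_no_overlap (q : ℕ) (hq : 1 ≤ q) (s : ℕ) : ¬ ∀ j ≤ q, tm (s + j) = tm (s + j + q) := by
  induction q using Nat.strong_induction_on generalizing s with
  | _ q ih =>
  intro h
  rcases Nat.even_or_odd' q with ⟨q', rfl | rfl⟩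
  · rcases Nat.even_or_odd' s with ⟨a, rfl | rfl⟩
    · refine ih q' (by omega) (by omega) a fun i hi => ?_
      have h1 := h (2 * i) (by omega)
      rw [show 2 * a + 2 * i = 2 * (a + i) by ring,
        show 2 * (a + i) + 2 * q' = 2 * (a + i + q') by ring, tm_even, tm_even] at h1
      exact h1
    · refine ih q' (by omega) (by omega) a fun i hi => ?_
      have h1 := h (2 * i) (by omega)
      rw [show 2 * a + 1 + 2 * i = 2 * (a + i) + 1 by ring,
        show 2 * (a + i) + 1 + 2 * q' = 2 * (a + i + q') + 1 by ring, tm_odd, tm_odd] at h1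
      have := tm_lt (a + i)
      have := tm_lt (a + i + q')
      omega
  · rcases Nat.eq_zero_or_pos q' with h0 | h0
    · subst h0
      have h1 := h 0 (by omega)
      have h2 := h 1 (by omega)
      refine tm_three s ⟨?_, ?_⟩
      · simpa using h1
      · simpa using h2
    · -- alternation
      have halt1 : ∀ j, j < 2 * q' + 1 → tm (s + j) ≠ tm (s + j + 1) := by
        intro j hj he
        rcases Nat.even_or_odd' (s + j) with ⟨a, ha | ha⟩
        · rw [ha] at he
          exact tm_pair a he
        · have h1 := h j (by omega)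
          have h2 := h (j + 1) (by omega)
          rw [show s + (j + 1) = s + j + 1 by ring] at h2
          rw [h1, h2] at he
          rw [show s + j + (2 * q' + 1) = 2 * (a + q' + 1) by omega,
            show s + j + 1 + (2 * q' + 1) = 2 * (a + q' + 1) + 1 by omega] at he
          exact tm_pair _ he
      have halt : ∀ j, j < 2 * (2 * q' + 1) → tm (s + j) ≠ tm (s + j + 1) := by
        intro j hj
        by_cases hj' : j < 2 * q' + 1
        · exact halt1 j hj'
        · have h1 := h (j - (2 * q' + 1)) (by omega)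
          have h2 := h (j - (2 * q' + 1) + 1) (by omega)
          have h3 := halt1 (j - (2 * q' + 1)) (by omega)
          rw [show s + (j - (2 * q' + 1)) + (2 * q' + 1) = s + j by omega] at h1
          rw [show s + (j - (2 * q' + 1) + 1) + (2 * q' + 1) = s + j + 1 by omega,
            show s + (j - (2 * q' + 1) + 1) = s + (j - (2 * q' + 1)) + 1 by omega] at h2
          rw [h1, h2] at h3
          exact h3
      obtain ⟨a, ha1, ha2⟩ : ∃ a, s ≤ 2 * a ∧ 2 * a ≤ s + 1 := ⟨(s + 1) / 2, by omega, by omega⟩
      have key : ∀ i, s ≤ 2 * i → 2 * i + 2 ≤ s + 2 * (2 * q' + 1) → tm i = tm (i + 1) := by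
        intro i hi1 hi2
        have h1 := halt (2 * i - s) (by omega)
        have h2 := halt (2 * i + 1 - s) (by omega)
        rw [show s + (2 * i - s) = 2 * i by omega] at h1
        rw [show s + (2 * i + 1 - s) = 2 * i + 1 by omega,
          show 2 * i + 1 + 1 = 2 * (i + 1) by ring] at h2
        rw [tm_even, tm_odd] at h1
        rw [tm_odd, tm_even] at h2
        have := tm_lt i
        have := tm_lt (i + 1)
        omega
      exact tm_three a ⟨key a ha1 (by omega), key (a + 1) (by omega) (by omega)⟩

end Pool.Agent.Helper14.SK
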