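import Pool.Agent.Helper14.SK.Mark
import Pool.Agent.Helper14.SK.TM

/-!
# Strongly k-abelian powers: a code without overlaps and without cubes of short period
-/

set_option autoImplicit false

namespace Pool.Agent.Helper14.SK

open Pool.Agent.Helper18.SK

/-- The pattern of a cell: `0`, `1` are letters, `2` is the place of the flag, `3` the place of the
Thue–Morse letter, `4` the free place. -/
def tpl (j : ℕ) : ℕ :=
  [0, 0, 1, 2, 0, 1, 1, 0, 0, 1, 3, 0, 1, 1, 0, 1, 0, 4, 1, 0, 1].getD j 0

/-- Two different letters. -/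
def conf (u v : ℕ) : Bool := (u == 0 && v == 1) || (u == 1 && v == 0)

theorem tpl_conf1 : ∀ r < 21, 1 ≤ r → ∃ j < 21, conf (tpl j) (tpl ((j + r) % 21)) = true := by
  decide

theorem tpl_conf2 : ∀ a < 21, ∀ p < 21, 1 ≤ p →
    (∃ t < 2 * p, conf (tpl ((a + t) % 21)) (tpl ((a + t + p) % 21)) = true) ∨
      ∃ t < p, conf (tpl ((a + t) % 21)) (tpl ((a + t + 2 * p) % 21)) = true := by
  decide

theorem tpl_conf3 : ∀ h < 21, 1 ≤ h → ∃ j < h, conf (tpl j) (tpl (21 - h + j)) = true := by
  decide

section

variable {α : Type} {a b : α}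

/-- The letter at the place `J`. -/
def lett (a b : α) (φ : ℕ → α) (J : ℕ) : α :=
  if tpl (J % 21) = 0 then a else if tpl (J % 21) = 1 then b else
  if tpl (J % 21) = 2 then (if J / 21 = 0 then b else a) else
  if tpl (J % 21) = 3 then (if tm (J / 21) = 1 then b else a) else φ (J / 21)

theorem lett_conf (hab : a ≠ b) (φ φ' : ℕ → α) {J K : ℕ}
    (h : conf (tpl (J % 21)) (tpl (K % 21)) = true) : lett a b φ J ≠ lett a b φ' K := by
  simp only [conf, Bool.or_eq_true, Bool.and_eq_true, beq_iff_eq] at h
  rcases h with ⟨h1, h2⟩ | ⟨h1, h2⟩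
  · simp [lett, h1, h2, hab]
  · simp [lett, h1, h2, hab.symm]

theorem lett_flag (φ : ℕ → α) (i : ℕ) : lett a b φ (21 * i + 3) = if i = 0 then b else a := by
  have h1 : (21 * i + 3) % 21 = 3 := by omega
  have h2 : (21 * i + 3) / 21 = i := by omega
  have h3 : tpl 3 = 2 := rfl
  simp [lett, h1, h2, h3]

theorem lett_tm (φ : ℕ → α) (i : ℕ) :
    lett a b φ (21 * i + 10) = if tm i = 1 then b else a := by
  have h1 : (21 * i + 10) % 21 = 10 := by omega
  have h2 : (21 * i + 10) / 21 = i := by omega
  have h3 : tpl 10 = 3 := rfl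
  simp [lett, h1, h2, h3]

theorem lett_free (φ : ℕ → α) (i : ℕ) : lett a b φ (21 * i + 17) = φ i := by
  have h1 : (21 * i + 17) % 21 = 17 := by omega
  have h2 : (21 * i + 17) / 21 = i := by omega
  have h3 : tpl 17 = 4 := rfl
  simp [lett, h1, h2, h3]

/-- The code word. -/
def xw (a b : α) (R : ℕ) (φ : ℕ → α) : List α := List.ofFn fun j : Fin (21 * R) => lett a b φ j

theorem xw_length (R : ℕ) (φ : ℕ → α) : (xw a b R φ).length = 21 * R := by
  simp [xw]

theorem xw_get (R : ℕ) (φ : ℕ → α) (J : ℕ) (h : J < 21 * R) :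
    (xw a b R φ)[J]? = some (lett a b φ J) := by
  rw [List.getElem?_eq_getElem (by rw [xw_length]; exact h)]
  simp [xw]

/-- The letters of two consecutive code words. -/
def FF (a b : α) (R : ℕ) (φ φ' : ℕ → α) (J : ℕ) : α :=
  if J < 21 * R then lett a b φ J else lett a b φ' (J - 21 * R)

theorem FF_get (R : ℕ) (φ φ' : ℕ → α) (J : ℕ) (h : J < 42 * R) :
    (xw a b R φ ++ xw a b R φ')[J]? = some (FF a b R φ φ' J) := by
  unfold FF
  split_ifs with h1
  · rw [List.getElem?_append_left (by rw [xw_length]; exact h1), xw_get _ _ _ h1]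
  · push Not at h1
    rw [List.getElem?_append_right (by rw [xw_length]; exact h1), xw_length,
      xw_get _ _ _ (by omega)]

theorem FF_conf (hab : a ≠ b) (R : ℕ) (φ φ' : ℕ → α) {J K : ℕ}
    (h : conf (tpl (J % 21)) (tpl (K % 21)) = true) : FF a b R φ φ' J ≠ FF a b R φ φ' K := by
  unfold FF
  have e : ∀ J, 21 * R ≤ J → (J - 21 * R) % 21 = J % 21 := by
    intro J hJ
    omega
  split_ifs with h1 h2 h2
  · exact lett_conf hab _ _ h
  · exact lett_conf hab _ _ (by rw [e K (by omega)]; exact h)
  · exact lett_conf hab _ _ (by rw [e J (by omega)]; exact h)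
  · exact lett_conf hab _ _ (by rw [e J (by omega), e K (by omega)]; exact h)

theorem FF_flag (hab : a ≠ b) (R : ℕ) (φ φ' : ℕ → α) (i : ℕ) (hR : 1 ≤ R) :
    FF a b R φ φ' (21 * i + 3) = b ↔ i = 0 ∨ i = R := by
  unfold FF
  split_ifs with h1
  · rw [lett_flag]
    split_ifs with h2
    · simp [h2]
    · simp only [hab, false_iff, not_or]
      exact ⟨h2, by omega⟩
  · rw [show 21 * i + 3 - 21 * R = 21 * (i - R) + 3 by omega, lett_flag]
    split_ifs with h2
    · simp only [true_iff]
      right
      omega
    · simp only [hab, false_iff, not_or]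
      omega

theorem FF_tm_left (R : ℕ) (φ φ' : ℕ → α) (i : ℕ) (h : i < R) :
    FF a b R φ φ' (21 * i + 10) = if tm i = 1 then b else a := by
  unfold FF
  rw [if_pos (by omega), lett_tm]

theorem FF_tm_right (R : ℕ) (φ φ' : ℕ → α) (i : ℕ) (h : R ≤ i) :
    FF a b R φ φ' (21 * i + 10) = if tm (i - R) = 1 then b else a := by
  unfold FF
  rw [if_neg (by omega), show 21 * i + 10 - 21 * R = 21 * (i - R) + 10 by omega, lett_tm]

theorem tm_eq_of_ite (hab : a ≠ b) {i j : ℕ}
    (h : (if tm i = 1 then b else a) = (if tm j = 1 then b else a)) : tm i = tm j := by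
  have h1 := tm_lt i
  have h2 := tm_lt j
  split_ifs at h with h3 h4 h4
  · omega
  · exact absurd h.symm hab
  · exact absurd h hab
  · omega

/-- Two consecutive code words contain no cube of period less than their length. -/
theorem no_cube (hab : a ≠ b) {R : ℕ} (φ φ' : ℕ → α) {z : List α} (hz : z ≠ [])
    (hzl : z.length < 21 * R) :
    ¬ (List.replicate 3 z).flatten <:+: xw a b R φ ++ xw a b R φ' := by
  rintro ⟨A, B, h⟩
  have hp1 : 1 ≤ z.length := List.length_pos_iff.2 hz
  set p := z.length with hp
  set s := A.length with hs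
  set u := (List.replicate 3 z).flatten with hu
  have hul : u.length = 3 * p := by
    rw [hu, hp]
    simp
    omega
  have hlen := congrArg List.length h
  simp only [List.length_append, xw_length, hul, ← hs] at hlen
  have hget : ∀ t < 3 * p, (xw a b R φ ++ xw a b R φ')[s + t]? = u[t]? := by
    intro t ht
    rw [← h, List.getElem?_append_left (by rw [List.length_append]; omega),
      List.getElem?_append_right (by omega)]
    congr 1
    omega
  have hper : ∀ t < 2 * p, FF a b R φ φ' (s + t) = FF a b R φ φ' (s + t + p) := by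
    intro t ht
    have h1 := hget t (by omega)
    have h2 := hget (t + p) (by omega)
    rw [FF_get _ _ _ _ (by omega)] at h1
    rw [← add_assoc, FF_get _ _ _ _ (by omega)] at h2
    have h3 : u[t + p]? = u[t]? := by
      have h4 := pow_drop_take 3 z
      rw [← hu, ← hp, hul] at h4
      rw [add_comm, ← List.getElem?_drop, h4, List.getElem?_take_of_lt (by omega)]
    rw [h3, ← h1] at h2
    exact (Option.some.inj h2).symm
  by_cases h21 : p % 21 = 0
  · obtain ⟨q, hq⟩ : ∃ q, p = 21 * q := ⟨p / 21, by omega⟩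
    have hq1 : 1 ≤ q := by omega
    have hqR : q < R := by omega
    obtain ⟨i0, hi0, hi1⟩ : ∃ i0, s ≤ 21 * i0 + 3 ∧ 21 * i0 + 3 ≤ s + 20 :=
      ⟨(s + 17) / 21, by omega, by omega⟩
    obtain ⟨j0, hj0, hj1⟩ : ∃ j0, s ≤ 21 * j0 + 10 ∧ 21 * j0 + 10 ≤ s + 20 :=
      ⟨(s + 10) / 21, by omega, by omega⟩
    have hflag : ∀ i, i0 ≤ i → i < i0 + 2 * q →
        (FF a b R φ φ' (21 * i + 3) = b ↔ FF a b R φ φ' (21 * (i + q) + 3) = b) := by
      intro i h1 h2
      have h3 := hper (21 * i + 3 - s) (by omega)
      rw [show s + (21 * i + 3 - s) = 21 * i + 3 by omega,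
        show 21 * i + 3 + p = 21 * (i + q) + 3 by omega] at h3
      rw [h3]
    have hno : ∀ i, i0 ≤ i → i < i0 + 3 * q → ¬ (i = 0 ∨ i = R) := by
      intro i h1 h2 h3
      by_cases h4 : i < i0 + 2 * q
      · have h5 := hflag i h1 h4
        rw [FF_flag hab _ _ _ _ (by omega), FF_flag hab _ _ _ _ (by omega)] at h5
        have h6 := h5.1 h3
        omega
      · have h5 := hflag (i - q) (by omega) (by omega)
        rw [show i - q + q = i by omega, FF_flag hab _ _ _ _ (by omega),
          FF_flag hab _ _ _ _ (by omega)] at h5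
        have h6 := h5.2 h3
        omega
    have htm : ∀ j, j0 ≤ j → j < j0 + 2 * q →
        FF a b R φ φ' (21 * j + 10) = FF a b R φ φ' (21 * (j + q) + 10) := by
      intro j h1 h2
      have h3 := hper (21 * j + 10 - s) (by omega)
      rw [show s + (21 * j + 10 - s) = 21 * j + 10 by omega,
        show 21 * j + 10 + p = 21 * (j + q) + 10 by omega] at h3
      exact h3
    have hi00 : 1 ≤ i0 := by
      by_contra hc
      exact hno i0 le_rfl (by omega) (Or.inl (by omega))
    by_cases hcase : i0 ≤ R
    · have hend : i0 + 3 * q ≤ R := by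
        by_contra hc
        exact hno R (by omega) (by omega) (Or.inr rfl)
      refine tm_no_overlap q hq1 j0 fun j hj => ?_
      have h1 := htm (j0 + j) (by omega) (by omega)
      rw [FF_tm_left _ _ _ _ (by omega), FF_tm_left _ _ _ _ (by omega)] at h1
      exact tm_eq_of_ite hab h1
    · refine tm_no_overlap q hq1 (j0 - R) fun j hj => ?_
      have h1 := htm (j0 + j) (by omega) (by omega)
      rw [FF_tm_right _ _ _ _ (by omega), FF_tm_right _ _ _ _ (by omega),
        show j0 + j - R = j0 - R + j by omega,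
        show j0 + j + q - R = j0 - R + j + q by omega] at h1
      exact tm_eq_of_ite hab h1
  · by_cases hp21 : p < 21
    · rcases tpl_conf2 (s % 21) (Nat.mod_lt _ (by norm_num)) p hp21 hp1 with
        ⟨t, ht, hc⟩ | ⟨t, ht, hc⟩
      · refine FF_conf hab R φ φ' (J := s + t) (K := s + t + p) ?_ (hper t ht)
        rw [show (s + t) % 21 = (s % 21 + t) % 21 by omega,
          show (s + t + p) % 21 = (s % 21 + t + p) % 21 by omega]
        exact hc
      · refine FF_conf hab R φ φ' (J := s + t) (K := s + t + 2 * p) ?_ ?_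
        · rw [show (s + t) % 21 = (s % 21 + t) % 21 by omega,
            show (s + t + 2 * p) % 21 = (s % 21 + t + 2 * p) % 21 by omega]
          exact hc
        · rw [hper t (by omega), show s + t + p = s + (t + p) by omega,
            hper (t + p) (by omega)]
          congr 1
          omega
    · obtain ⟨j, hj, hc⟩ := tpl_conf1 (p % 21) (Nat.mod_lt _ (by norm_num)) (by omega)
      obtain ⟨t, ht, htj⟩ : ∃ t < 21, (s + t) % 21 = j :=
        ⟨(j + 21 - s % 21) % 21, Nat.mod_lt _ (by norm_num), by omega⟩
      refine FF_conf hab R φ φ' (J := s + t) (K := s + t + p) ?_ (hper t (by omega))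
      rw [htj, show (s + t + p) % 21 = (j + p % 21) % 21 by omega]
      exact hc

theorem xw_nonOverlap (hab : a ≠ b) {R : ℕ} (S : List (List α))
    (hS : ∀ x ∈ S, ∃ φ : ℕ → α, x = xw a b R φ) : NonOverlap (21 * R) S := by
  constructor
  · intro x hx
    obtain ⟨φ, rfl⟩ := hS x hx
    exact xw_length R φ
  · intro x hx y hy h h1 h2 he
    obtain ⟨φ, rfl⟩ := hS x hx
    obtain ⟨φ', rfl⟩ := hS y hy
    have hget : ∀ j < h, lett a b φ j = lett a b φ' (21 * R - h + j) := by
      intro j hj
      have h3 := congrArg (fun l => l[j]?) he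
      beta_reduce at h3
      rw [List.getElem?_take_of_lt hj, List.getElem?_drop, xw_get _ _ _ (by omega),
        xw_get _ _ _ (by omega)] at h3
      exact Option.some.inj h3
    by_cases h21 : h % 21 = 0
    · have h4 := hget 3 (by omega)
      rw [show (3 : ℕ) = 21 * 0 + 3 by norm_num, lett_flag,
        show 21 * R - h + (21 * 0 + 3) = 21 * (R - h / 21) + 3 by omega, lett_flag,
        if_pos rfl, if_neg (by omega)] at h4
      exact hab h4.symm
    · by_cases hh : h < 21
      · obtain ⟨j, hj, hc⟩ := tpl_conf3 h hh h1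
        refine lett_conf hab φ φ' (J := j) (K := 21 * R - h + j) ?_ (hget j hj)
        rw [show j % 21 = j by omega, show (21 * R - h + j) % 21 = 21 - h + j by omega]
        exact hc
      · obtain ⟨j, hj, hc⟩ := tpl_conf1 ((21 * R - h) % 21) (Nat.mod_lt _ (by norm_num))
          (by omega)
        refine lett_conf hab φ φ' (J := j) (K := 21 * R - h + j) ?_ (hget j (by omega))
        rw [show j % 21 = j by omega,
          show (21 * R - h + j) % 21 = (j + (21 * R - h) % 21) % 21 by omega]
        exact hc

end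

/-- The lower bound from the template. -/
theorem tpl_bound {α : Type} [DecidableEq α] [Fintype α] {a b : α} (hab : a ≠ b) {k n R : ℕ}
    (hn : 3 ≤ n) (hR : 1 ≤ R) (hk : 21 * R ≤ k) :
    ∃ w : List α, Avoids k n w ∧
      21 * R * (n - 1) ^ (Fintype.card α ^ R) ≤ w.length + 21 * R := by
  let ext : (Fin R → α) → ℕ → α := fun f i => if h : i < R then f ⟨i, h⟩ else a
  let S : List (List α) :=
    (Finset.univ : Finset (Fin R → α)).toList.map fun f => xw a b R (ext f)
  have hinj : Function.Injective fun f : Fin R → α => xw a b R (ext f) := by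
    intro f f' h
    funext i
    have h1 := congrArg (fun l => l[21 * (i : ℕ) + 17]?) h
    beta_reduce at h1
    have hi := i.2
    rw [xw_get _ _ _ (by omega), xw_get _ _ _ (by omega), lett_free, lett_free] at h1
    have h2 := Option.some.inj h1
    simpa [ext] using h2
  have hSφ : ∀ x ∈ S, ∃ φ : ℕ → α, x = xw a b R φ := by
    intro x hx
    simp only [S, List.mem_map] at hx
    obtain ⟨f, -, rfl⟩ := hx
    exact ⟨_, rfl⟩
  have hSl : S.length = Fintype.card α ^ R := by
    simp [S]
  have h := code_bound (k := k) (n := n) (ℓ := 21 * R) (S := S) (by omega) hk hn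
    (xw_nonOverlap hab S hSφ) ((Finset.nodup_toList _).map hinj) (by
      intro h0
      rw [h0, List.length_nil] at hSl
      have : 0 < Fintype.card α ^ R := by
        have : 0 < Fintype.card α := Fintype.card_pos_iff.2 ⟨a⟩
        positivity
      omega) (by
      intro x hx y hy z hz hzi
      obtain ⟨φ, rfl⟩ := hSφ x hx
      obtain ⟨φ', rfl⟩ := hSφ y hy
      have hzl : 1 ≤ z.length := List.length_pos_iff.2 hz
      have hl := hzi.length_le
      rw [List.length_append, List.length_drop, List.length_take, xw_length, xw_length] at hl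
      simp only [List.length_flatten, List.map_replicate, List.sum_replicate, smul_eq_mul] at hl
      have h3 : 3 * z.length ≤ n * z.length := Nat.mul_le_mul_right _ hn
      refine no_cube hab φ φ' hz (R := R) (by omega) ?_
      refine List.IsInfix.trans ?_ (hzi.trans ?_)
      · obtain ⟨n', rfl⟩ : ∃ n', n = 3 + n' := ⟨n - 3, by omega⟩
        rw [List.replicate_add, List.flatten_append]
        exact (List.prefix_append _ _).isInfix
      · have e1 := List.take_append_drop 1 (xw a b R φ)
        have e2 := List.take_append_drop (21 * R - 1) (xw a b R φ')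
        refine ⟨(xw a b R φ).take 1, (xw a b R φ').drop (21 * R - 1), ?_⟩
        conv_rhs => rw [← e1, ← e2]
        simp only [List.append_assoc])
  rw [hSl] at h
  exact h

end Pool.Agent.Helper14.SK
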