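import Pool.Agent.Helper14.SK.Upper
import Pool.Agent.Helper14.SK.Tpl

/-!
# Strongly k-abelian powers: final statements
-/

set_option autoImplicit false

namespace Pool.Agent.Helper14.SK

open Pool.Agent.Helper18.SK

/-- The number of words of length `t` over an alphabet with `m` letters that have no factor which
is an `E`-th power. -/
noncomputable def powerFree (m E t : ℕ) : ℕ :=
  {w : List (Fin m) | w.length = t ∧ PFree E w}.ncard

theorem powerFree_eq (m E t : ℕ) (hE : 1 ≤ E) : powerFree m E t = (G (Fin m) E t).card := by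
  rw [powerFree, ← Set.ncard_coe_finset]
  congr 1
  ext w
  rw [Finset.mem_coe, mem_G hE]
  exact and_comm

theorem exists_greatest (m k n : ℕ) (hk : 1 ≤ k) (hn : 1 ≤ n) :
    ∃ L : ℕ, IsGreatest {ℓ | ∃ w : List (Fin m), w.length = ℓ ∧ Avoids k n w} L ∧
      L + 3 ≤ 2 * k + k ^ 2 * powerFree m n (2 * k - 2) * n ^ powerFree m n k ∧
      ∀ w : List (Fin m), Avoids k n w → w.length ≤ L := by
  classical
  set A := {ℓ | ∃ w : List (Fin m), w.length = ℓ ∧ Avoids k n w} with hA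
  have hne : A.Nonempty := by
    refine ⟨0, [], rfl, ?_⟩
    intro u hu hp
    exact hp.1 (List.eq_nil_of_infix_nil hu)
  have hup : ∀ ℓ ∈ A, ℓ + 3 ≤ 2 * k + k ^ 2 * powerFree m n (2 * k - 2) *
      n ^ powerFree m n k := by
    rintro ℓ ⟨w, rfl, hw⟩
    rw [powerFree_eq m n _ hn, powerFree_eq m n _ hn]
    exact up2 w hk hn hw
  have hbdd : BddAbove A := ⟨2 * k + k ^ 2 * powerFree m n (2 * k - 2) *
      n ^ powerFree m n k, fun ℓ hℓ => by
        have := hup ℓ hℓ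
        omega⟩
  have hL : sSup A ∈ A := Nat.sSup_mem hne hbdd
  exact ⟨sSup A, ⟨hL, fun ℓ hℓ => le_csSup hbdd hℓ⟩, hup _ hL,
    fun w hw => le_csSup hbdd ⟨w, rfl, hw⟩⟩

theorem low2 (m k n : ℕ) (hm : 2 ≤ m) (hn : 3 ≤ n) (hk : n ≤ k) :
    ∃ w : List (Fin m), Avoids k n w ∧
      k * (n - 1) ^ powerFree m (n - 2) (k - n) ≤ w.length + k := by
  obtain ⟨E, rfl⟩ : ∃ E, n = E + 2 := ⟨n - 2, by omega⟩
  rw [show E + 2 - 2 = E by omega, show E + 2 - 1 = E + 1 by omega,
    powerFree_eq m E _ (by omega)]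
  by_cases h0 : (G (Fin m) E (k - (E + 2))).card = 0
  · refine ⟨[], ?_, ?_⟩
    · intro u hu hp
      exact hp.1 (List.eq_nil_of_infix_nil hu)
    · rw [h0]
      simp
  have hab : (⟨0, by omega⟩ : Fin m) ≠ ⟨1, by omega⟩ := by
    intro h
    have := congrArg Fin.val h
    simp at this
  have h := mark_bound (α := Fin m) hab (k := k) (E := E) (t := k - (E + 2)) (by omega)
    (by omega) (G (Fin m) E (k - (E + 2))).toList (by
      intro y hy
      rw [Finset.mem_toList, mem_G (by omega)] at hy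
      exact hy) (Finset.nodup_toList _) (by
      intro h1
      apply h0
      rw [← Finset.length_toList, h1]
      rfl)
  rw [Finset.length_toList, show E + 2 + (k - (E + 2)) = k by omega] at h
  exact h

theorem beta_ok (m E : ℕ) (hm : 2 ≤ m) (hE : 5 ≤ E) :
    (1 : ℝ) ≤ (m : ℝ) - 2 / (m : ℝ) ^ (E - 2) ∧
      ((m : ℝ) - 2 / (m : ℝ) ^ (E - 2)) ^ E ≤
        (m : ℝ) * (((m : ℝ) - 2 / (m : ℝ) ^ (E - 2)) ^ (E - 1) - 1) := by
  obtain ⟨e, rfl⟩ : ∃ e, E = e + 2 := ⟨E - 2, by omega⟩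
  rw [show e + 2 - 2 = e by omega, show e + 2 - 1 = e + 1 by omega]
  have hm' : (2 : ℝ) ≤ m := by exact_mod_cast hm
  have hm0 : (0 : ℝ) < m := by linarith
  set M : ℝ := (m : ℝ) with hM
  have hpow : (4 : ℝ) * ((e : ℝ) + 1) ≤ M ^ (e + 1) := by
    have h1 : ∀ j : ℕ, (4 : ℝ) * ((j : ℝ) + 3 + 1) ≤ 2 ^ (j + 3 + 1) := by
      intro j
      induction j with
      | zero => norm_num
      | succ j ih =>
        push_cast
        rw [pow_succ]
        have : (0 : ℝ) ≤ j := by positivity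
        linarith
    have h2 := h1 (e - 3)
    rw [show e - 3 + 3 + 1 = e + 1 by omega] at h2
    rw [Nat.cast_sub (by omega)] at h2
    push_cast at h2
    calc (4 : ℝ) * ((e : ℝ) + 1) = 4 * ((e : ℝ) - 3 + 3 + 1) := by ring
      _ ≤ 2 ^ (e + 1) := h2
      _ ≤ M ^ (e + 1) := pow_le_pow_left₀ (by norm_num) hm' _
  set X := M ^ (e + 1) with hX
  have hX0 : 0 < X := by positivity
  have hXe : M ^ e * M = X := by rw [hX, pow_succ]
  have hMe0 : 0 < M ^ e := by positivity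
  -- `β = M (1 - 2 / X)`
  have hβ : M - 2 / M ^ e = M * (1 - 2 / X) := by
    rw [← hXe]
    field_simp
  have he3 : (3 : ℝ) ≤ e := by exact_mod_cast (by omega : 3 ≤ e)
  have hX16 : 16 ≤ X := by linarith
  have hx : 2 / X ≤ 1 / 8 := by
    rw [div_le_div_iff₀ hX0 (by norm_num)]
    linarith
  rw [hβ]
  set x := 2 / X with hxdef
  have hx0 : 0 < x := by positivity
  constructor
  · nlinarith
  · have hb : (1 : ℝ) / 2 ≤ (1 - x) ^ (e + 1) := by
      have h1 := one_add_mul_le_pow (a := -x) (by linarith) (e + 1)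
      have h2 : ((e + 1 : ℕ) : ℝ) * x ≤ 1 / 2 := by
        rw [hxdef]
        push_cast
        rw [mul_div_assoc', div_le_div_iff₀ hX0 (by norm_num)]
        linarith
      have h3 : (1 : ℝ) + -x = 1 - x := by ring
      rw [h3] at h1
      linarith
    have h5 : (M * (1 - x)) ^ (e + 1) = X * (1 - x) ^ (e + 1) := by
      rw [hX, mul_pow]
    have h4 : (M * (1 - x)) ^ (e + 2) = M * (1 - x) * (X * (1 - x) ^ (e + 1)) := by
      rw [← h5]
      ring
    rw [h4, h5]
    have hxX : x * X = 2 := by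
      rw [hxdef]
      field_simp
    -- `M * (1 - x) * Y ≤ M * (Y - 1)` iff `1 ≤ x Y`
    set Y := X * (1 - x) ^ (e + 1) with hY
    have h6 : 1 ≤ x * Y := by
      have : x * Y = (x * X) * (1 - x) ^ (e + 1) := by
        rw [hY]
        ring
      rw [this, hxX]
      linarith
    nlinarith

theorem powerFree_lower (m n t : ℕ) (hm : 2 ≤ m) (hn : 7 ≤ n) :
    ((m : ℝ) - 2 / (m : ℝ) ^ (n - 4)) ^ t ≤ (powerFree m (n - 2) t : ℝ) := by
  rw [powerFree_eq m _ _ (by omega)]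
  obtain ⟨h1, h2⟩ := beta_ok m (n - 2) hm (by omega)
  rw [show n - 2 - 2 = n - 4 by omega] at h1 h2
  refine pow_le_card (α := Fin m) (E := n - 2) (by omega) h1 ?_ t
  rw [Fintype.card_fin]
  exact h2

theorem low1 (m k n : ℕ) (hm : 2 ≤ m) (hn : 3 ≤ n) :
    ∃ w : List (Fin m), Avoids k n w ∧
      21 * (k / 21) * (n - 1) ^ (m ^ (k / 21)) ≤ w.length + 21 * (k / 21) := by
  by_cases hR : k / 21 = 0
  · refine ⟨[], ?_, ?_⟩
    · intro u hu hp
      exact hp.1 (List.eq_nil_of_infix_nil hu)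
    · rw [hR]
      simp
  have hab : (⟨0, by omega⟩ : Fin m) ≠ ⟨1, by omega⟩ := by
    intro h
    have := congrArg Fin.val h
    simp at this
  have h := tpl_bound (α := Fin m) hab (k := k) (n := n) (R := k / 21) hn (by omega) (by omega)
  rw [Fintype.card_fin] at h
  exact h

/-- The exponent of growth in terms of the numbers of power-free words. -/
theorem main2 (m k n : ℕ) (hm : 2 ≤ m) (hn : 3 ≤ n) (hk : n ≤ k) :
    ∃ L : ℕ, IsGreatest {ℓ | ∃ w : List (Fin m), w.length = ℓ ∧ Avoids k n w} L ∧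
      k * (n - 1) ^ powerFree m (n - 2) (k - n) ≤ L + k ∧
      L + 3 ≤ 2 * k + k ^ 2 * powerFree m n (2 * k - 2) * n ^ powerFree m n k ∧
      (7 ≤ n → ((m : ℝ) - 2 / (m : ℝ) ^ (n - 4)) ^ (k - n) ≤
        (powerFree m (n - 2) (k - n) : ℝ)) := by
  obtain ⟨L, h1, h2, h3⟩ := exists_greatest m k n (by omega) (by omega)
  obtain ⟨w, hw1, hw2⟩ := low2 m k n hm hn hk
  have h4 := h3 w hw1
  exact ⟨L, h1, by omega, h2, fun h7 => powerFree_lower m n (k - n) hm h7⟩

/-- Doubly exponential growth in `k`. -/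
theorem main1 (m k n : ℕ) (hm : 2 ≤ m) (hn : 3 ≤ n) (hk : 1 ≤ k) :
    ∃ L : ℕ, IsGreatest {ℓ | ∃ w : List (Fin m), w.length = ℓ ∧ Avoids k n w} L ∧
      21 * (k / 21) * (n - 1) ^ (m ^ (k / 21)) ≤ L + 21 * (k / 21) := by
  obtain ⟨L, h1, h2, h3⟩ := exists_greatest m k n hk (by omega)
  obtain ⟨w, hw1, hw2⟩ := low1 m k n hm hn
  have h4 := h3 w hw1
  exact ⟨L, h1, by omega⟩

end Pool.Agent.Helper14.SK
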