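import Pool.Agent.Helper14.SK.SqCode
import Pool.Agent.Helper14.SK.Final

/-!
# Strongly k-abelian powers: the growth in `k` for all alphabets and exponents
-/

set_option autoImplicit false

namespace Pool.Agent.Helper14.SK

open Pool.Agent.Helper18.SK

theorem unary_avoids {k n : ℕ} (hk : 1 ≤ k) (hn : 1 ≤ n) :
    Avoids k n (List.replicate (n - 1) (0 : Fin 1)) := by
  intro u hu hpow
  obtain ⟨hu0, z, hz, hK⟩ := hpow
  have h1 := length_eq_of_kEquiv hk hK
  have h2 := hu.length_le
  have h3 : 1 ≤ z.length := List.length_pos_iff.2 hz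
  have h4 : ((List.replicate n z).flatten).length = n * z.length := by simp
  rw [List.length_replicate] at h2
  have h5 : n * 1 ≤ n * z.length := Nat.mul_le_mul_left _ h3
  omega

theorem unary_le {k n : ℕ} (hn : 1 ≤ n) {w : List (Fin 1)} (h : Avoids k n w) :
    w.length + 1 ≤ n := by
  by_contra hcon
  refine pFree_of_avoids hn h List.infix_rfl [0] (by simp) ?_
  have h1 : (List.replicate n [(0 : Fin 1)]).flatten = List.replicate n 0 := by
    simp
  have h2 : w = List.replicate w.length 0 := by
    rw [List.eq_replicate_iff]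
    exact ⟨rfl, fun b _ => Subsingleton.elim _ _⟩
  rw [h1, h2]
  refine (List.prefix_iff_eq_take.2 ?_).isInfix
  rw [List.take_replicate, List.length_replicate, min_eq_left (by omega)]

theorem binary_avoids {k : ℕ} (hk : 1 ≤ k) : Avoids k 2 [(0 : Fin 2), 1, 0] := by
  intro u hu hpow
  obtain ⟨hu0, z, hz, hK⟩ := hpow
  have h1 := length_eq_of_kEquiv hk hK
  have h2 := hu.length_le
  have h3 : 1 ≤ z.length := List.length_pos_iff.2 hz
  have h4 : ((List.replicate 2 z).flatten).length = 2 * z.length := by
    rw [pow_two_flatten, List.length_append]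
    omega
  simp only [List.length_cons, List.length_nil] at h2
  obtain ⟨a, rfl⟩ : ∃ a, z = [a] := by
    apply List.length_eq_one_iff.1
    omega
  have hul : u.length = 2 := by omega
  obtain ⟨x, y, rfl⟩ := List.length_eq_two.1 hul
  have hxy : x ≠ y := by
    obtain ⟨s, t, h⟩ := hu
    have h5 := congrArg List.length h
    simp only [List.length_append, List.length_cons, List.length_nil] at h5
    match s, t, h, h5 with
    | [], [t], h, _ =>
      simp only [List.nil_append, List.cons_append, List.cons.injEq, and_true] at h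
      rw [h.1, h.2.1]
      decide
    | [s], [], h, _ =>
      simp only [List.append_nil, List.cons_append, List.nil_append, List.cons.injEq,
        and_true] at h
      rw [h.2.1, h.2.2]
      decide
    | [], [], _, h5 => simp at h5
    | [], _ :: _ :: _, _, h5 =>
      simp only [List.length_nil, List.length_cons] at h5
      omega
    | [_], _ :: _, _, h5 =>
      simp only [List.length_nil, List.length_cons] at h5
      omega
    | _ :: _ :: _, _, _, h5 =>
      simp only [List.length_cons] at h5
      omega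
  have h6 := hK [a] (by simp) (by simpa using hk)
  have h7 : (List.replicate 2 [a]).flatten = [a, a] := by simp [List.replicate_succ]
  rw [h7] at h6
  simp only [occ_cons, occ_nil (List.cons_ne_nil a []), List.cons_prefix_cons, List.nil_prefix,
    and_true, if_true] at h6
  by_cases hx : a = x
  · by_cases hy : a = y
    · exact hxy (hx.symm.trans hy)
    · rw [if_pos hx, if_neg hy] at h6
      omega
  · rw [if_neg hx] at h6
    split_ifs at h6 <;> omega

theorem binary_le {k : ℕ} {w : List (Fin 2)} (h : Avoids k 2 w) : w.length ≤ 3 := by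
  have hp : PFree 2 w := pFree_of_avoids (by omega) h List.infix_rfl
  match w, hp with
  | a :: b :: c :: d :: w, hp =>
    exfalso
    by_cases h1 : a = b
    · exact hp [a] (by simp) ⟨[], c :: d :: w, by simp [List.replicate_succ, h1]⟩
    by_cases h2 : b = c
    · exact hp [b] (by simp) ⟨[a], d :: w, by simp [List.replicate_succ, h2]⟩
    by_cases h3 : c = d
    · exact hp [c] (by simp) ⟨[a, b], w, by simp [List.replicate_succ, h3]⟩
    have h4 : a = c ∧ b = d := by
      have key : ∀ a b c d : Fin 2, ¬ a = b → ¬ b = c → ¬ c = d → a = c ∧ b = d := by decide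
      exact key a b c d h1 h2 h3
    exact hp [a, b] (by simp) ⟨[], w, by simp [List.replicate_succ, h4.1, h4.2]⟩
  | [], _ => simp
  | [_], _ => simp
  | [_, _], _ => simp
  | [_, _, _], _ => simp

theorem low3 (m k : ℕ) (hm : 3 ≤ m) :
    ∃ w : List (Fin m), Avoids k 2 w ∧
      44 * (k / 33) * 2 ^ (2 ^ (k / 33 - 1)) ≤ w.length + 44 * (k / 33) := by
  by_cases hR : k / 33 = 0
  · refine ⟨[], ?_, ?_⟩
    · intro u hu hp
      exact hp.1 (List.eq_nil_of_infix_nil hu)
    · rw [hR]
      simp
  obtain ⟨ρ, hρ⟩ : ∃ ρ, k / 33 = ρ + 1 := ⟨k / 33 - 1, by omega⟩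
  have h := sq_bound (α := Fin m) (ψ := fun x => ⟨x % m, Nat.mod_lt _ (by omega)⟩)
    (by
      intro x y hx hy h
      simp only [Fin.mk.injEq] at h
      rw [Nat.mod_eq_of_lt (by omega), Nat.mod_eq_of_lt (by omega)] at h
      exact h) (k := k) (n := 2) (ρ := ρ) (by omega) (by omega)
  rw [hρ, Nat.add_sub_cancel]
  exact h

/-- The growth in `k`. -/
theorem main4 (m k n : ℕ) (hm : 1 ≤ m) (hk : 1 ≤ k) (hn : 2 ≤ n) :
    ∃ L : ℕ, IsGreatest {ℓ | ∃ w : List (Fin m), w.length = ℓ ∧ Avoids k n w} L ∧
      (m = 1 → L + 1 = n) ∧ (m = 2 → n = 2 → L = 3) ∧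
      (3 ≤ m → n = 2 → 44 * (k / 33) * 2 ^ (2 ^ (k / 33 - 1)) ≤ L + 44 * (k / 33)) ∧
      (2 ≤ m → 3 ≤ n → 21 * (k / 21) * (n - 1) ^ (m ^ (k / 21)) ≤ L + 21 * (k / 21)) := by
  obtain ⟨L, h1, -, h3⟩ := exists_greatest m k n hk (by omega)
  refine ⟨L, h1, ?_, ?_, ?_, ?_⟩
  · rintro rfl
    have h4 := h3 _ (unary_avoids hk (by omega))
    rw [List.length_replicate] at h4
    obtain ⟨w, hw, hav⟩ := h1.1
    have h5 := unary_le (by omega) hav
    omega
  · rintro rfl rfl
    have h4 := h3 _ (binary_avoids hk)
    simp only [List.length_cons, List.length_nil] at h4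
    obtain ⟨w, hw, hav⟩ := h1.1
    have h5 := binary_le hav
    omega
  · rintro hm3 rfl
    obtain ⟨w, hw1, hw2⟩ := low3 m k hm3
    have h4 := h3 w hw1
    omega
  · intro hm2 hn3
    obtain ⟨w, hw1, hw2⟩ := low1 m k n hm2 hn3
    have h4 := h3 w hw1
    omega

end Pool.Agent.Helper14.SK
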