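import Pool.Agent.Helper68.SK.Goals

/-!
Project SK (MP_2b0227_gt), packet SK-IS.
-/

set_option linter.unusedSectionVars false
set_option linter.unusedSimpArgs false

namespace Pool.Agent.Helper14.SK

open Finset Pool.Agent.Helper68.SK

section

variable {D : Type} [Fintype D] [DecidableEq D]

theorem dl_self (a : D) : (δ a : D → ℤ) a = 1 := by simp [δ]

theorem dl_ne {a b : D} (h : b ≠ a) : (δ a : D → ℤ) b = 0 := by simp [δ, h]

theorem dl_nonneg (a b : D) : 0 ≤ (δ a : D → ℤ) b := by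
  by_cases h : b = a
  · subst h; rw [dl_self]; norm_num
  · rw [dl_ne h]

/-- the first case of REP -/
theorem repA {S : Set (D → ℤ)} (hS : Exch S) {β γ : D → ℤ} {u d d' : D}
    (h : ∀ y, y ≠ u → γ y ≤ β y) (h1 : β + δ d' + δ d ∈ S) (h2 : γ + δ u + δ d' ∈ S)
    (hd : d ≠ u) : ∃ d'', β + δ u + δ d'' ∈ S := by
  obtain ⟨y, hy, hyS⟩ := hS _ h1 _ h2 d (by
    simp only [Pi.add_apply]
    rw [dl_ne hd, dl_self]
    have := h d hd
    linarith)
  by_cases hyu : y = u
  · subst hyu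
    refine ⟨d', ?_⟩
    have e : β + δ y + δ d' = β + δ d' + δ d - δ d + δ y := by abel
    rw [e]
    exact hyS
  · exfalso
    simp only [Pi.add_apply] at hy
    rw [dl_ne hyu] at hy
    have := h y hyu
    have := dl_nonneg d y
    linarith

theorem rep {S : Set (D → ℤ)} (hS : Exch S) (β γ : D → ℤ) (u c d d' : D)
    (h : ∀ y, y ≠ u → γ y ≤ β y) (h1 : β + δ c + δ d ∈ S) (h2 : γ + δ u + δ d' ∈ S) :
    ∃ d'', β + δ u + δ d'' ∈ S := by
  by_cases hcu : c = u
  · subst hcu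
    exact ⟨d, h1⟩
  by_cases hdu : d = u
  · subst hdu
    refine ⟨c, ?_⟩
    have e : β + δ d + δ c = β + δ c + δ d := by abel
    rw [e]
    exact h1
  by_cases h3 : d' = c
  · subst h3
    exact repA hS h h1 h2 hdu
  by_cases h4 : d' = d
  · subst h4
    refine repA hS h (d := c) ?_ h2 hcu
    have e : β + δ d' + δ c = β + δ c + δ d' := by abel
    rw [e]
    exact h1
  obtain ⟨y, hy, hyS⟩ := hS _ h1 _ h2 c (by
    simp only [Pi.add_apply]
    rw [dl_ne hcu, dl_self, dl_ne (fun e => h3 e.symm)]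
    have := h c hcu
    have := dl_nonneg d c
    linarith)
  by_cases hyu : y = u
  · subst hyu
    refine ⟨d, ?_⟩
    have e : β + δ y + δ d = β + δ c + δ d - δ c + δ y := by abel
    rw [e]
    exact hyS
  · have hyd : y = d' := by
      by_contra hne
      simp only [Pi.add_apply] at hy
      rw [dl_ne hyu, dl_ne hne] at hy
      have := h y hyu
      have := dl_nonneg d y
      have := dl_nonneg c y
      linarith
    subst hyd
    refine repA hS h (d := d) ?_ h2 hdu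
    have e : β + δ y + δ d = β + δ c + δ d - δ c + δ y := by abel
    rw [e]
    exact hyS

theorem bt (x y : D) (β₀ : D → ℤ) (k : ℤ) (z : D) :
    (β₀ + k • (δ x - δ y)) z = β₀ z + k * ((δ x : D → ℤ) z - (δ y : D → ℤ) z) := by
  simp [Pi.add_apply, Pi.smul_apply, Pi.sub_apply]

theorem sh (x y : D) (β₀ : D → ℤ) (k : ℤ) (v : D → ℤ) :
    β₀ + (k + 1) • (δ x - δ y) + δ y + v = β₀ + k • (δ x - δ y) + δ x + v := by
  rw [add_smul, one_smul]
  abel

end

/-- packet IS -/
theorem goalIS : GoalIS := by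
  intro D _ _ S hS
  refine ⟨fun β γ u c d d' h h1 h2 => rep hS β γ u c d d' h h1 h2, ?_⟩
  intro β₀ x y p i j m hxy hp hi hj him hmj
  have L1 : ∀ i p : ℤ, (∃ c d, β₀ + i • (δ x - δ y) + δ c + δ d ∈ S) →
      (∃ d, β₀ + p • (δ x - δ y) + δ x + δ d ∈ S) → i ≤ p →
      ∃ d, β₀ + i • (δ x - δ y) + δ x + δ d ∈ S := by
    rintro i p ⟨c, d, h1⟩ ⟨d', h2⟩ hip
    refine rep hS _ _ x c d d' (fun z hz => ?_) h1 h2
    rw [bt, bt, dl_ne hz]
    have := dl_nonneg y z
    nlinarith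
  have L2 : ∀ j p : ℤ, (∃ c d, β₀ + j • (δ x - δ y) + δ c + δ d ∈ S) →
      (∃ d, β₀ + p • (δ x - δ y) + δ x + δ d ∈ S) → p + 1 ≤ j →
      ∃ d, β₀ + (j - 1) • (δ x - δ y) + δ x + δ d ∈ S := by
    rintro j p ⟨c, d, h1⟩ ⟨d', h2⟩ hpj
    rw [← sh] at h2
    have hz : ∀ z, z ≠ y → (β₀ + (p + 1) • (δ x - δ y)) z ≤ (β₀ + j • (δ x - δ y)) z := by
      intro z hz
      rw [bt, bt, dl_ne hz]
      have := dl_nonneg x z
      nlinarith
    obtain ⟨d'', h3⟩ := rep hS _ _ y c d d' hz h1 h2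
    refine ⟨d'', ?_⟩
    rw [← sh, sub_add_cancel]
    exact h3
  -- the case `m ≤ p`
  have main : ∀ p : ℤ, (∃ d, β₀ + p • (δ x - δ y) + δ x + δ d ∈ S) → m ≤ p →
      ∃ d, β₀ + m • (δ x - δ y) + δ x + δ d ∈ S := by
    intro p hp hmp
    have h0 := L1 i p hi hp (him.trans hmp)
    have key : ∀ k : ℤ, i ≤ k → k ≤ p → ∃ d, β₀ + k • (δ x - δ y) + δ x + δ d ∈ S := by
      intro k hk
      induction k, hk using Int.leInduction with
      | base => intro _; exact h0
      | succ k hk ih =>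
        intro hkp
        obtain ⟨d, hd⟩ := ih (by omega)
        refine L1 (k + 1) p ⟨y, d, ?_⟩ hp hkp
        rw [sh]
        exact hd
    exact key m him hmp
  rcases le_or_gt m p with h | h
  · exact main p hp h
  · exact main (j - 1) (L2 j p hj hp (by omega)) (by omega)

end Pool.Agent.Helper14.SK
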