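import Pool.Agent.Helper14.SK.Code

/-!
# Strongly k-abelian powers: marked power-free words form a code without overlaps
-/

set_option autoImplicit false

namespace Pool.Agent.Helper14.SK

open Pool.Agent.Helper18.SK

variable {α : Type} [DecidableEq α]

/-- `w` has no factor which is an `E`-th power. -/
def PFree (E : ℕ) (w : List α) : Prop :=
  ∀ z : List α, z ≠ [] → ¬ (List.replicate E z).flatten <:+: w

omit [DecidableEq α] in
theorem infix_middle {L y R A w B : List α} (h : L ++ y ++ R = A ++ w ++ B)
    (h1 : L.length ≤ A.length) (h2 : R.length ≤ B.length) : w <:+: y := by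
  have hlen := congrArg List.length h
  simp only [List.length_append] at hlen
  rw [List.append_assoc, List.append_assoc] at h
  have e1 : A = L ++ A.drop L.length := by
    have h3 : A.take L.length = L := by
      have h4 := congrArg (List.take L.length) h
      rw [List.take_left' rfl, List.take_append_of_le_length h1] at h4
      exact h4.symm
    conv_lhs => rw [← List.take_append_drop L.length A, h3]
  rw [e1, List.append_assoc, List.append_cancel_left_eq] at h
  set A' := A.drop L.length with hA'
  have hA'l : A'.length = A.length - L.length := by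
    rw [hA', List.length_drop]
  -- `y ++ R = A' ++ (w ++ B)`
  have e2 : y = A' ++ (w ++ B.take (B.length - R.length)) := by
    have h4 := congrArg (List.take y.length) h
    rw [List.take_left' rfl] at h4
    rw [List.take_append, List.take_append, List.take_of_length_le (by omega),
      List.take_of_length_le (by omega)] at h4
    rw [h4]
    congr 3
    omega
  exact ⟨A', B.take (B.length - R.length), by rw [List.append_assoc]; exact e2.symm⟩

section

variable {a b : α}

omit [DecidableEq α] in
/-- A long block of `a` in `a^(E-1) b M` starts after `b`. -/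
theorem half_zero (hab : a ≠ b) {E q : ℕ} (hE : 1 ≤ E) (hq : E ≤ q) {M A B : List α}
    (h : List.replicate (E - 1) a ++ b :: M = A ++ List.replicate q a ++ B) : E ≤ A.length := by
  by_contra hc
  push Not at hc
  have h1 := congrArg (fun l => l[E - 1]?) h
  beta_reduce at h1
  rw [List.getElem?_append_right (by simp), List.length_replicate, Nat.sub_self] at h1
  rw [List.getElem?_append_left (by simp; omega), List.getElem?_append_right (by omega),
    List.getElem?_replicate_of_lt (by omega)] at h1
  simp only [List.getElem?_cons_zero, Option.some.injEq] at h1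
  exact hab h1.symm

omit [DecidableEq α] in
theorem half_pow (hab : a ≠ b) {E n : ℕ} (hE : 1 ≤ E) (hn : E ≤ n) {M A B z : List α}
    (hz : z ≠ [])
    (h : List.replicate (E - 1) a ++ b :: M = A ++ (List.replicate n z).flatten ++ B) :
    E ≤ A.length + z.length := by
  by_contra hc
  push Not at hc
  have hzl : 1 ≤ z.length := List.length_pos_iff.2 hz
  obtain ⟨n', rfl⟩ : ∃ n', n = n' + 1 := ⟨n - 1, by omega⟩
  have hz0 : z = List.replicate z.length a := by
    have h1 := congrArg (List.take (A.length + z.length)) h
    rw [List.take_append_of_le_length (by simp; omega), List.take_replicate,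
      List.replicate_succ, List.flatten_cons, List.append_assoc, List.take_add,
      List.take_left' rfl, List.drop_left' rfl, List.append_assoc, List.take_left' rfl] at h1
    rw [List.eq_replicate_iff]
    refine ⟨rfl, fun x hx => ?_⟩
    have h2 : x ∈ A ++ z := List.mem_append_right _ hx
    rw [← h1] at h2
    exact List.eq_of_mem_replicate h2
  have h3 : (List.replicate (n' + 1) z).flatten = List.replicate ((n' + 1) * z.length) a := by
    rw [List.eq_replicate_iff]
    refine ⟨by simp, fun x hx => ?_⟩
    rw [List.mem_flatten] at hx
    obtain ⟨w, hw, hx⟩ := hx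
    rw [List.eq_of_mem_replicate hw, hz0] at hx
    exact List.eq_of_mem_replicate hx
  rw [h3] at h
  have h4 : E ≤ (n' + 1) * z.length := hn.trans (Nat.le_mul_of_pos_right _ hzl)
  have h5 := half_zero hab hE h4 h
  omega

/-- The word `a^(E-1) b y b a^(E-1)`. -/
def VV (a b : α) (E : ℕ) (y : List α) : List α :=
  List.replicate (E - 1) a ++ b :: (y ++ b :: List.replicate (E - 1) a)

omit [DecidableEq α] in
theorem VV_reverse (E : ℕ) (y : List α) : (VV a b E y).reverse = VV a b E y.reverse := by
  simp [VV, List.reverse_append]

omit [DecidableEq α] in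
theorem VV_eq (E : ℕ) (y : List α) :
    VV a b E y = (List.replicate (E - 1) a ++ [b]) ++ y ++ (b :: List.replicate (E - 1) a) := by
  simp [VV]

omit [DecidableEq α] in
theorem VV_no_pow (hab : a ≠ b) {E : ℕ} (hE : 1 ≤ E) {y : List α} (hy : PFree E y)
    (z : List α) (hz : z ≠ []) : ¬ (List.replicate (E + 2) z).flatten <:+: VV a b E y := by
  rintro ⟨A, B, h⟩
  have h1 : E ≤ A.length + z.length := half_pow hab hE (n := E + 2) (by omega) hz h.symm
  have h2 : E ≤ B.length + z.length := by
    have h3 := congrArg List.reverse h
    rw [VV_reverse, List.reverse_append, List.reverse_append, List.reverse_flatten,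
      List.map_replicate, List.reverse_replicate, ← List.append_assoc] at h3
    have h4 := half_pow hab hE (n := E + 2) (by omega) (z := z.reverse) (by simpa using hz)
      h3.symm
    simpa using h4
  have h5 : (List.replicate (E + 2) z).flatten = z ++ (List.replicate E z).flatten ++ z := by
    rw [List.replicate_succ, List.replicate_succ']
    simp
  rw [h5, VV_eq] at h
  refine hy z hz (infix_middle (A := A ++ z) (B := z ++ B)
    (L := List.replicate (E - 1) a ++ [b]) (R := b :: List.replicate (E - 1) a) ?_ ?_ ?_)
  · rw [← h]
    simp
  · simp
    omega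
  · simp
    omega

omit [DecidableEq α] in
theorem VV_no_zero (hab : a ≠ b) {E : ℕ} (hE : 1 ≤ E) {y : List α} (hy : PFree E y) :
    ¬ List.replicate E a <:+: VV a b E y := by
  rintro ⟨A, B, h⟩
  have h1 : E ≤ A.length := half_zero hab hE (q := E) le_rfl h.symm
  have h2 : E ≤ B.length := by
    have h3 := congrArg List.reverse h
    rw [VV_reverse, List.reverse_append, List.reverse_append, List.reverse_replicate,
      ← List.append_assoc] at h3
    have h4 := half_zero hab hE (q := E) le_rfl h3.symm
    simpa using h4
  rw [VV_eq] at h
  have h3 := infix_middle (A := A) (B := B) (w := List.replicate E a)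
    (L := List.replicate (E - 1) a ++ [b]) (R := b :: List.replicate (E - 1) a) h.symm
    (by simp; omega) (by simp; omega)
  refine hy [a] (by simp) ?_
  have h4 : (List.replicate E [a]).flatten = List.replicate E a := by
    rw [List.eq_replicate_iff]
    refine ⟨by simp, fun x hx => ?_⟩
    rw [List.mem_flatten] at hx
    obtain ⟨w, hw, hx⟩ := hx
    rw [List.eq_of_mem_replicate hw] at hx
    simpa using hx
  rw [h4]
  exact h3

/-- The marked word `a^E b y b`. -/
def mark (a b : α) (E : ℕ) (y : List α) : List α :=
  List.replicate E a ++ b :: (y ++ [b])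

omit [DecidableEq α] in
theorem mark_length (E : ℕ) (y : List α) : (mark a b E y).length = E + 2 + y.length := by
  simp [mark]
  omega

omit [DecidableEq α] in
theorem mark_drop_one {E : ℕ} (hE : 1 ≤ E) (y : List α) :
    (mark a b E y).drop 1 = List.replicate (E - 1) a ++ b :: (y ++ [b]) := by
  obtain ⟨E', rfl⟩ : ∃ E', E = E' + 1 := ⟨E - 1, by omega⟩
  simp [mark, List.replicate_succ]

omit [DecidableEq α] in
theorem mark_take (E : ℕ) (y : List α) :
    (mark a b E y).take (E + 2 + y.length - 1) = List.replicate E a ++ b :: y := by
  have h : mark a b E y = (List.replicate E a ++ b :: y) ++ [b] := by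
    simp [mark]
  rw [h, List.take_left']
  simp
  omega

omit [DecidableEq α] in
theorem prefix_VV (E : ℕ) (y : List α) :
    List.replicate (E - 1) a ++ b :: (y ++ [b]) <+: VV a b E y := by
  refine ⟨List.replicate (E - 1) a, ?_⟩
  simp [VV]

omit [DecidableEq α] in
theorem pow_drop_take (n : ℕ) (z : List α) :
    (List.replicate n z).flatten.drop z.length
      = (List.replicate n z).flatten.take ((List.replicate n z).flatten.length - z.length) := by
  cases n with
  | zero => simp
  | succ n =>
    have h1 : (List.replicate (n + 1) z).flatten = z ++ (List.replicate n z).flatten := by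
      rw [List.replicate_succ, List.flatten_cons]
    have h2 : (List.replicate (n + 1) z).flatten = (List.replicate n z).flatten ++ z := by
      rw [List.replicate_succ']
      simp
    conv_lhs => rw [h1, List.drop_left' rfl]
    rw [h2, List.take_left']
    simp

omit [DecidableEq α] in
theorem mark_pow (hab : a ≠ b) {E : ℕ} (hE : 1 ≤ E) {y y' : List α} (hy : PFree E y)
    (hy' : PFree E y') (z : List α) (hz : z ≠ []) :
    ¬ (List.replicate (E + 2) z).flatten <:+:
      (List.replicate (E - 1) a ++ b :: (y ++ [b])) ++ (List.replicate E a ++ b :: y') := by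
  rintro ⟨A, B, h⟩
  set u := (List.replicate (E + 2) z).flatten with hu
  set X := List.replicate (E - 1) a ++ b :: (y ++ [b]) with hX
  have hzl : 1 ≤ z.length := List.length_pos_iff.2 hz
  have hul : u.length = (E + 2) * z.length := by
    rw [hu]
    simp
  have hrep : List.replicate E a = a :: List.replicate (E - 1) a := by
    obtain ⟨E', rfl⟩ : ∃ E', E = E' + 1 := ⟨E - 1, by omega⟩
    simp [List.replicate_succ]
  have hrep' : List.replicate E a = List.replicate (E - 1) a ++ [a] := by
    obtain ⟨E', rfl⟩ : ∃ E', E = E' + 1 := ⟨E - 1, by omega⟩
    simp [List.replicate_succ']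
  have hXV : X ++ List.replicate (E - 1) a = VV a b E y := by
    simp [VV, hX]
  have hpre' : List.replicate (E - 1) a ++ b :: y' <+: VV a b E y' := by
    refine ⟨b :: List.replicate (E - 1) a, ?_⟩
    simp [VV]
  have hnp := VV_no_pow hab hE hy z hz
  have hnp' := VV_no_pow hab hE hy' z hz
  have hnz := VV_no_zero hab hE hy
  have hnz' := VV_no_zero hab hE hy'
  rw [← hu] at hnp hnp'
  by_cases c1 : X.length + 1 ≤ A.length
  · -- inside the second word
    have h1 : A ++ u ++ B = (X ++ [a]) ++ (List.replicate (E - 1) a ++ b :: y') := by
      rw [h, hrep]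
      simp
    apply hnp'
    refine List.IsInfix.trans ?_ hpre'.isInfix
    rw [List.append_assoc] at h1
    set L := X ++ [a] with hL
    have hLl : L.length = X.length + 1 := by
      rw [hL, List.length_append]
      rfl
    have h2 := congrArg (List.drop L.length) h1
    rw [List.drop_append_of_le_length (by omega), List.drop_left' rfl] at h2
    exact ⟨A.drop L.length, B, by rw [List.append_assoc]; exact h2⟩
  by_cases c2 : A.length + u.length ≤ X.length + (E - 1)
  · -- inside the first word and the zeros
    have h1 : A ++ u ++ B = (X ++ List.replicate (E - 1) a) ++ (a :: b :: y') := by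
      rw [h, hrep']
      simp
    apply hnp
    rw [← hXV]
    have h2 := congrArg (List.take (X ++ List.replicate (E - 1) a).length) h1
    rw [List.take_left' rfl, List.take_append, List.take_of_length_le (by simp; omega)] at h2
    exact ⟨A, _, h2⟩
  push Not at c1 c2
  -- the zeros are inside `u`
  have hAX : A.length ≤ X.length := by omega
  obtain ⟨u1, hu1⟩ : ∃ u1, X = A ++ u1 := by
    refine ⟨X.drop A.length, ?_⟩
    have h1 := congrArg (List.take A.length) h
    rw [List.append_assoc, List.take_left' rfl, List.take_append_of_le_length hAX] at h1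
    conv_lhs => rw [← List.take_append_drop A.length X, ← h1]
  rw [hu1, List.append_assoc, List.append_assoc, List.append_cancel_left_eq] at h
  have hXl : X.length = A.length + u1.length := by rw [hu1, List.length_append]
  obtain ⟨u2, hu2⟩ : ∃ u2, u = u1 ++ (List.replicate E a ++ u2) := by
    have h1 : u1 ++ List.replicate E a <+: u ++ B := ⟨b :: y', by rw [h, List.append_assoc]⟩
    obtain ⟨u2, hu2⟩ := List.prefix_of_prefix_length_le h1 (List.prefix_append u B) (by
      rw [List.length_append, List.length_replicate]
      omega)
    exact ⟨u2, by rw [← hu2, List.append_assoc]⟩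
  have hul2 : u.length = u1.length + (E + u2.length) := by
    rw [hu2]
    simp
  have hper : u.drop z.length = u.take (u.length - z.length) := by
    rw [hu]
    exact pow_drop_take (E + 2) z
  have hE2 : (E + 2) * z.length = E * z.length + 2 * z.length := by ring
  have hEz : E ≤ E * z.length := Nat.le_mul_of_pos_right _ hzl
  by_cases c3 : z.length ≤ u1.length
  · apply hnz
    have h1 : A ++ (u1.drop z.length ++ List.replicate E a) <+: X ++ List.replicate (E - 1) a := by
      have h2 : u1.drop z.length ++ List.replicate E a <+: u := by
        have h3 : u1.drop z.length ++ List.replicate E a <+: u.drop z.length := by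
          refine ⟨u2, ?_⟩
          conv_rhs => rw [hu2, List.drop_append_of_le_length c3]
          rw [List.append_assoc]
        rw [hper] at h3
        exact h3.trans (List.take_prefix _ _)
      have h4 : A ++ (u1.drop z.length ++ List.replicate E a) <+:
          X ++ (List.replicate E a ++ b :: y') := by
        rw [hu1, List.append_assoc, List.prefix_append_right_inj, ← h]
        exact h2.trans (List.prefix_append _ _)
      have h5 : X ++ (List.replicate E a ++ b :: y')
          = (X ++ List.replicate (E - 1) a) ++ (a :: b :: y') := by
        rw [hrep']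
        simp
      rw [h5] at h4
      refine List.prefix_of_prefix_length_le h4 (List.prefix_append _ _) ?_
      simp
      omega
    rw [← hXV]
    refine List.IsInfix.trans ?_ h1.isInfix
    exact ⟨A ++ u1.drop z.length, [], by simp⟩
  · push Not at c3
    apply hnz'
    have h1 : List.replicate E a <+: u.drop (u1.length + z.length) := by
      have h2 : List.replicate E a <+: (u.take (u.length - z.length)).drop u1.length := by
        rw [List.drop_take, hu2, List.drop_left' rfl, ← hu2]
        rw [List.prefix_take_iff]
        refine ⟨List.prefix_append _ _, ?_⟩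
        rw [List.length_replicate]
        omega
      rw [← hper, List.drop_drop] at h2
      rwa [add_comm] at h2
    have h3 : u.drop (u1.length + z.length) <:+ List.replicate (E - 1) a ++ u2 := by
      have h4 : u.drop (u1.length + 1) = List.replicate (E - 1) a ++ u2 := by
        rw [← List.drop_drop, hu2, List.drop_left' rfl, hrep]
        simp
      rw [← h4, show u1.length + z.length = (u1.length + 1) + (z.length - 1) by omega,
        ← List.drop_drop]
      exact List.drop_suffix _ _
    have h5 : u2 <+: b :: y' := by
      rw [hu2, List.append_assoc, List.append_cancel_left_eq, List.append_assoc,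
        List.append_cancel_left_eq] at h
      exact ⟨B, h⟩
    refine (h1.isInfix.trans h3.isInfix).trans (List.IsInfix.trans ?_ hpre'.isInfix)
    obtain ⟨t, ht⟩ := h5
    exact ⟨[], t, by rw [List.nil_append, List.append_assoc, ht]⟩

omit [DecidableEq α] in
theorem mark_nonOverlap (hab : a ≠ b) {E t : ℕ} (hE : 1 ≤ E) (Y : List (List α))
    (hY : ∀ y ∈ Y, PFree E y ∧ y.length = t) :
    NonOverlap (E + 2 + t) (Y.map (mark a b E)) := by
  constructor
  · intro x hx
    rw [List.mem_map] at hx
    obtain ⟨y, hy, rfl⟩ := hx
    rw [mark_length, (hY y hy).2]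
  · intro x hx x' hx' h h1 h2 he
    rw [List.mem_map] at hx hx'
    obtain ⟨y, hy, rfl⟩ := hx
    obtain ⟨y', hy', rfl⟩ := hx'
    obtain ⟨hp, hl⟩ := hY y hy
    obtain ⟨hp', hl'⟩ := hY y' hy'
    by_cases c : h ≤ E
    · have e1 : (mark a b E y).take h = List.replicate h a := by
        rw [mark, List.take_append_of_le_length (by simpa using c), List.take_replicate,
          min_eq_left c]
      have e2 : mark a b E y' = (List.replicate E a ++ b :: y') ++ [b] := by simp [mark]
      have e3 : b ∈ (mark a b E y').drop (E + 2 + t - h) := by
        rw [e2, List.drop_append_of_le_length (by simp; omega)]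
        simp
      rw [← he, e1] at e3
      exact hab (List.eq_of_mem_replicate e3).symm
    · push Not at c
      have e1 : List.replicate E a <+: (mark a b E y).take h := by
        rw [List.prefix_take_iff]
        refine ⟨⟨b :: (y ++ [b]), rfl⟩, ?_⟩
        simpa using c.le
      rw [he] at e1
      apply VV_no_zero hab hE hp'
      refine e1.isInfix.trans (List.IsInfix.trans ?_ (prefix_VV E y').isInfix)
      rw [← mark_drop_one hE, show E + 2 + t - h = 1 + (E + 2 + t - h - 1) by omega,
        ← List.drop_drop]
      exact (List.drop_suffix _ _).isInfix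

/-- The lower bound from a set `Y` of `E`-power-free words of length `t`. -/
theorem mark_bound [Fintype α] (hab : a ≠ b) {k E t : ℕ} (hE : 1 ≤ E) (hk : E + 2 + t ≤ k)
    (Y : List (List α)) (hY : ∀ y ∈ Y, PFree E y ∧ y.length = t) (hnd : Y.Nodup)
    (hY0 : Y ≠ []) :
    ∃ w : List α, Avoids k (E + 2) w ∧
      (E + 2 + t) * (E + 1) ^ Y.length ≤ w.length + (E + 2 + t) := by
  have hinj : Function.Injective (mark a b E) := by
    intro y y' h
    rw [mark, mark, List.append_cancel_left_eq, List.cons.injEq] at h
    exact List.append_cancel_right h.2
  have h := code_bound (k := k) (n := E + 2) (ℓ := E + 2 + t) (S := Y.map (mark a b E))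
    (by omega) hk (by omega) (mark_nonOverlap hab hE Y hY) (hnd.map hinj) (by simpa using hY0) (by
      intro x hx x' hx' z hz
      rw [List.mem_map] at hx hx'
      obtain ⟨y, hy, rfl⟩ := hx
      obtain ⟨y', hy', rfl⟩ := hx'
      obtain ⟨hp, hl⟩ := hY y hy
      obtain ⟨hp', hl'⟩ := hY y' hy'
      have h1 := mark_take (a := a) (b := b) E y'
      rw [hl'] at h1
      rw [mark_drop_one hE, h1]
      exact mark_pow hab hE hp hp' z hz)
  rw [List.length_map] at h
  exact h

end

end Pool.Agent.Helper14.SK
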