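import Pool.Agent.Helper14.SK.Block2

/-!
# Strongly k-abelian powers: sequences of pairs
-/

set_option autoImplicit false

namespace Pool.Agent.Helper14.SK

open Pool.Agent.Helper18.SK

variable {β γ : Type} [DecidableEq β] [DecidableEq γ]

/-- The pair of a symbol. -/
def blk (A B : β → γ) (c : β) : List γ := [A c, B c]

/-- The sequence of pairs. -/
def pairs (A B : β → γ) (Z : List β) : List γ := (Z.map (blk A B)).flatten

theorem count_pairs_left {A B : β → γ} (hA : Function.Injective A) (hAB : ∀ c d, A c ≠ B d)
    (Z : List β) (c : β) : (pairs A B Z).count (A c) = Z.count c := by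
  induction Z with
  | nil => rfl
  | cons d Z ih =>
    rw [pairs, List.map_cons, List.flatten_cons, List.count_append, List.count_cons]
    rw [pairs] at ih
    rw [ih, blk, List.count_cons, List.count_cons, List.count_nil]
    have h1 : (B d == A c) = false := by
      rw [beq_eq_false_iff_ne]
      exact (hAB c d).symm
    rw [h1]
    by_cases h : d = c
    · subst h
      simp
      omega
    · have h2 : (A d == A c) = false := by
        rw [beq_eq_false_iff_ne]
        exact fun h' => h (hA h')
      have h3 : (d == c) = false := by
        rw [beq_eq_false_iff_ne]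
        exact h
      rw [h2, h3]
      simp

theorem count_pairs_right {A B : β → γ} (hB : Function.Injective B) (hAB : ∀ c d, A c ≠ B d)
    (Z : List β) (c : β) : (pairs A B Z).count (B c) = Z.count c := by
  induction Z with
  | nil => rfl
  | cons d Z ih =>
    rw [pairs, List.map_cons, List.flatten_cons, List.count_append, List.count_cons]
    rw [pairs] at ih
    rw [ih, blk, List.count_cons, List.count_cons, List.count_nil]
    have h1 : (A d == B c) = false := by
      rw [beq_eq_false_iff_ne]
      exact hAB d c
    rw [h1]
    by_cases h : d = c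
    · subst h
      simp
      omega
    · have h2 : (B d == B c) = false := by
        rw [beq_eq_false_iff_ne]
        exact fun h' => h (hB h')
      have h3 : (d == c) = false := by
        rw [beq_eq_false_iff_ne]
        exact h
      rw [h2, h3]
      simp

omit [DecidableEq β] [DecidableEq γ] in
/-- The shape of a piece of a sequence of pairs. -/
theorem pairs_infix {A B : β → γ} (Z : List β) (l' : List γ) (h : l' <:+: pairs A B Z) :
    (∃ c, l' <:+: [A c, B c]) ∨ ∃ (D F E : List β),
      D ++ F ++ E <:+: Z ∧ D.length ≤ 1 ∧ E.length ≤ 1 ∧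
        l' = D.map B ++ pairs A B F ++ E.map A := by
  rcases infix_flatten (ℓ := 2) (by omega) (Z.map (blk A B)) (by
    intro x hx
    rw [List.mem_map] at hx
    obtain ⟨c, -, rfl⟩ := hx
    rfl) l' h with ⟨d, hd, hud⟩ | ⟨D, x, E, s, p, h1, h2, h3, h4, h5, h6, h7, h8⟩
  · rw [List.mem_map] at hd
    obtain ⟨c, -, rfl⟩ := hd
    exact Or.inl ⟨c, hud⟩
  · rw [List.infix_map_iff] at h1
    obtain ⟨G, hG, hGe⟩ := h1
    obtain ⟨G1, E0, rfl, hG1, rfl⟩ := List.map_eq_append_iff.1 hGe.symm
    obtain ⟨D0, F, rfl, rfl, rfl⟩ := List.map_eq_append_iff.1 hG1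
    rw [List.length_map] at h2 h3
    -- the suffix
    obtain ⟨D1, hD1, hD1l, rfl⟩ : ∃ D1 : List β, D1 <:+ D0 ∧ D1.length ≤ 1 ∧ s = D1.map B := by
      by_cases hs : s = []
      · exact ⟨[], List.nil_suffix, by simp, by simpa using hs⟩
      · have hs1 : s.length = 1 := by
          rcases h6 with h6 | h6
          · exact absurd h6 hs
          · have := List.length_pos_iff.2 hs
            omega
        obtain ⟨c, rfl⟩ : ∃ c, D0 = [c] := by
          apply List.length_eq_one_iff.1
          by_contra hc
          have : D0 = [] := List.length_eq_zero_iff.1 (by omega)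
          subst this
          exact hs (by simpa using h4)
        refine ⟨[c], List.suffix_rfl, by simp, ?_⟩
        have h9 : s <:+ [A c, B c] := by simpa [blk] using h4
        rw [List.suffix_iff_eq_drop, hs1] at h9
        simpa using h9
    obtain ⟨E1, hE1, hE1l, rfl⟩ : ∃ E1 : List β, E1 <+: E0 ∧ E1.length ≤ 1 ∧ p = E1.map A := by
      by_cases hp : p = []
      · exact ⟨[], List.nil_prefix, by simp, by simpa using hp⟩
      · have hp1 : p.length = 1 := by
          have := List.length_pos_iff.2 hp
          omega
        obtain ⟨c, rfl⟩ : ∃ c, E0 = [c] := by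
          apply List.length_eq_one_iff.1
          by_contra hc
          have : E0 = [] := List.length_eq_zero_iff.1 (by omega)
          subst this
          exact hp (by simpa using h5)
        refine ⟨[c], List.prefix_rfl, by simp, ?_⟩
        have h9 : p <+: [A c, B c] := by simpa [blk] using h5
        rw [List.prefix_iff_eq_take, hp1] at h9
        simpa using h9
    refine Or.inr ⟨D1, F, E1, ?_, hD1l, hE1l, h8⟩
    refine List.IsInfix.trans ?_ hG
    obtain ⟨a, rfl⟩ := hD1
    obtain ⟨b, rfl⟩ := hE1
    exact ⟨a, b, by simp⟩

theorem pairs_two {n : ℕ} (hn : 2 ≤ n) {A B : β → γ} (hA : Function.Injective A)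
    (hB : Function.Injective B) (hAB : ∀ c d, A c ≠ B d) (Z : List β)
    (hZ : ∀ F : List β, F <:+: Z → F ≠ [] → ∃ c, ¬ n ∣ F.count c) (l' : List γ)
    (h : l' <:+: pairs A B Z) (h2 : 2 ≤ l'.length) :
    ∃ a b, a ≠ b ∧ ¬ n ∣ l'.count a ∧ ¬ n ∣ l'.count b := by
  have h1n : ¬ n ∣ 1 := by
    intro h3
    have := Nat.le_of_dvd one_pos h3
    omega
  rcases pairs_infix Z l' h with ⟨c, hc⟩ | ⟨D, F, E, e1, e2, e3, e4⟩
  · have h3 : l' = [A c, B c] := hc.eq_of_length_le (by simpa using h2)
    refine ⟨A c, B c, hAB c c, ?_, ?_⟩
    · rw [h3]
      have : [A c, B c].count (A c) = 1 := by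
        have h4 := count_pairs_left hA hAB [c] c
        simpa [pairs, blk] using h4
      rw [this]
      exact h1n
    · rw [h3]
      have : [A c, B c].count (B c) = 1 := by
        have h4 := count_pairs_right hB hAB [c] c
        simpa [pairs, blk] using h4
      rw [this]
      exact h1n
  · have hcA : ∀ c, l'.count (A c) = (F ++ E).count c := by
      intro c
      rw [e4, List.count_append, List.count_append, count_pairs_left hA hAB, List.count_append,
        List.count_map_of_injective _ _ hA, List.count_eq_zero_of_not_mem, zero_add]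
      intro hm
      rw [List.mem_map] at hm
      obtain ⟨d, -, hd⟩ := hm
      exact hAB c d hd.symm
    have hcB : ∀ c, l'.count (B c) = (D ++ F).count c := by
      intro c
      rw [e4, List.count_append, List.count_append, count_pairs_right hB hAB, List.count_append,
        List.count_map_of_injective _ _ hB,
        List.count_eq_zero_of_not_mem (l := E.map A), add_zero]
      intro hm
      rw [List.mem_map] at hm
      obtain ⟨d, -, hd⟩ := hm
      exact hAB d c hd
    have hlen : l'.length = D.length + 2 * F.length + E.length := by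
      rw [e4, List.length_append, List.length_append, List.length_map, List.length_map]
      have : (pairs A B F).length = 2 * F.length := by
        rw [pairs, List.length_flatten, List.map_map]
        have : (F.map (List.length ∘ blk A B)) = List.replicate F.length 2 := by
          rw [List.eq_replicate_iff]
          refine ⟨by simp, ?_⟩
          intro b hb
          rw [List.mem_map] at hb
          obtain ⟨x, -, rfl⟩ := hb
          rfl
        rw [this]
        simp [mul_comm]
      omega
    have hFE : F ++ E ≠ [] := by
      intro h3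
      have h4 := congrArg List.length h3
      simp only [List.length_append, List.length_nil] at h4
      omega
    have hDF : D ++ F ≠ [] := by
      intro h3
      have h4 := congrArg List.length h3
      simp only [List.length_append, List.length_nil] at h4
      omega
    obtain ⟨c, hc⟩ := hZ (F ++ E) (by
      refine List.IsInfix.trans ?_ e1
      exact ⟨D, [], by simp⟩) hFE
    obtain ⟨d, hd⟩ := hZ (D ++ F) (by
      refine List.IsInfix.trans ?_ e1
      exact ⟨[], E, by simp⟩) hDF
    refine ⟨A c, B d, hAB c d, ?_, ?_⟩
    · rw [hcA]
      exact hc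
    · rw [hcB]
      exact hd

omit [DecidableEq β] [DecidableEq γ] in
/-- Three consecutive entries. -/
theorem pairs_three {A B : β → γ} (Z : List β) (l' : List γ)
    (h : l' <:+: pairs A B Z) (h3 : l'.length ≤ 3) :
    l' = [] ∨ (∃ c d e, l' <:+: [A c, B d, A e]) ∨ ∃ c d e, l' <:+: [B c, A d, B e] := by
  rcases pairs_infix Z l' h with ⟨c, hc⟩ | ⟨D, F, E, -, e2, e3, e4⟩
  · right
    left
    exact ⟨c, c, c, hc.trans ⟨[], [A c], rfl⟩⟩
  · have hlen : l'.length = D.length + 2 * F.length + E.length := by
      rw [e4, List.length_append, List.length_append, List.length_map, List.length_map]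
      have : (pairs A B F).length = 2 * F.length := by
        rw [pairs, List.length_flatten, List.map_map]
        have : (F.map (List.length ∘ blk A B)) = List.replicate F.length 2 := by
          rw [List.eq_replicate_iff]
          refine ⟨by simp, ?_⟩
          intro b hb
          rw [List.mem_map] at hb
          obtain ⟨x, -, rfl⟩ := hb
          rfl
        rw [this]
        simp [mul_comm]
      omega
    match F, D, E, e2, e3, e4, hlen with
    | [], [], [], _, _, e4, _ =>
      left
      simpa [pairs] using e4
    | [], [c], [], _, _, e4, _ =>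
      right; right
      refine ⟨c, c, c, ?_⟩
      rw [e4]
      exact ⟨[], [A c, B c], by simp [pairs]⟩
    | [], [], [e], _, _, e4, _ =>
      right; left
      refine ⟨e, e, e, ?_⟩
      rw [e4]
      exact ⟨[], [B e, A e], by simp [pairs]⟩
    | [], [c], [e], _, _, e4, _ =>
      right; right
      refine ⟨c, e, e, ?_⟩
      rw [e4]
      exact ⟨[], [B e], by simp [pairs]⟩
    | [d], [], [], _, _, e4, _ =>
      right; left
      refine ⟨d, d, d, ?_⟩
      rw [e4]
      exact ⟨[], [A d], by simp [pairs, blk]⟩
    | [d], [], [e], _, _, e4, _ =>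
      right; left
      refine ⟨d, d, e, ?_⟩
      rw [e4]
      exact ⟨[], [], by simp [pairs, blk]⟩
    | [d], [c], [], _, _, e4, _ =>
      right; right
      refine ⟨c, d, d, ?_⟩
      rw [e4]
      exact ⟨[], [], by simp [pairs, blk]⟩
    | [d], [c], [e], _, _, _, hlen =>
      simp only [List.length_cons, List.length_nil] at hlen
      omega
    | d :: d' :: F, _, _, _, _, _, hlen =>
      simp only [List.length_cons] at hlen
      omega
    | _, _ :: _ :: _, _, e2, _, _, _ =>
      simp only [List.length_cons] at e2
      omega
    | _, _, _ :: _ :: _, _, e3, _, _ =>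
      simp only [List.length_cons] at e3
      omega

/-- A long sequence over `S` all of whose nonempty pieces contain some member of `S` between one
and `n - 1` times. -/
theorem exists_seq2 {n : ℕ} (hn : 2 ≤ n) (S : List β) (hnd : S.Nodup) (hS : S ≠ []) :
    ∃ l : List β, n ^ S.length ≤ l.length + 1 ∧
      ∀ l' : List β, l' <:+: l → l' ≠ [] → ∃ a, ¬ n ∣ l'.count a := by
  obtain ⟨h, c, rfl⟩ : ∃ h c, S = h :: c := by
    cases S with
    | nil => exact absurd rfl hS
    | cons h c => exact ⟨h, c, rfl⟩
  obtain ⟨hh, hc⟩ := List.nodup_cons.1 hnd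
  obtain ⟨l, -, h2, h3, h4⟩ := Pool.Agent.Helper25.SK.lw Unit β (fun _ => ()) (fun _ => ())
    n () [h] c (by omega) ⟨rfl, rfl⟩ (by simp) (by simp) (by simp) hc (by
      intro e he
      refine ⟨?_, by simp, by simp⟩
      intro h5
      rw [List.mem_singleton] at h5
      exact hh (h5 ▸ he)) () (by simp) () (by simp)
  refine ⟨l, ?_, ?_⟩
  · refine le_trans (le_of_eq ?_) h3
    rw [List.length_singleton, List.length_cons, one_mul, pow_succ, mul_comm]
    congr 1
    omega
  · intro l' hl' hl0
    obtain ⟨a, ha1, ha2⟩ := h4 l' hl' hl0
    refine ⟨a, fun hd => ?_⟩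
    have := Nat.le_of_dvd (by omega) hd
    omega

end Pool.Agent.Helper14.SK
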