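import Mathlib

/-!
# Eight ternary words of length 22 for square-free words with free choices: finite checks
-/

set_option autoImplicit false

namespace Pool.Agent.Helper14.SK

/-- The cells, as lists of digits. -/
def cellN : ℕ → List ℕ
  | 0 => [0,1,0,2,0,1,2,0,2,1,0,1,2,1,0,2,0,1,0,2,1,2]
  | 1 => [0,1,0,2,0,1,2,1,0,1,2,0,2,1,0,2,0,1,0,2,1,2]
  | 2 => [0,1,0,2,0,1,2,0,2,1,2,0,1,2,1,0,1,2,0,2,1,2]
  | 3 => [0,1,0,2,0,1,2,1,0,1,2,0,2,1,0,1,2,1,0,2,1,2]
  | 4 => [0,1,0,2,0,1,2,1,0,2,0,1,0,2,1,0,1,2,0,2,1,2]
  | 5 => [0,1,0,2,0,1,2,1,0,2,0,1,0,2,1,2,0,2,1,0,1,2]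
  | 6 => [0,1,0,2,0,1,2,1,0,1,2,0,2,1,2,0,1,2,1,0,1,2]
  | _ => [0,1,0,2,0,1,2,1,0,2,1,2,0,2,1,0,1,2,0,2,1,2]

/-- The letter of a cell. -/
def lettN : ℕ → ℕ
  | 0 => 0
  | 1 => 0
  | 2 => 1
  | 3 => 1
  | 4 => 2
  | 5 => 2
  | 6 => 3
  | _ => 4

/-- Compare two lists, stop with `false` after `L` consecutive equal entries. -/
def runB (L : ℕ) : ℕ → List ℕ → List ℕ → Bool
  | c, a :: l, b :: l' =>
    bif Nat.beq a b then (bif Nat.beq (c + 1) L then false else runB L (c + 1) l l')
    else runB L 0 l l'
  | _, _, _ => true

/-- No square with period at least `1` and at most `P`. -/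
def sqB (w : List ℕ) : ℕ → Bool
  | 0 => true
  | P + 1 => runB (P + 1) 0 w (w.drop (P + 1)) && sqB w P

def tripB (i j k : ℕ) : Bool :=
  (Nat.beq (lettN i) (lettN j) || Nat.beq (lettN j) (lettN k)) ||
    sqB (cellN i ++ (cellN j ++ cellN k)) 33

def allB : Bool :=
  (List.range 8).all fun i => (List.range 8).all fun j => (List.range 8).all fun k => tripB i j k

def noB : Bool :=
  (List.range 8).all fun i => (List.range 8).all fun j => (List.range 21).all fun r =>
    (List.range (21 - r)).any fun s =>
      !(Nat.beq ((cellN i).getD s 0) ((cellN j).getD (r + 1 + s) 0))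

def neB : Bool :=
  (List.range 8).all fun i => (List.range 8).all fun j => Nat.beq i j ||
    (List.range 22).any fun s => !(Nat.beq ((cellN i).getD s 0) ((cellN j).getD s 0))

def smallB : Bool :=
  (List.range 8).all fun i => (Nat.beq (cellN i).length 22) &&
    (List.range 22).all fun s => Nat.ble ((cellN i).getD s 0) 2

set_option maxRecDepth 100000 in
theorem noB_true : noB = true := by decide +kernel

set_option maxRecDepth 100000 in
theorem neB_true : neB = true := by decide +kernel

set_option maxRecDepth 100000 in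
theorem smallB_true : smallB = true := by decide +kernel

theorem allB_true : allB = true := by decide +kernel

theorem beqT {a b : ℕ} : Nat.beq a b = true ↔ a = b :=
  ⟨Nat.eq_of_beq_eq_true, fun h => by rw [h]; exact Nat.beq_refl b⟩

theorem beqF {a b : ℕ} : Nat.beq a b = false ↔ a ≠ b := by
  rw [← Bool.not_eq_true, not_iff_not]
  exact beqT

/-- The entry of a cell. -/
def cellF (a q : ℕ) : ℕ := (cellN a).getD q 0

theorem cellN_length {a : ℕ} (ha : a < 8) : (cellN a).length = 22 := by
  have h := smallB_true
  simp only [smallB, List.all_eq_true, List.mem_range, Bool.and_eq_true, beqT] at h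
  exact (h a ha).1

theorem cellF_lt {a q : ℕ} (ha : a < 8) (hq : q < 22) : cellF a q < 3 := by
  have h := smallB_true
  simp only [smallB, List.all_eq_true, List.mem_range, Bool.and_eq_true, beqT,
    Nat.ble_eq] at h
  have := (h a ha).2 q hq
  simp only [cellF]
  omega

theorem cell_no {a b r : ℕ} (ha : a < 8) (hb : b < 8) (hr : 1 ≤ r) (hr' : r < 22) :
    ∃ s, s + r < 22 ∧ cellF a s ≠ cellF b (r + s) := by
  have h := noB_true
  simp only [noB, List.all_eq_true, List.mem_range, List.any_eq_true, Bool.not_eq_true',
    beqF] at h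
  obtain ⟨s, hs, h1⟩ := h a ha b hb (r - 1) (by omega)
  refine ⟨s, by omega, ?_⟩
  simp only [cellF]
  rw [show r - 1 + 1 + s = r + s by omega] at h1
  exact h1

theorem cell_ne {a b : ℕ} (ha : a < 8) (hb : b < 8) (hab : a ≠ b) :
    ∃ s, s < 22 ∧ cellF a s ≠ cellF b s := by
  have h := neB_true
  simp only [neB, List.all_eq_true, List.mem_range, List.any_eq_true, Bool.not_eq_true',
    beqF, Bool.or_eq_true, beqT] at h
  rcases h a ha b hb with h1 | ⟨s, hs, h1⟩
  · exact absurd h1 hab
  · exact ⟨s, hs, h1⟩

theorem runB_spec (L : ℕ) : ∀ (l l' : List ℕ) (c : ℕ), runB L c l l' = true → c < L →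
    ((L - c ≤ l.length ∧ L - c ≤ l'.length → ∃ i, i < L - c ∧ l[i]? ≠ l'[i]?) ∧
      ∀ t, t + L ≤ l.length → t + L ≤ l'.length → ∃ i, i < L ∧ l[t + i]? ≠ l'[t + i]?) := by
  intro l
  induction l with
  | nil =>
    intro l' c _ hc
    constructor
    · rintro ⟨h1, -⟩
      simp only [List.length_nil] at h1
      omega
    · intro t h1
      simp only [List.length_nil] at h1
      omega
  | cons a l ih =>
    intro l' c h hc
    cases l' with
    | nil =>
      constructor
      · rintro ⟨-, h1⟩
        simp only [List.length_nil] at h1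
        omega
      · intro t _ h1
        simp only [List.length_nil] at h1
        omega
    | cons b l' =>
      rw [runB] at h
      by_cases hab : a = b
      · subst hab
        rw [beqT.2 rfl, cond_true] at h
        by_cases hcL : c + 1 = L
        · rw [beqT.2 hcL, cond_true] at h
          exact absurd h (by decide)
        · rw [beqF.2 hcL, cond_false] at h
          obtain ⟨h1, h2⟩ := ih l' (c + 1) h (by omega)
          have h3 : L - c ≤ (a :: l).length ∧ L - c ≤ (a :: l').length →
              ∃ i, i < L - c ∧ (a :: l)[i]? ≠ (a :: l')[i]? := by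
            rintro ⟨e1, e2⟩
            simp only [List.length_cons] at e1 e2
            obtain ⟨i, hi, hne⟩ := h1 ⟨by omega, by omega⟩
            exact ⟨i + 1, by omega, by simpa using hne⟩
          refine ⟨h3, ?_⟩
          intro t e1 e2
          simp only [List.length_cons] at e1 e2
          cases t with
          | zero =>
            obtain ⟨i, hi, hne⟩ := h3 ⟨by simp only [List.length_cons]; omega,
              by simp only [List.length_cons]; omega⟩
            exact ⟨i, by omega, by simpa using hne⟩
          | succ t =>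
            obtain ⟨i, hi, hne⟩ := h2 t (by omega) (by omega)
            refine ⟨i, hi, ?_⟩
            rw [show t + 1 + i = (t + i) + 1 by omega]
            simpa using hne
      · have hb : Nat.beq a b = false := by
          rw [beqF]
          exact hab
        rw [hb, cond_false] at h
        obtain ⟨h1, h2⟩ := ih l' 0 h (by omega)
        refine ⟨fun _ => ⟨0, by omega, by simpa using hab⟩, ?_⟩
        intro t e1 e2
        simp only [List.length_cons] at e1 e2
        cases t with
        | zero => exact ⟨0, by omega, by simpa using hab⟩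
        | succ t =>
          obtain ⟨i, hi, hne⟩ := h2 t (by omega) (by omega)
          refine ⟨i, hi, ?_⟩
          rw [show t + 1 + i = (t + i) + 1 by omega]
          simpa using hne

theorem sqB_spec (w : List ℕ) : ∀ P, sqB w P = true → ∀ L, 1 ≤ L → L ≤ P → ∀ t,
    t + 2 * L ≤ w.length → ∃ i, i < L ∧ w[t + i]? ≠ w[t + L + i]? := by
  intro P
  induction P with
  | zero => intro _ L h1 h2; omega
  | succ P ih =>
    intro h L h1 h2 t ht
    rw [sqB, Bool.and_eq_true] at h
    rcases Nat.lt_or_ge P L with h3 | h3
    · obtain rfl : L = P + 1 := by omega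
      obtain ⟨-, h4⟩ := runB_spec (P + 1) w (w.drop (P + 1)) 0 h.1 (by omega)
      obtain ⟨i, hi, hne⟩ := h4 t (by omega) (by rw [List.length_drop]; omega)
      refine ⟨i, hi, ?_⟩
      rw [List.getElem?_drop] at hne
      rw [show t + (P + 1) + i = P + 1 + (t + i) by omega]
      exact hne
    · exact ih h.2 L h1 h3 t ht

/-- Three cells side by side. -/
def tripF (i j k q : ℕ) : ℕ :=
  if q < 22 then cellF i q else if q < 44 then cellF j (q - 22) else cellF k (q - 44)

theorem trip_sqfree {i j k : ℕ} (hi : i < 8) (hj : j < 8) (hk : k < 8)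
    (hij : lettN i ≠ lettN j) (hjk : lettN j ≠ lettN k) (t L : ℕ) (hL : 1 ≤ L)
    (ht : t + 2 * L ≤ 66) : ∃ s, s < L ∧ tripF i j k (t + s) ≠ tripF i j k (t + L + s) := by
  have h := allB_true
  simp only [allB, List.all_eq_true, List.mem_range] at h
  have h1 := h i hi j hj k hk
  rw [tripB, Bool.or_eq_true, Bool.or_eq_true, beqT, beqT] at h1
  have h2 : sqB (cellN i ++ (cellN j ++ cellN k)) 33 = true := by
    rcases h1 with (h1 | h1) | h1
    · exact absurd h1 hij
    · exact absurd h1 hjk
    · exact h1
  have li := cellN_length hi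
  have lj := cellN_length hj
  have lk := cellN_length hk
  have hw : ∀ q, q < 66 → (cellN i ++ (cellN j ++ cellN k))[q]? = some (tripF i j k q) := by
    intro q hq
    unfold tripF cellF
    by_cases h3 : q < 22
    · rw [if_pos h3, List.getElem?_append_left (by omega), List.getD_eq_getElem?_getD,
        List.getElem?_eq_getElem (by omega)]
      rfl
    · rw [if_neg h3, List.getElem?_append_right (by omega), li]
      by_cases h4 : q < 44
      · rw [if_pos h4, List.getElem?_append_left (by omega), List.getD_eq_getElem?_getD,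
          List.getElem?_eq_getElem (by omega)]
        rfl
      · rw [if_neg h4, List.getElem?_append_right (by omega), lj,
          show q - 22 - 22 = q - 44 by omega, List.getD_eq_getElem?_getD,
          List.getElem?_eq_getElem (by omega)]
        rfl
  obtain ⟨s, hs, hne⟩ := sqB_spec _ 33 h2 L hL (by omega) t (by
    rw [List.length_append, List.length_append]
    omega)
  refine ⟨s, hs, ?_⟩
  rw [hw _ (by omega), hw _ (by omega)] at hne
  simpa using hne

end Pool.Agent.Helper14.SK
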