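import Pool.Agent.Helper14.SK.SqMorph
import Pool.Agent.Helper14.SK.Mark
import Pool.Agent.Helper14.SK.Pair

/-!
# A code without overlaps of square-free ternary words
-/

set_option autoImplicit false

namespace Pool.Agent.Helper14.SK

open Pool.Agent.Helper18.SK

section general

variable {γ : Type}

theorem pow_two_flatten (z : List γ) : (List.replicate 2 z).flatten = z ++ z := by
  simp [List.replicate_succ]

theorem pos_of_pfree {w : List γ} (h : PFree 2 w) (t L : ℕ) (hL : 1 ≤ L)
    (ht : t + 2 * L ≤ w.length) : ∃ i, i < L ∧ w[t + i]? ≠ w[t + L + i]? := by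
  by_contra hcon
  push Not at hcon
  have hl : ((w.drop t).take L).length = L := by
    rw [List.length_take, List.length_drop]
    omega
  refine h ((w.drop t).take L) ?_ ?_
  · intro h0
    rw [h0] at hl
    simp at hl
    omega
  · rw [pow_two_flatten]
    have h1 : (w.drop t).take L ++ (w.drop t).take L = (w.drop t).take (L + L) := by
      rw [List.take_add]
      congr 1
      apply List.ext_getElem?
      intro i
      by_cases hi : i < L
      · rw [List.getElem?_take_of_lt hi, List.getElem?_take_of_lt hi, List.getElem?_drop,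
          List.getElem?_drop, List.getElem?_drop, hcon i hi]
        congr 1
        omega
      · rw [List.getElem?_eq_none, List.getElem?_eq_none]
        · rw [List.length_take]
          omega
        · rw [List.length_take]
          omega
    rw [h1]
    exact (List.take_prefix _ _).isInfix.trans (List.drop_suffix _ _).isInfix

theorem pfree_of_pos {w : List γ}
    (h : ∀ t L, 1 ≤ L → t + 2 * L ≤ w.length → ∃ i, i < L ∧ w[t + i]? ≠ w[t + L + i]?) :
    PFree 2 w := by
  intro z hz hi
  rw [pow_two_flatten] at hi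
  obtain ⟨P, Q, rfl⟩ := hi
  have hzl : 1 ≤ z.length := List.length_pos_iff.2 hz
  obtain ⟨i, hi, hne⟩ := h P.length z.length hzl (by
    simp only [List.length_append]
    omega)
  apply hne
  have e1 : (P ++ (z ++ z) ++ Q)[P.length + i]? = z[i]? := by
    rw [List.append_assoc, List.getElem?_append_right (by omega), Nat.add_sub_cancel_left,
      List.append_assoc, List.getElem?_append_left hi]
  have e2 : (P ++ (z ++ z) ++ Q)[P.length + z.length + i]? = z[i]? := by
    rw [List.append_assoc, List.getElem?_append_right (by omega), List.append_assoc,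
      List.getElem?_append_right (by omega), List.getElem?_append_left (by omega)]
    congr 1
    omega
  rw [e1, e2]

theorem pfree_mono {n : ℕ} (hn : 2 ≤ n) {w : List γ} (h : PFree 2 w) : PFree n w := by
  intro z hz hi
  refine h z hz (List.IsInfix.trans ?_ hi)
  obtain ⟨n', rfl⟩ : ∃ n', n = 2 + n' := ⟨n - 2, by omega⟩
  rw [List.replicate_add, List.flatten_append]
  exact (List.prefix_append _ _).isInfix

theorem infix_split {z P Q : List γ} {b : γ} (h : z <:+: P ++ b :: Q) (hb : b ∉ z) :
    z <:+: P ∨ z <:+: Q := by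
  obtain ⟨s, t, h⟩ := h
  rw [List.append_eq_append_iff] at h
  rcases h with ⟨a, h1, h2⟩ | ⟨c, h1, h2⟩
  · left
    exact ⟨s, a, h1.symm⟩
  · cases c with
    | nil =>
      left
      rw [List.append_nil] at h1
      exact ⟨s, [], by rw [h1, List.append_nil]⟩
    | cons b' c =>
      rw [List.cons_append, List.cons.injEq] at h2
      obtain ⟨rfl, h2⟩ := h2
      rw [List.append_eq_append_iff] at h1
      rcases h1 with ⟨a, h3, h4⟩ | ⟨c2, h3, h4⟩
      · exact absurd (by rw [h4]; simp) hb
      · cases c2 with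
        | nil =>
          rw [List.nil_append] at h4
          exact absurd (by rw [← h4]; simp) hb
        | cons b'' c3 =>
          rw [List.cons_append, List.cons.injEq] at h4
          right
          rw [h2, h4.2]
          exact ⟨c3, t, rfl⟩

/-- Square-free words with separators. -/
theorem pfree_sep [DecidableEq γ] {a b : γ} {U : List γ} (hU : PFree 2 U) (ha : a ∉ U)
    (hb : b ∉ U) (hab : a ≠ b) : PFree 2 ((a :: U) ++ (b :: U) ++ (a :: U)) := by
  intro z hz hi
  rw [pow_two_flatten] at hi
  have hzl : 1 ≤ z.length := List.length_pos_iff.2 hz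
  have hnil : ¬ (z ++ z) <:+: [] := by
    intro h
    have := h.length_le
    rw [List.length_append, List.length_nil] at this
    omega
  have hno : ∀ c : γ, (z ++ z).count c ≤ 1 → c ∉ z ++ z := by
    intro c hc hm
    rw [List.count_append] at hc
    have h1 : 0 < (z ++ z).count c := List.count_pos_iff.2 hm
    rw [List.count_append] at h1
    omega
  have hUa : U.count a = 0 := List.count_eq_zero_of_not_mem ha
  have hUb : U.count b = 0 := List.count_eq_zero_of_not_mem hb
  have hUU : ¬ (z ++ z) <:+: U := by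
    intro h
    exact hU z hz (by rw [pow_two_flatten]; exact h)
  -- the separator `a` at the end of a block
  have hQ : ∀ P : List γ, P.count a = 0 → ¬ (z ++ z) <:+: P → ¬ (z ++ z) <:+: P ++ a :: U := by
    intro P hP hPz h
    have h1 : (z ++ z).count a ≤ 1 := by
      refine (h.sublist.count_le a).trans ?_
      rw [List.count_append, hP, List.count_cons_self, hUa]
    rcases infix_split h (hno a h1) with h2 | h2
    · exact hPz h2
    · exact hUU h2
  have hb1 : (z ++ z).count b ≤ 1 := by
    refine (hi.sublist.count_le b).trans ?_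
    rw [List.count_append, List.count_append, List.count_cons_self, hUb,
      List.count_cons_of_ne hab, hUb]
  have hi2 : (z ++ z) <:+: (a :: U) ++ b :: (U ++ (a :: U)) := by
    have : (a :: U) ++ (b :: U) ++ (a :: U) = (a :: U) ++ b :: (U ++ (a :: U)) := by simp
    rw [← this]
    exact hi
  rcases infix_split hi2 (hno b hb1) with h2 | h2
  · exact hQ [] (by simp) hnil (by simpa using h2)
  · exact hQ U hUa hUU h2

end general

section image

variable {α : Type} {ψ : ℕ → α}

/-- The image of a list of cells, with the letters `ψ 0`, `ψ 1`, `ψ 2`. -/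
def img (ψ : ℕ → α) (y : List ℕ) : List α := (y.map (fun a => (cellN a).map ψ)).flatten

theorem img_append (y y' : List ℕ) : img ψ (y ++ y') = img ψ y ++ img ψ y' := by
  simp [img]

theorem img_length {y : List ℕ} (hy : ∀ a ∈ y, a < 8) : (img ψ y).length = 22 * y.length := by
  induction y with
  | nil => rfl
  | cons a y ih =>
    have h1 : img ψ (a :: y) = (cellN a).map ψ ++ img ψ y := by simp [img]
    rw [h1, List.length_append, List.length_map, cellN_length (hy a (by simp)),
      ih (fun b hb => hy b (List.mem_cons_of_mem _ hb)), List.length_cons]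
    ring

theorem img_get {y : List ℕ} (hy : ∀ a ∈ y, a < 8) : ∀ q, q < 22 * y.length →
    (img ψ y)[q]? = some (ψ (imF (fun i => y.getD i 0) q)) := by
  induction y with
  | nil => intro q hq; simp at hq
  | cons a y ih =>
    intro q hq
    have h1 : img ψ (a :: y) = (cellN a).map ψ ++ img ψ y := by simp [img]
    have ha := hy a (by simp)
    have hl := cellN_length ha
    rw [List.length_cons] at hq
    by_cases h : q < 22
    · rw [h1, List.getElem?_append_left (by rw [List.length_map]; omega), List.getElem?_map,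
        List.getElem?_eq_getElem (by omega)]
      simp only [Option.map_some, imF, cellF, show q / 22 = 0 by omega,
        show q % 22 = q by omega, List.getD_cons_zero]
      rw [List.getD_eq_getElem _ _ (by omega)]
    · rw [h1, List.getElem?_append_right (by rw [List.length_map]; omega), List.length_map, hl,
        ih (fun b hb => hy b (List.mem_cons_of_mem _ hb)) (q - 22) (by omega)]
      congr 2
      simp only [imF]
      rw [show q / 22 = (q - 22) / 22 + 1 by omega, show q % 22 = (q - 22) % 22 by omega,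
        List.getD_cons_succ]

theorem getD_lt {y : List ℕ} (hy : ∀ a ∈ y, a < 8) (i : ℕ) : y.getD i 0 < 8 := by
  by_cases h : i < y.length
  · rw [List.getD_eq_getElem _ _ h]
    exact hy _ (List.getElem_mem h)
  · rw [List.getD_eq_default _ _ (by omega)]
    omega

theorem imF_lt {g : ℕ → ℕ} (hg : ∀ i, g i < 8) (q : ℕ) : imF g q < 3 :=
  cellF_lt (hg _) (by omega)

theorem img_pfree (hψ : ∀ x y, x < 3 → y < 3 → ψ x = ψ y → x = y) {y : List ℕ}
    (hy : ∀ a ∈ y, a < 8) (hsf : PFree 2 (y.map lettN)) : PFree 2 (img ψ y) := by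
  apply pfree_of_pos
  intro t L hL ht
  rw [img_length hy] at ht
  have hg := getD_lt hy
  obtain ⟨i, hi, hne⟩ := imF_sqfree hg (r := y.length) (by
    intro t L hL ht
    obtain ⟨i, hi, hne⟩ := pos_of_pfree hsf t L hL (by rw [List.length_map]; omega)
    refine ⟨i, hi, fun h => hne ?_⟩
    rw [List.getElem?_map, List.getElem?_map, List.getElem?_eq_getElem (by omega),
      List.getElem?_eq_getElem (by omega)]
    rw [List.getD_eq_getElem _ _ (by omega), List.getD_eq_getElem _ _ (by omega)] at h
    simp only [Option.map_some]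
    rw [h]) t L hL ht
  refine ⟨i, hi, fun h => hne ?_⟩
  rw [img_get hy _ (by omega), img_get hy _ (by omega)] at h
  exact hψ _ _ (imF_lt hg _) (imF_lt hg _) (by simpa using h)

end image

/-- Square-free sequences over three letters of any length. -/
theorem exists_sqfree (r : ℕ) : ∃ u : ℕ → ℕ, (∀ i, u i < 3) ∧
    ∀ t L, 1 ≤ L → t + 2 * L ≤ r → ∃ i, i < L ∧ u (t + i) ≠ u (t + L + i) := by
  have h : ∀ j : ℕ, ∃ u : ℕ → ℕ, (∀ i, u i < 3) ∧
      ∀ t L, 1 ≤ L → t + 2 * L ≤ 22 ^ j → ∃ i, i < L ∧ u (t + i) ≠ u (t + L + i) := by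
    intro j
    induction j with
    | zero =>
      refine ⟨fun _ => 0, fun _ => by norm_num, ?_⟩
      intro t L hL ht
      simp only [pow_zero] at ht
      omega
    | succ j ih =>
      obtain ⟨u, hu, hsf⟩ := ih
      have hl : ∀ x, x < 3 → lettN (2 * x) = x := by
        intro x hx
        interval_cases x <;> rfl
      refine ⟨imF (fun i => 2 * u i), fun i => imF_lt (fun i => by have := hu i; omega) i, ?_⟩
      intro t L hL ht
      refine imF_sqfree (fun i => by have := hu i; omega) (r := 22 ^ j) ?_ t L hL (by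
        rw [pow_succ] at ht
        omega)
      intro t L hL ht
      obtain ⟨i, hi, hne⟩ := hsf t L hL ht
      refine ⟨i, hi, ?_⟩
      simp only [hl _ (hu _)]
      exact hne
  obtain ⟨u, hu, hsf⟩ := h r
  refine ⟨u, hu, fun t L hL ht => hsf t L hL (ht.trans ?_)⟩
  exact (Nat.lt_pow_self (by omega)).le

section code

variable {α : Type} {ψ : ℕ → α} {ρ : ℕ}

/-- The cells of a word of the code: a separator `c`, then the letters `u 0, …, u (ρ - 1)` with
free choices. -/
def cells (u : ℕ → ℕ) (c : ℕ) (ch : Fin ρ → Bool) : List ℕ :=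
  c :: List.ofFn (fun i : Fin ρ => 2 * u i + if ch i then 1 else 0)

/-- The words of the code. -/
def cword (ψ : ℕ → α) (u : ℕ → ℕ) (c : ℕ) (ch : Fin ρ → Bool) : List α := img ψ (cells u c ch)

theorem cells_length (u : ℕ → ℕ) (c : ℕ) (ch : Fin ρ → Bool) : (cells u c ch).length = ρ + 1 := by
  simp [cells]

theorem cells_lt {u : ℕ → ℕ} (hu : ∀ i, u i < 3) {c : ℕ} (hc : c < 8) (ch : Fin ρ → Bool) :
    ∀ a ∈ cells u c ch, a < 8 := by
  intro a ha
  simp only [cells, List.mem_cons, List.mem_ofFn] at ha
  rcases ha with rfl | ⟨i, rfl⟩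
  · exact hc
  · have := hu i
    split_ifs <;> omega

theorem cells_getD_zero (u : ℕ → ℕ) (c : ℕ) (ch : Fin ρ → Bool) : (cells u c ch).getD 0 0 = c := by
  simp [cells]

theorem cells_getD_succ (u : ℕ → ℕ) (c : ℕ) (ch : Fin ρ → Bool) (i : ℕ) (hi : i < ρ) :
    (cells u c ch).getD (i + 1) 0 = 2 * u i + if ch ⟨i, hi⟩ then 1 else 0 := by
  rw [cells, List.getD_cons_succ, List.getD_eq_getElem _ _ (by simpa using hi), List.getElem_ofFn]

theorem cells_lett {u : ℕ → ℕ} (hu : ∀ i, u i < 3) (c : ℕ) (ch : Fin ρ → Bool) :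
    (cells u c ch).map lettN = lettN c :: List.ofFn (fun i : Fin ρ => u i) := by
  have hl : ∀ x b, x < 3 → b < 2 → lettN (2 * x + b) = x := by
    intro x b hx hb
    interval_cases x <;> interval_cases b <;> rfl
  rw [cells, List.map_cons, List.map_ofFn]
  congr 2
  funext i
  simp only [Function.comp]
  exact hl _ _ (hu _) (by split_ifs <;> omega)

theorem cword_length {u : ℕ → ℕ} (hu : ∀ i, u i < 3) {c : ℕ} (hc : c < 8) (ch : Fin ρ → Bool) :
    (cword ψ u c ch).length = 22 * (ρ + 1) := by
  rw [cword, img_length (cells_lt hu hc ch), cells_length]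

theorem cword_no (hψ : ∀ x y, x < 3 → y < 3 → ψ x = ψ y → x = y) {u : ℕ → ℕ} (hu : ∀ i, u i < 3)
    {c c' : ℕ} (hc : 6 ≤ c) (hc8 : c < 8) (hc8' : c' < 8) (ch ch' : Fin ρ → Bool) (h : ℕ)
    (h1 : 1 ≤ h) (h2 : h < 22 * (ρ + 1)) :
    (cword ψ u c ch).take h ≠ (cword ψ u c' ch').drop (22 * (ρ + 1) - h) := by
  intro heq
  have hy := cells_lt hu hc8 ch
  have hy' := cells_lt hu hc8' ch'
  have hg := getD_lt hy
  have hg' := getD_lt hy'
  have hl := cells_length u c ch
  have hl' := cells_length u c' ch'
  have hval : ∀ i, i < h → imF (fun i => (cells u c ch).getD i 0) i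
      = imF (fun i => (cells u c' ch').getD i 0) (22 * (ρ + 1) - h + i) := by
    intro i hi
    have h3 := congrArg (fun l => l[i]?) heq
    rw [List.getElem?_take_of_lt hi, List.getElem?_drop, cword, cword,
      img_get hy _ (by rw [hl]; omega), img_get hy' _ (by rw [hl']; omega)] at h3
    exact hψ _ _ (imF_lt hg _) (imF_lt hg' _) (by simpa using h3)
  have h0 : ∀ i, i < 22 → imF (fun i => (cells u c ch).getD i 0) i = cellF c i := by
    intro i hi
    have := imF_add (fun i => (cells u c ch).getD i 0) 0 i hi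
    simp only [cells_getD_zero, Nat.mul_zero, Nat.zero_add] at this
    exact this
  by_cases hh : h < 22
  · obtain ⟨s, hs, hne⟩ := cell_no hc8 (hg' ρ) (r := 22 - h) (by omega) (by omega)
    apply hne
    rw [← h0 s (by omega), hval s (by omega),
      show 22 * (ρ + 1) - h + s = 22 * ρ + (22 - h + s) by omega, imF_add _ _ _ (by omega)]
  · have h3 := imF_align hg' hc8 (q := 22 * (ρ + 1) - h) (by
      intro i hi
      rw [← hval i (by omega), h0 i hi])
    obtain ⟨e1, e2⟩ := h3
    obtain ⟨j, hj⟩ : ∃ j, (22 * (ρ + 1) - h) / 22 = j + 1 := ⟨(22 * (ρ + 1) - h) / 22 - 1, by omega⟩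
    rw [hj, cells_getD_succ u c' ch' j (by omega)] at e2
    have := hu j
    split_ifs at e2 <;> omega

theorem cword_inj (hψ : ∀ x y, x < 3 → y < 3 → ψ x = ψ y → x = y) {u : ℕ → ℕ} (hu : ∀ i, u i < 3)
    {c c' : ℕ} (hc8 : c < 8) (hc8' : c' < 8) (ch ch' : Fin ρ → Bool)
    (heq : cword ψ u c ch = cword ψ u c' ch') : c = c' ∧ ch = ch' := by
  have hy := cells_lt hu hc8 ch
  have hy' := cells_lt hu hc8' ch'
  have hg := getD_lt hy
  have hg' := getD_lt hy'
  have hl := cells_length u c ch
  have hl' := cells_length u c' ch'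
  have hval : ∀ i, i < 22 * (ρ + 1) → imF (fun i => (cells u c ch).getD i 0) i
      = imF (fun i => (cells u c' ch').getD i 0) i := by
    intro i hi
    have h3 := congrArg (fun l => l[i]?) heq
    rw [cword, cword, img_get hy _ (by rw [hl]; omega), img_get hy' _ (by rw [hl']; omega)] at h3
    exact hψ _ _ (imF_lt hg _) (imF_lt hg' _) (by simpa using h3)
  have hcell : ∀ b, b < ρ + 1 → (cells u c ch).getD b 0 = (cells u c' ch').getD b 0 := by
    intro b hb
    by_contra hne
    obtain ⟨s, hs, hne'⟩ := cell_ne (hg b) (hg' b) hne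
    apply hne'
    have h4 := hval (22 * b + s) (by omega)
    rw [imF_add _ _ _ hs, imF_add _ _ _ hs] at h4
    exact h4
  constructor
  · have := hcell 0 (by omega)
    rwa [cells_getD_zero, cells_getD_zero] at this
  · funext i
    have h5 := hcell (i + 1) (by omega)
    rw [cells_getD_succ _ _ _ i i.2, cells_getD_succ _ _ _ i i.2] at h5
    simp only [Fin.eta] at h5
    cases h6 : ch i <;> cases h7 : ch' i <;> simp only [h6, h7] at h5 ⊢ <;> simp at h5

theorem cword_three (hψ : ∀ x y, x < 3 → y < 3 → ψ x = ψ y → x = y) {u : ℕ → ℕ}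
    (hu : ∀ i, u i < 3)
    (hsf : ∀ t L, 1 ≤ L → t + 2 * L ≤ ρ → ∃ i, i < L ∧ u (t + i) ≠ u (t + L + i))
    {c c' : ℕ} (hcc : c = 6 ∧ c' = 7 ∨ c = 7 ∧ c' = 6) (ch ch' ch'' : Fin ρ → Bool) :
    PFree 2 (cword ψ u c ch ++ cword ψ u c' ch' ++ cword ψ u c ch'') := by
  have hc8 : c < 8 := by omega
  have hc8' : c' < 8 := by omega
  rw [cword, cword, cword, ← img_append, ← img_append]
  apply img_pfree hψ
  · intro a ha
    rw [List.mem_append, List.mem_append] at ha
    rcases ha with (ha | ha) | ha
    · exact cells_lt hu hc8 ch a ha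
    · exact cells_lt hu hc8' ch' a ha
    · exact cells_lt hu hc8 ch'' a ha
  · rw [List.map_append, List.map_append, cells_lett hu, cells_lett hu, cells_lett hu]
    have hU : PFree 2 (List.ofFn (fun i : Fin ρ => u i)) := by
      apply pfree_of_pos
      intro t L hL ht
      rw [List.length_ofFn] at ht
      obtain ⟨i, hi, hne⟩ := hsf t L hL ht
      refine ⟨i, hi, fun h => hne ?_⟩
      rw [List.getElem?_ofFn, List.getElem?_ofFn, dif_pos (by omega), dif_pos (by omega)] at h
      simpa using h
    have hmem : ∀ x, 3 ≤ x → x ∉ List.ofFn (fun i : Fin ρ => u i) := by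
      intro x hx hm
      rw [List.mem_ofFn] at hm
      obtain ⟨i, hi⟩ := hm
      have := hu i
      omega
    have l6 : lettN 6 = 3 := rfl
    have l7 : lettN 7 = 4 := rfl
    rcases hcc with ⟨rfl, rfl⟩ | ⟨rfl, rfl⟩
    · rw [l6, l7]
      exact pfree_sep hU (hmem 3 (by omega)) (hmem 4 (by omega)) (by omega)
    · rw [l6, l7]
      exact pfree_sep hU (hmem 4 (by omega)) (hmem 3 (by omega)) (by omega)

end code

/-- Long words over an alphabet with at least three letters that avoid strongly `k`-abelian
`n`-th powers, also for `n = 2`. -/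
theorem sq_bound {α : Type} [DecidableEq α] [Fintype α] {ψ : ℕ → α}
    (hψ : ∀ x y, x < 3 → y < 3 → ψ x = ψ y → x = y) {k n ρ : ℕ} (hn : 2 ≤ n)
    (hk : 33 * (ρ + 1) ≤ k) :
    ∃ w : List α, Avoids k n w ∧ 44 * (ρ + 1) * n ^ 2 ^ ρ ≤ w.length + 44 * (ρ + 1) := by
  obtain ⟨u, hu, hsf⟩ := exists_sqfree ρ
  set A : (Fin ρ → Bool) → List α := cword ψ u 6 with hA
  set B : (Fin ρ → Bool) → List α := cword ψ u 7 with hB
  have hAi : Function.Injective A := fun x y h => (cword_inj hψ hu (by omega) (by omega) x y h).2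
  have hBi : Function.Injective B := fun x y h => (cword_inj hψ hu (by omega) (by omega) x y h).2
  have hAB : ∀ c d, A c ≠ B d := fun c d h => by
    have := (cword_inj hψ hu (by omega) (by omega) c d h).1
    omega
  obtain ⟨Z, hZ1, hZ2⟩ := exists_seq2 hn (Finset.univ : Finset (Fin ρ → Bool)).toList
    (Finset.nodup_toList _) (by
      intro h
      have := Finset.mem_toList.2 (Finset.mem_univ (fun _ : Fin ρ => true))
      rw [h] at this
      simp at this)
  rw [Finset.length_toList, Finset.card_univ, Fintype.card_pi] at hZ1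
  simp only [Fintype.card_bool, Finset.prod_const, Finset.card_univ, Fintype.card_fin] at hZ1
  set S : List (List α) := (Finset.univ : Finset (Fin ρ → Bool)).toList.map A ++
    (Finset.univ : Finset (Fin ρ → Bool)).toList.map B with hS
  have hmemS : ∀ x, x ∈ S ↔ ∃ (c : ℕ) (ch : Fin ρ → Bool), (c = 6 ∨ c = 7) ∧ x = cword ψ u c ch := by
    intro x
    rw [hS, List.mem_append, List.mem_map, List.mem_map]
    constructor
    · rintro (⟨ch, -, rfl⟩ | ⟨ch, -, rfl⟩)
      · exact ⟨6, ch, Or.inl rfl, rfl⟩
      · exact ⟨7, ch, Or.inr rfl, rfl⟩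
    · rintro ⟨c, ch, rfl | rfl, rfl⟩
      · exact Or.inl ⟨ch, Finset.mem_toList.2 (Finset.mem_univ _), rfl⟩
      · exact Or.inr ⟨ch, Finset.mem_toList.2 (Finset.mem_univ _), rfl⟩
  have hNO : NonOverlap (22 * (ρ + 1)) S := by
    constructor
    · intro x hx
      obtain ⟨c, ch, hc, rfl⟩ := (hmemS x).1 hx
      exact cword_length hu (by omega) ch
    · intro x hx y hy h h1 h2
      obtain ⟨c, ch, hc, rfl⟩ := (hmemS x).1 hx
      obtain ⟨c', ch', hc', rfl⟩ := (hmemS y).1 hy
      exact cword_no hψ hu (by omega) (by omega) (by omega) ch ch' h h1 h2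
  have hlS : ∀ x ∈ pairs A B Z, x ∈ S := by
    intro x hx
    rw [pairs, List.mem_flatten] at hx
    obtain ⟨l, hl, hx⟩ := hx
    rw [List.mem_map] at hl
    obtain ⟨ch, -, rfl⟩ := hl
    rw [blk, List.mem_cons, List.mem_singleton] at hx
    rw [hmemS]
    rcases hx with rfl | rfl
    · exact ⟨6, ch, Or.inl rfl, rfl⟩
    · exact ⟨7, ch, Or.inr rfl, rfl⟩
  have hav : Avoids k n (pairs A B Z).flatten := by
    refine block_avoids2 (ℓ := 22 * (ρ + 1)) (S := S) (by omega) (by omega) (by omega) hNO _ hlS
      ?_ (by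
        intro l' h1 h2
        obtain ⟨a, b, hab, ha, hb⟩ := pairs_two hn hAi hBi hAB Z hZ2 l' h1 h2
        rw [count_eq_count _ List.instBEq inferInstance inferInstance] at ha hb
        exact ⟨a, b, hab, ha, hb⟩)
    intro l' hl' hl3 z hz hi
    rcases pairs_three Z l' hl' hl3 with rfl | ⟨c, d, e, h⟩ | ⟨c, d, e, h⟩
    · have h1 := hi.length_le
      have h2 : 1 ≤ z.length := List.length_pos_iff.2 hz
      simp at h1
      rcases h1 with h1 | h1
      · omega
      · exact hz h1
    · have h1 : l'.flatten <:+: A c ++ B d ++ A e := by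
        obtain ⟨s, t, h⟩ := h
        refine ⟨s.flatten, t.flatten, ?_⟩
        rw [← List.flatten_append, ← List.flatten_append, h]
        simp
      exact pfree_mono hn (cword_three hψ hu hsf (Or.inl ⟨rfl, rfl⟩) c d e) z hz (hi.trans h1)
    · have h1 : l'.flatten <:+: B c ++ A d ++ B e := by
        obtain ⟨s, t, h⟩ := h
        refine ⟨s.flatten, t.flatten, ?_⟩
        rw [← List.flatten_append, ← List.flatten_append, h]
        simp
      exact pfree_mono hn (cword_three hψ hu hsf (Or.inr ⟨rfl, rfl⟩) c d e) z hz (hi.trans h1)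
  refine ⟨_, hav, ?_⟩
  have h4 : (pairs A B Z).flatten.length = (pairs A B Z).length * (22 * (ρ + 1)) := by
    rw [List.length_flatten]
    have h5 : (pairs A B Z).map List.length
        = List.replicate (pairs A B Z).length (22 * (ρ + 1)) := by
      rw [List.eq_replicate_iff]
      refine ⟨by simp, ?_⟩
      intro b hb
      rw [List.mem_map] at hb
      obtain ⟨x, hx, rfl⟩ := hb
      exact hNO.1 x (hlS x hx)
    rw [h5]
    simp
  have h6 : (pairs A B Z).length = 2 * Z.length := by
    rw [pairs, List.length_flatten, List.map_map]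
    have : (Z.map (List.length ∘ blk A B)) = List.replicate Z.length 2 := by
      rw [List.eq_replicate_iff]
      refine ⟨by simp, ?_⟩
      intro b hb
      rw [List.mem_map] at hb
      obtain ⟨x, -, rfl⟩ := hb
      rfl
    rw [this]
    simp [mul_comm]
  rw [h4, h6]
  calc 44 * (ρ + 1) * n ^ 2 ^ ρ ≤ 44 * (ρ + 1) * (Z.length + 1) := Nat.mul_le_mul_left _ hZ1
    _ = 2 * Z.length * (22 * (ρ + 1)) + 44 * (ρ + 1) := by ring

end Pool.Agent.Helper14.SK
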