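import Pool.Agent.Helper14.SK.SqCells

/-!
# A substitution with free choices that preserves square-freeness
-/

set_option autoImplicit false

namespace Pool.Agent.Helper14.SK

/-- The digit at position `q` of the image of the sequence `g` of cells. -/
def imF (g : ℕ → ℕ) (q : ℕ) : ℕ := cellF (g (q / 22)) (q % 22)

theorem imF_add (g : ℕ → ℕ) (b i : ℕ) (hi : i < 22) : imF g (22 * b + i) = cellF (g b) i := by
  unfold imF
  rw [show (22 * b + i) / 22 = b by omega, show (22 * b + i) % 22 = i by omega]

/-- Occurrences of cells are aligned. -/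
theorem imF_align {g : ℕ → ℕ} (hg : ∀ i, g i < 8) {a q : ℕ} (ha : a < 8)
    (h : ∀ i, i < 22 → imF g (q + i) = cellF a i) : q % 22 = 0 ∧ g (q / 22) = a := by
  have h0 : q % 22 = 0 := by
    by_contra h0
    obtain ⟨s, hs, hne⟩ := cell_no ha (hg (q / 22)) (r := q % 22) (by omega) (by omega)
    apply hne
    have h1 := h s (by omega)
    rw [show q + s = 22 * (q / 22) + (q % 22 + s) by omega, imF_add _ _ _ (by omega)] at h1
    exact h1.symm
  refine ⟨h0, ?_⟩
  by_contra hne
  obtain ⟨s, hs, hne'⟩ := cell_ne (hg (q / 22)) ha hne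
  apply hne'
  have h1 := h s hs
  rw [show q + s = 22 * (q / 22) + s by omega, imF_add _ _ _ hs] at h1
  exact h1

/-- The substitution maps square-free sequences of letters to square-free words, whatever cells
are chosen for the letters. -/
theorem imF_sqfree {g : ℕ → ℕ} (hg : ∀ i, g i < 8) {r : ℕ}
    (hsf : ∀ t L, 1 ≤ L → t + 2 * L ≤ r → ∃ i, i < L ∧ lettN (g (t + i)) ≠ lettN (g (t + L + i)))
    (t L : ℕ) (hL : 1 ≤ L) (ht : t + 2 * L ≤ 22 * r) :
    ∃ i, i < L ∧ imF g (t + i) ≠ imF g (t + L + i) := by
  by_contra hcon
  push Not at hcon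
  have hadj : ∀ b, b + 2 ≤ r → lettN (g b) ≠ lettN (g (b + 1)) := by
    intro b hb
    obtain ⟨i, hi, hne⟩ := hsf b 1 (by omega) (by omega)
    obtain rfl : i = 0 := by omega
    exact hne
  set b := t / 22 with hb
  have htb : 22 * b ≤ t ∧ t < 22 * b + 22 := by omega
  by_cases hA : t + 2 * L ≤ 22 * (b + 3)
  · -- the square lies in three cells
    obtain ⟨a1, a2, h1, h2, h3, h4, h5, h6⟩ : ∃ a1 a2, a1 < 8 ∧ a2 < 8 ∧
        lettN (g b) ≠ lettN a1 ∧ lettN a1 ≠ lettN a2 ∧ (b + 2 ≤ r → a1 = g (b + 1)) ∧
        (b + 3 ≤ r → a2 = g (b + 2)) := by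
      by_cases hr3 : b + 3 ≤ r
      · exact ⟨g (b + 1), g (b + 2), hg _, hg _, hadj b (by omega), hadj (b + 1) (by omega),
          fun _ => rfl, fun _ => rfl⟩
      · by_cases hr2 : b + 2 ≤ r
        · exact ⟨g (b + 1), g b, hg _, hg _, hadj b hr2, (hadj b hr2).symm, fun _ => rfl,
            fun h => absurd h hr3⟩
        · have h7 : ∃ a1, a1 < 8 ∧ lettN (g b) ≠ lettN a1 := by
            by_cases h0 : lettN (g b) = 0
            · exact ⟨7, by omega, by rw [h0]; decide⟩
            · exact ⟨0, by omega, h0⟩
          obtain ⟨a1, h8, h9⟩ := h7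
          exact ⟨a1, g b, h8, hg _, h9, h9.symm, fun h => absurd h hr2, fun h => absurd h hr3⟩
    obtain ⟨s, hs, hne⟩ := trip_sqfree (hg b) h1 h2 h3 h4 (t - 22 * b) L hL (by omega)
    have hval : ∀ q, q < 66 → 22 * b + q < 22 * r → tripF (g b) a1 a2 q = imF g (22 * b + q) := by
      intro q hq hqr
      unfold tripF
      by_cases c1 : q < 22
      · rw [if_pos c1, imF_add _ _ _ c1]
      · rw [if_neg c1]
        by_cases c2 : q < 44
        · rw [if_pos c2, h5 (by omega), show 22 * b + q = 22 * (b + 1) + (q - 22) by omega,
            imF_add _ _ _ (by omega)]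
        · rw [if_neg c2, h6 (by omega), show 22 * b + q = 22 * (b + 2) + (q - 44) by omega,
            imF_add _ _ _ (by omega)]
    apply hne
    rw [hval _ (by omega) (by omega), hval _ (by omega) (by omega),
      show 22 * b + (t - 22 * b + s) = t + s by omega,
      show 22 * b + (t - 22 * b + L + s) = t + L + s by omega]
    exact hcon s hs
  · push Not at hA
    -- the period is a multiple of `22`
    have hL22 : L % 22 = 0 := by
      by_cases hB : 22 * (b + 2) ≤ t + L
      · have h1 := imF_align hg (hg (b + 1)) (q := 22 * (b + 1) + L) (by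
          intro i hi
          rw [← imF_add g (b + 1) i hi]
          have h2 := hcon (22 * (b + 1) + i - t) (by omega)
          rw [show t + (22 * (b + 1) + i - t) = 22 * (b + 1) + i by omega,
            show t + L + (22 * (b + 1) + i - t) = 22 * (b + 1) + L + i by omega] at h2
          exact h2.symm)
        omega
      · have h1 := imF_align hg (hg (b + 2)) (q := 22 * (b + 2) - L) (by
          intro i hi
          rw [← imF_add g (b + 2) i hi]
          have h2 := hcon (22 * (b + 2) + i - L - t) (by omega)
          rw [show t + (22 * (b + 2) + i - L - t) = 22 * (b + 2) - L + i by omega,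
            show t + L + (22 * (b + 2) + i - L - t) = 22 * (b + 2) + i by omega] at h2
          exact h2)
        omega
    obtain ⟨ρ, rfl⟩ : ∃ ρ, L = 22 * ρ := ⟨L / 22, by omega⟩
    have hcell : ∀ c, t ≤ 22 * c → 22 * (c + 1) ≤ t + 22 * ρ → g (c + ρ) = g c := by
      intro c h1 h2
      have h3 := imF_align hg (hg c) (q := 22 * (c + ρ)) (by
        intro i hi
        rw [← imF_add g c i hi]
        have h4 := hcon (22 * c + i - t) (by omega)
        rw [show t + (22 * c + i - t) = 22 * c + i by omega,
          show t + 22 * ρ + (22 * c + i - t) = 22 * (c + ρ) + i by omega] at h4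
        exact h4.symm)
      rw [← h3.2]
      congr 1
      omega
    by_cases hs : t = 22 * b
    · obtain ⟨i, hi, hne⟩ := hsf b ρ (by omega) (by omega)
      apply hne
      rw [show b + ρ + i = b + i + ρ by omega, hcell (b + i) (by omega) (by omega)]
    · by_cases hAB : lettN (g b) = lettN (g (b + ρ))
      · obtain ⟨i, hi, hne⟩ := hsf b ρ (by omega) (by omega)
        apply hne
        rcases Nat.eq_zero_or_pos i with rfl | hi0
        · exact hAB
        · rw [show b + ρ + i = b + i + ρ by omega, hcell (b + i) (by omega) (by omega)]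
      · by_cases hBC : lettN (g (b + ρ)) = lettN (g (b + 2 * ρ))
        · obtain ⟨i, hi, hne⟩ := hsf (b + 1) ρ (by omega) (by omega)
          apply hne
          rcases Nat.lt_or_ge (i + 1) ρ with hi0 | hi0
          · rw [show b + 1 + ρ + i = b + 1 + i + ρ by omega,
              hcell (b + 1 + i) (by omega) (by omega)]
          · rw [show b + 1 + i = b + ρ by omega, show b + 1 + ρ + i = b + 2 * ρ by omega]
            exact hBC
        · obtain ⟨s, hs', hne⟩ := trip_sqfree (hg b) (hg (b + ρ)) (hg (b + 2 * ρ)) hAB hBC
            (t - 22 * b) 22 (by omega) (by omega)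
          apply hne
          unfold tripF
          by_cases c1 : t - 22 * b + s < 22
          · rw [if_pos c1, if_neg (by omega), if_pos (by omega)]
            have h2 := hcon s (by omega)
            rw [show t + s = 22 * b + (t - 22 * b + s) by omega, imF_add _ _ _ c1,
              show t + 22 * ρ + s = 22 * (b + ρ) + (t - 22 * b + s) by omega,
              imF_add _ _ _ c1] at h2
            rw [h2]
            congr 1
            omega
          · rw [if_neg c1, if_pos (by omega), if_neg (by omega), if_neg (by omega)]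
            have h2 := hcon (22 * ρ - 22 + s) (by omega)
            rw [show t + (22 * ρ - 22 + s) = 22 * (b + ρ) + (t - 22 * b + s - 22) by omega,
              imF_add _ _ _ (by omega),
              show t + 22 * ρ + (22 * ρ - 22 + s) = 22 * (b + 2 * ρ) + (t - 22 * b + s - 22) by
                omega, imF_add _ _ _ (by omega)] at h2
            rw [h2]
            congr 1
            omega

end Pool.Agent.Helper14.SK
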