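import Pool.Agent.Helper18.SK.Final

/-!
# Strongly 2-abelian powers: a sharp upper bound
-/

set_option autoImplicit false

namespace Pool.Agent.Helper14.SK

open Pool.Agent.Helper18.SK

section pow

variable {α : Type} [DecidableEq α]

/-- For `k = 2` a nonempty word all of whose cyclic pair counts are divisible by `n` is a strongly
`2`-abelian `n`-th power. -/
theorem cyc_pow {n : ℕ} (hn : 1 ≤ n) (s a : α) (u : List α) (h1 : u.take 1 = [a])
    (h2 : u.drop (u.length - 1) = [s])
    (hd : ∀ x, n ∣ (facs 2 (u ++ [a])).count x) : StrongPow 2 n u := by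
  obtain ⟨hocc, hl, hlen, hwalk, h5, h6, h7⟩ := PkW1.w1 α 2 (by omega)
  have hul : 1 ≤ u.length := by
    have := congrArg List.length h1
    simp only [List.length_take, List.length_singleton] at this
    omega
  have hsa : facs 2 [s, a] = [[s, a]] := by simp [facs]
  have hW : facs 2 (u ++ [a]) = facs 2 u ++ [[s, a]] := by
    rw [h6 u [a] (by omega), show (2 - 1 : ℕ) = 1 by omega, h2]
    congr 1
  have hWw : IsWalk (bsrc 2) btgt [a] [a] (facs 2 (u ++ [a])) := by
    have h := hwalk (u ++ [a]) (by simp)
    simp only [show (2 - 1 : ℕ) = 1 by omega] at h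
    rw [List.take_append_of_le_length hul, h1] at h
    have e : (u ++ [a]).drop ((u ++ [a]).length - 1) = [a] := by
      rw [List.length_append, List.length_singleton, Nat.add_sub_cancel, List.drop_left' rfl]
    rw [e] at h
    exact h
  obtain ⟨l, hl0, hlc⟩ := gdiv_beq (Helper15.SK.dv Helper16.SK.eu) n [a] (facs 2 (u ++ [a])) hn hWw
    hd [s, a] (by rw [hW]; simp)
  rw [isWalk_cons] at hl0
  have hb1 : bsrc 2 [s, a] = [s] := rfl
  have hb2 : btgt [s, a] = [a] := rfl
  rw [hb1, hb2] at hl0
  have hlk : ∀ x ∈ l, x.length = 2 := by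
    intro x hx
    have h3 : 0 < ([s, a] :: l).count x := List.count_pos_iff.2 (List.mem_cons_of_mem _ hx)
    have h4 : 0 < (facs 2 (u ++ [a])).count x := by
      rw [← hlc x]
      positivity
    exact hl _ x (List.count_pos_iff.1 h4)
  obtain ⟨z, hzl, hzp, hzs, hzf⟩ := w2 α 2 (by omega) [a] [s] l rfl hlk hl0.2
  simp only [show (2 - 1 : ℕ) = 1 by omega] at hzl hzp
  have hz0 : z ≠ [] := by
    intro h
    rw [h] at hzl
    simp at hzl
  have hzs' : z.drop (z.length - 1) = [s] := by
    rw [← hzs]
    congr 1
    omega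
  have hZ : facs 2 (z ++ [a]) = l ++ [[s, a]] := by
    rw [h6 z [a] (by omega), hzf, show (2 - 1 : ℕ) = 1 by omega, hzs']
    congr 1
  set y := (List.replicate n z).flatten with hy
  have hyl : y.length = n * z.length := by
    rw [hy]
    simp
  have hyk : 1 ≤ y.length := by
    rw [hyl]
    have : 1 * z.length ≤ n * z.length := Nat.mul_le_mul_right _ hn
    omega
  obtain ⟨n', rfl⟩ : ∃ n', n = n' + 1 := ⟨n - 1, by omega⟩
  have hyp : y.take 1 = [a] := by
    rw [hy, List.replicate_succ, List.flatten_cons, List.take_append_of_le_length (by omega), hzp]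
  have hys : y.drop (y.length - 1) = [s] := by
    have h2 : y = (List.replicate n' z).flatten ++ z := by
      rw [hy, List.replicate_succ', List.flatten_append]
      simp
    rw [h2, List.length_append, Nat.add_sub_assoc (by omega), List.drop_append]
    simp only [List.length_flatten, List.map_replicate, List.sum_replicate, smul_eq_mul]
    rw [List.drop_eq_nil_of_le (by simp), List.nil_append]
    rw [← hzs']
    congr 1
    omega
  have hfy : facs 2 (y ++ [a]) = facs 2 y ++ [[s, a]] := by
    rw [h6 y [a] (by omega), show (2 - 1 : ℕ) = 1 by omega, hys]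
    congr 1
  have hfy' : facs 2 (y ++ [a]) = (List.replicate (n' + 1) (facs 2 (z ++ [a]))).flatten :=
    facs_pow PkW1.w1 (by omega) z [a] rfl hzp _
  refine ⟨?_, z, hz0, ?_⟩
  · intro h
    rw [h] at hul
    simp at hul
  · refine Helper11.SK.ke α 2 (by omega) u y (by omega) (by omega) (h1.trans hyp.symm)
      (h2.trans hys.symm) (fun x => ?_)
    have h3 : (facs 2 u).count x + [[s, a]].count x = (n' + 1) * ([s, a] :: l).count x := by
      rw [hlc x, hW, List.count_append]
    have h4 : (facs 2 y).count x + [[s, a]].count x = (n' + 1) * ([s, a] :: l).count x := by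
      rw [← List.count_append, ← hfy, hfy', hZ]
      simp only [List.count_flatten, List.map_replicate, List.sum_replicate, smul_eq_mul,
        List.count_append, List.count_cons, List.count_nil]
      ring
    omega

end pow

section states

variable {S α : Type} [DecidableEq S] [Fintype S]

/-- If the times of visit of the states `s, σ s, …, σ^n s = s` would all exist they would increase. -/
theorem orbit_count {n L : ℕ} (hn : 1 ≤ n) (σ : S → S) (hσ : Function.Injective σ)
    (hper : ∀ s, σ^[n] s = s)
    (φ : ℕ → S) (hinj : Set.InjOn φ (Finset.Icc 1 L))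
    (hA : ∀ i l, 1 ≤ i → i ≤ l → l ≤ L → σ (φ l) ≠ φ i) :
    n * L ≤ (n - 1) * Fintype.card S := by
  classical
  set V : Finset S := (Finset.Icc 1 L).image φ with hV
  have hVc : V.card = L := by
    rw [hV, Finset.card_image_of_injOn hinj, Nat.card_Icc]
    omega
  have hB : ∀ s, ∃ j ∈ Finset.range n, σ^[j] s ∉ V := by
    intro s
    by_contra hcon
    push Not at hcon
    have hall : ∀ j ≤ n, ∃ t, 1 ≤ t ∧ t ≤ L ∧ φ t = σ^[j] s := by
      intro j hj
      have h1 : σ^[j] s ∈ V := by
        rcases Nat.lt_or_ge j n with h | h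
        · exact hcon j (Finset.mem_range.2 h)
        · have : j = n := by omega
          rw [this, hper]
          exact hcon 0 (Finset.mem_range.2 (by omega))
      rw [hV, Finset.mem_image] at h1
      obtain ⟨t, ht, h2⟩ := h1
      rw [Finset.mem_Icc] at ht
      exact ⟨t, ht.1, ht.2, h2⟩
    obtain ⟨T, hT⟩ : ∃ T : ℕ → ℕ, ∀ j ≤ n, 1 ≤ T j ∧ T j ≤ L ∧ φ (T j) = σ^[j] s := by
      choose T hT using hall
      exact ⟨fun j => if h : j ≤ n then T j h else 0, fun j hj => by
        simp only [dif_pos hj]
        exact hT j hj⟩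
    have hmono : ∀ j, j ≤ n → T 0 + j ≤ T j := by
      intro j
      induction j with
      | zero => intro _; simp
      | succ j ih =>
        intro hj
        have h1 := ih (by omega)
        obtain ⟨a1, a2, a3⟩ := hT j (by omega)
        obtain ⟨b1, b2, b3⟩ := hT (j + 1) hj
        by_contra hc
        refine hA (T (j + 1)) (T j) b1 (by omega) a2 ?_
        rw [a3, b3, Function.iterate_succ_apply']
    have h1 := hmono n le_rfl
    obtain ⟨a1, a2, a3⟩ := hT 0 (by omega)
    obtain ⟨b1, b2, b3⟩ := hT n le_rfl
    rw [hper] at b3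
    have h2 : T 0 = T n := hinj (by simp [a1, a2]) (by simp [b1, b2]) (by
      rw [a3, b3]
      rfl)
    omega
  have h1 : ∑ s : S, ((Finset.range n).filter (fun j => σ^[j] s ∈ V)).card = n * V.card := by
    have e1 : ∀ s : S, ((Finset.range n).filter (fun j => σ^[j] s ∈ V)).card
        = ∑ j ∈ Finset.range n, if σ^[j] s ∈ V then 1 else 0 := by
      intro s
      rw [Finset.card_filter]
    rw [Finset.sum_congr rfl (fun s _ => e1 s), Finset.sum_comm]
    have e2 : ∀ j ∈ Finset.range n, (∑ s : S, if σ^[j] s ∈ V then 1 else 0) = V.card := by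
      intro j _
      rw [← Finset.card_filter]
      have hb : Function.Bijective (σ^[j]) := Finite.injective_iff_bijective.1 (hσ.iterate j)
      refine Finset.card_bij (fun s _ => σ^[j] s) ?_ ?_ ?_
      · intro s hs
        simpa using hs
      · intro s _ s' _ h
        exact hb.1 h
      · intro v hv
        obtain ⟨s, hs⟩ := hb.2 v
        exact ⟨s, by simpa [hs] using hv, hs⟩
    rw [Finset.sum_congr rfl e2, Finset.sum_const, Finset.card_range, smul_eq_mul]
  have h2 : ∑ s : S, ((Finset.range n).filter (fun j => σ^[j] s ∈ V)).card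
      ≤ ∑ _s : S, (n - 1) := by
    refine Finset.sum_le_sum (fun s _ => ?_)
    obtain ⟨j, hj, hj'⟩ := hB s
    have h3 : ((Finset.range n).filter (fun j => σ^[j] s ∈ V)).card < (Finset.range n).card := by
      refine Finset.card_lt_card ?_
      rw [Finset.filter_ssubset]
      exact ⟨j, hj, hj'⟩
    rw [Finset.card_range] at h3
    omega
  rw [h1, hVc, Finset.sum_const, Finset.card_univ, smul_eq_mul] at h2
  rw [mul_comm (n - 1)]
  exact h2

end states

section two

variable {m : ℕ}

/-- The change of the counts of the non-tree pairs by the pair `c a`. -/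
def dl (n : ℕ) (c a : Fin (m + 1)) : {x : Fin 2 → Fin (m + 1) // NT m 1 x} → ZMod n :=
  fun x => (([[c, a]] : List (List (Fin (m + 1)))).count (List.ofFn x.1) : ZMod n)

/-- The counts modulo `n` of the non-tree pairs. -/
def ct (n : ℕ) (y : List (Fin (m + 1))) : {x : Fin 2 → Fin (m + 1) // NT m 1 x} → ZMod n :=
  fun x => ((facs 2 y).count (List.ofFn x.1) : ZMod n)

/-- The state after `t` letters. -/
def st (n : ℕ) (w : List (Fin (m + 1))) (t : ℕ) :
    Fin (m + 1) × ({x : Fin 2 → Fin (m + 1) // NT m 1 x} → ZMod n) :=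
  (w.getD (t - 1) 0, ct n (w.take t))

theorem take_one_drop (w : List (Fin (m + 1))) (i d : ℕ) (hi : i < w.length) (hd : 1 ≤ d) :
    ((w.drop i).take d).take 1 = [w.getD i 0] := by
  rw [List.take_take, Nat.min_eq_left hd, List.take_one_drop_eq_of_lt_length hi,
    List.getD_eq_getElem _ _ hi, List.get_eq_getElem]

theorem last_drop (w : List (Fin (m + 1))) (i d : ℕ) (hd : 1 ≤ d) (h : i + d ≤ w.length) :
    ((w.drop i).take d).drop (((w.drop i).take d).length - 1) = [w.getD (i + d - 1) 0] := by
  have h1 : ((w.drop i).take d).length = d := by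
    rw [List.length_take, List.length_drop]
    omega
  rw [h1, List.drop_take, List.drop_drop, show d - (d - 1) = 1 by omega,
    List.take_one_drop_eq_of_lt_length (by omega), List.getD_eq_getElem _ _ (by omega),
    List.get_eq_getElem]
  congr 2
  show i + (d - 1) = i + d - 1
  omega

theorem st_ne {n : ℕ} (hn : 1 ≤ n) (w : List (Fin (m + 1))) (hav : Avoids 2 n w) (i l : ℕ)
    (hi : 1 ≤ i) (hil : i ≤ l) (hl : l ≤ w.length) :
    (st n w l).2 + dl n (st n w l).1 (st n w i).1 ≠ (st n w i).2 := by
  intro heq
  obtain ⟨hocc, hlk, hlen, hwalk, h5, h6, h7⟩ := PkW1.w1 (Fin (m + 1)) 2 (by omega)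
  set u := (w.drop (i - 1)).take (l - i + 1) with hu
  set a := w.getD (i - 1) 0 with ha
  set c := w.getD (l - 1) 0 with hc
  have hul : u.length = l - i + 1 := by
    rw [hu, List.length_take, List.length_drop]
    omega
  have h1 : u.take 1 = [a] := take_one_drop w (i - 1) (l - i + 1) (by omega) (by omega)
  have h2 : u.drop (u.length - 1) = [c] := by
    have := last_drop w (i - 1) (l - i + 1) (by omega) (by omega)
    rw [show i - 1 + (l - i + 1) - 1 = l - 1 by omega] at this
    exact this
  have h3 : facs 2 (w.take l) = facs 2 (w.take i) ++ facs 2 u := by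
    have h := take_drop_facs PkW1.w1 (k := 2) (by omega) w (i - 1) (l - i) (by omega)
    rw [show i - 1 + (l - i) + (2 - 1) = l by omega, show i - 1 + (2 - 1) = i by omega,
      show l - i + (2 - 1) = l - i + 1 by omega] at h
    exact h
  have hca : facs 2 [c, a] = [[c, a]] := by simp [facs]
  have hW : facs 2 (u ++ [a]) = facs 2 u ++ [[c, a]] := by
    rw [h6 u [a] (by omega), show (2 - 1 : ℕ) = 1 by omega, h2]
    congr 1
  have hWw : IsWalk (bsrc 2) btgt [a] [a] (facs 2 (u ++ [a])) := by
    have h := hwalk (u ++ [a]) (by simp)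
    simp only [show (2 - 1 : ℕ) = 1 by omega] at h
    rw [List.take_append_of_le_length (by omega), h1] at h
    have e : (u ++ [a]).drop ((u ++ [a]).length - 1) = [a] := by
      rw [List.length_append, List.length_singleton, Nat.add_sub_cancel, List.drop_left' rfl]
    rw [e] at h
    exact h
  have hd : ∀ x, n ∣ (facs 2 (u ++ [a])).count x := by
    refine Helper26.SK.tr m 2 n [a] _ (by omega) rfl (hlk _) hWw ?_
    intro x hxl hx
    let x' : Fin 2 → Fin (m + 1) := fun j => x.get (j.cast hxl.symm)
    have hx' : List.ofFn x' = x := by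
      apply List.ext_getElem
      · rw [List.length_ofFn, hxl]
      · intro j hj1 hj2
        rw [List.getElem_ofFn]
        simp only [x', List.get_eq_getElem, Fin.val_cast]
    have hNT : NT m 1 x' := by
      rintro ⟨e1, e2⟩
      have e3 : x = List.ofFn (Fin.init x') ++ [0] := by
        rw [← hx', ← e1]
        rw [List.ofFn_succ', List.concat_eq_append]
        rfl
      refine hx (List.ofFn (Fin.init x')) ?_ e3
      intro e4
      apply e2
      have e5 : List.replicate 1 (0 : Fin (m + 1)) = List.ofFn (fun _ : Fin 1 => 0) := by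
        rw [List.ofFn_const]
      rw [show 2 - 1 = 1 by omega, e5] at e4
      exact List.ofFn_injective e4
    have h8 := congrFun heq ⟨x', hNT⟩
    simp only [st, ct, dl, Pi.add_apply] at h8
    rw [hx', h3, List.count_append, Nat.cast_add, ← hc, ← ha] at h8
    have h9 : (((facs 2 u).count x + ([[c, a]] : List (List (Fin (m + 1)))).count x : ℕ) :
        ZMod n) = 0 := by
      push_cast
      have : ∀ p q r : ZMod n, p + q + r = p → q + r = 0 := by
        intro p q r h
        rwa [add_assoc, add_eq_left] at h
      exact this _ _ _ h8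
    rw [hW, List.count_append]
    exact (ZMod.natCast_eq_zero_iff _ _).1 h9
  refine hav u ?_ (cyc_pow hn c a u h1 h2 hd)
  rw [hu]
  exact (List.take_prefix _ _).isInfix.trans (List.drop_suffix _ _).isInfix

theorem st_step (n : ℕ) (w : List (Fin (m + 1))) (t : ℕ) (ht : 1 ≤ t) (htl : t < w.length) :
    (st n w (t + 1)).2 = (st n w t).2 + dl n (st n w t).1 (st n w (t + 1)).1 := by
  have h := take_drop_facs PkW1.w1 (k := 2) (by omega) w (t - 1) 1 (by omega)
  rw [show t - 1 + 1 + (2 - 1) = t + 1 by omega, show t - 1 + (2 - 1) = t by omega,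
    show 1 + (2 - 1) = 2 by omega] at h
  have h2 : (w.drop (t - 1)).take 2 = [w.getD (t - 1) 0, w.getD (t + 1 - 1) 0] := by
    rw [List.getD_eq_getElem _ _ (by omega), List.getD_eq_getElem _ _ (by omega)]
    rw [List.drop_eq_getElem_cons (by omega), List.take_succ_cons]
    congr 1
    rw [List.take_one_drop_eq_of_lt_length (by omega), List.get_eq_getElem]
    congr 2
    show t - 1 + 1 = t + 1 - 1
    omega
  have hca : ∀ c a : Fin (m + 1), facs 2 [c, a] = [[c, a]] := fun c a => by simp [facs]
  funext x
  simp only [st, ct, dl, Pi.add_apply]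
  rw [h, h2, hca, List.count_append, Nat.cast_add]

theorem st_inj {n : ℕ} (hn : 1 ≤ n) (w : List (Fin (m + 1))) (hav : Avoids 2 n w) :
    Set.InjOn (st n w) (Finset.Icc 1 w.length) := by
  have key : ∀ i j, 1 ≤ i → i < j → j ≤ w.length → st n w i ≠ st n w j := by
    intro i j hi hij hj heq
    refine st_ne hn w hav i (j - 1) hi (by omega) (by omega) ?_
    have h := st_step n w (j - 1) (by omega) (by omega)
    rw [show j - 1 + 1 = j by omega] at h
    rw [heq, h]
  intro i hi j hj heq
  simp only [Finset.coe_Icc, Set.mem_Icc] at hi hj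
  rcases lt_trichotomy i j with h | h | h
  · exact absurd heq (key i j hi.1 h hj.2)
  · exact h
  · exact absurd heq.symm (key j i hj.1 h hi.2)

/-- The sharp upper bound for `k = 2`. -/
theorem two_up {n : ℕ} (hn : 1 ≤ n) (w : List (Fin (m + 1))) (hav : Avoids 2 n w) :
    w.length ≤ (m + 1) * (n - 1) * n ^ ((m + 1) ^ 2 - (m + 1)) := by
  have : NeZero n := ⟨by omega⟩
  have hcard : Fintype.card (Fin (m + 1) ×
      ({x : Fin 2 → Fin (m + 1) // NT m 1 x} → ZMod n))
      = (m + 1) * n ^ ((m + 1) ^ 2 - (m + 1) + 1) := by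
    rw [Fintype.card_prod, Fintype.card_pi]
    simp only [Fintype.card_fin, Finset.prod_const, Finset.card_univ, ZMod.card]
    have h := card_NT m 1
    simp only [pow_one] at h
    rw [← h]
  classical
  have h := orbit_count (n := n) (L := w.length) hn
    (fun s : Fin (m + 1) × ({x : Fin 2 → Fin (m + 1) // NT m 1 x} → ZMod n) =>
      (s.1, s.2 + dl n s.1 s.1)) (by
      rintro ⟨c, f⟩ ⟨c', f'⟩ heq
      simp only [Prod.mk.injEq] at heq
      obtain ⟨rfl, h2⟩ := heq
      rw [add_left_inj] at h2
      rw [h2]) (by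
      rintro ⟨c, f⟩
      have h1 : ∀ j : ℕ, (fun s : Fin (m + 1) × ({x : Fin 2 → Fin (m + 1) // NT m 1 x} → ZMod n) =>
          (s.1, s.2 + dl n s.1 s.1))^[j] (c, f) = (c, f + j • dl n c c) := by
        intro j
        induction j with
        | zero => simp
        | succ j ih =>
          rw [Function.iterate_succ_apply', ih]
          simp only [Prod.mk.injEq, true_and]
          rw [succ_nsmul, add_assoc]
      rw [h1]
      simp only [Prod.mk.injEq, true_and, add_eq_left]
      funext x
      simp) (st n w) (st_inj hn w hav) (by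
      intro i l hi hil hl heq
      have h1 := congrArg Prod.fst heq
      have h2 := congrArg Prod.snd heq
      simp only at h1 h2
      refine st_ne hn w hav i l hi hil hl ?_
      rw [← h1]
      exact h2)
  rw [hcard, pow_succ] at h
  have h3 : n * w.length ≤ n * ((m + 1) * (n - 1) * n ^ ((m + 1) ^ 2 - (m + 1))) := by
    refine h.trans (le_of_eq ?_)
    ring
  exact Nat.le_of_mul_le_mul_left h3 (by omega)

end two

end Pool.Agent.Helper14.SK
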