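import Pool.Agent.Helper14.SK.Two

/-!
# Strongly 2-abelian powers: the asymptotic formula
-/

set_option autoImplicit false

namespace Pool.Agent.Helper14.SK

open Pool.Agent.Helper18.SK Filter Topology

theorem two_low_calc (m n b L : ℕ) (hm : 1 ≤ m) (hn : 2 ≤ n)
    (h : (m * (n - 2) + 1) * (n - 1) ^ b ≤ L) :
    m * n ^ (b + 1) ≤ L + (b + 2) * m * n ^ b := by
  obtain ⟨N, rfl⟩ : ∃ N, n = N + 2 := ⟨n - 2, by omega⟩
  rw [show N + 2 - 2 = N by omega, show N + 2 - 1 = N + 1 by omega] at h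
  have h1 : ((m : ℝ) * N + 1) * ((N : ℝ) + 1) ^ b ≤ L := by exact_mod_cast h
  have hN : (0 : ℝ) ≤ N := by positivity
  have hm' : (1 : ℝ) ≤ m := by exact_mod_cast hm
  -- Bernoulli
  have h2 : ((N : ℝ) + 2) ^ b * ((N : ℝ) + 2 - b) ≤ ((N : ℝ) + 2) * ((N : ℝ) + 1) ^ b := by
    have hx : (0 : ℝ) < (N : ℝ) + 2 := by positivity
    have h3 := one_add_mul_le_pow (a := -(1 / ((N : ℝ) + 2))) (by
      have : 1 / ((N : ℝ) + 2) ≤ 1 := by
        rw [div_le_one hx]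
        linarith
      linarith) b
    have h4 : (1 : ℝ) + -(1 / ((N : ℝ) + 2)) = ((N : ℝ) + 1) / ((N : ℝ) + 2) := by
      field_simp
      ring
    rw [h4, div_pow, le_div_iff₀ (by positivity)] at h3
    have h5 : ((N : ℝ) + 2) * ((1 + (b : ℝ) * -(1 / ((N : ℝ) + 2))) * ((N : ℝ) + 2) ^ b)
        = ((N : ℝ) + 2) ^ b * ((N : ℝ) + 2 - b) := by
      field_simp
      ring
    rw [← h5]
    exact mul_le_mul_of_nonneg_left h3 hx.le
  have h6 : (m : ℝ) * ((N : ℝ) + 2) ^ (b + 1) ≤ L + (b + 2) * m * ((N : ℝ) + 2) ^ b := by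
    have h7 : (0 : ℝ) ≤ ((N : ℝ) + 1) ^ b := by positivity
    have h8 : ((N : ℝ) + 1) ^ b ≤ ((N : ℝ) + 2) ^ b :=
      pow_le_pow_left₀ (by positivity) (by linarith) _
    rw [pow_succ]
    nlinarith
  exact_mod_cast h6

theorem main3 (m : ℕ) (hm : 1 ≤ m) :
    ∃ L : ℕ → ℕ, (∀ n, 2 ≤ n →
      IsGreatest {ℓ | ∃ w : List (Fin m), w.length = ℓ ∧ Avoids 2 n w} (L n) ∧
      L n + m * n ^ (m ^ 2 - m) ≤ m * n ^ (m ^ 2 - m + 1) ∧
      m * n ^ (m ^ 2 - m + 1) ≤ L n + (m ^ 2 - m + 2) * m * n ^ (m ^ 2 - m)) ∧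
    Tendsto (fun n : ℕ => (L n : ℝ) / (m * (n : ℝ) ^ (m ^ 2 - m + 1))) atTop (𝓝 1) := by
  classical
  have hex : ∀ n, 2 ≤ n → ∃ L : ℕ,
      IsGreatest {ℓ | ∃ w : List (Fin m), w.length = ℓ ∧ Avoids 2 n w} L ∧
      L + m * n ^ (m ^ 2 - m) ≤ m * n ^ (m ^ 2 - m + 1) ∧
      m * n ^ (m ^ 2 - m + 1) ≤ L + (m ^ 2 - m + 2) * m * n ^ (m ^ 2 - m) := by
    intro n hn
    obtain ⟨L, hL, -, hlow, -⟩ := main m 2 n hm (by omega) hn
    refine ⟨L, hL, ?_, ?_⟩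
    · obtain ⟨w, hw, hav⟩ := hL.1
      obtain ⟨m', rfl⟩ : ∃ m', m = m' + 1 := ⟨m - 1, by omega⟩
      have h1 := two_up (by omega) w hav
      rw [hw] at h1
      obtain ⟨n', rfl⟩ : ∃ n', n = n' + 1 := ⟨n - 1, by omega⟩
      rw [Nat.add_sub_cancel] at h1
      calc L + (m' + 1) * (n' + 1) ^ ((m' + 1) ^ 2 - (m' + 1))
          ≤ (m' + 1) * n' * (n' + 1) ^ ((m' + 1) ^ 2 - (m' + 1))
            + (m' + 1) * (n' + 1) ^ ((m' + 1) ^ 2 - (m' + 1)) := by omega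
        _ = (m' + 1) * (n' + 1) ^ ((m' + 1) ^ 2 - (m' + 1) + 1) := by ring
    · rcases Nat.lt_or_ge n 3 with h | h
      · obtain rfl : n = 2 := by omega
        have h2 : m * 2 ^ (m ^ 2 - m + 1) ≤ (m ^ 2 - m + 2) * m * 2 ^ (m ^ 2 - m) := by
          rw [pow_succ]
          have : (m ^ 2 - m + 2) * m * 2 ^ (m ^ 2 - m)
              = (m ^ 2 - m) * m * 2 ^ (m ^ 2 - m) + m * (2 ^ (m ^ 2 - m) * 2) := by ring
          rw [this]
          exact Nat.le_add_left _ _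
        exact h2.trans (Nat.le_add_left _ _)
      · refine two_low_calc m n (m ^ 2 - m) L hm hn ?_
        have h3 := hlow (by omega)
        rw [show 2 - 1 = 1 by omega, pow_one, show n - 2 + 1 = n - 1 by omega] at h3
        omega
  choose! L hL using hex
  refine ⟨L, hL, ?_⟩
  set b := m ^ 2 - m with hb
  have hm' : (1 : ℝ) ≤ m := by exact_mod_cast hm
  have h1 : Tendsto (fun n : ℕ => (1 : ℝ) - ((b : ℝ) + 2) / n) atTop (𝓝 1) := by
    have := (tendsto_const_div_atTop_nhds_zero_nat ((b : ℝ) + 2)).const_sub 1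
    simpa using this
  have h2 : Tendsto (fun _ : ℕ => (1 : ℝ)) atTop (𝓝 1) := tendsto_const_nhds
  refine tendsto_of_tendsto_of_tendsto_of_le_of_le' h1 h2 ?_ ?_
  · filter_upwards [eventually_ge_atTop 2] with n hn
    obtain ⟨-, -, h3⟩ := hL n hn
    have h4 : (m : ℝ) * (n : ℝ) ^ (b + 1) ≤ L n + (b + 2) * m * (n : ℝ) ^ b := by
      exact_mod_cast h3
    have hn' : (0 : ℝ) < n := by
      have : 0 < n := by omega
      exact_mod_cast this
    rw [le_div_iff₀ (by positivity)]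
    have h5 : (1 - ((b : ℝ) + 2) / n) * (m * (n : ℝ) ^ (b + 1))
        = (m : ℝ) * (n : ℝ) ^ (b + 1) - (b + 2) * m * (n : ℝ) ^ b := by
      rw [pow_succ]
      field_simp
    rw [h5]
    linarith
  · filter_upwards [eventually_ge_atTop 2] with n hn
    obtain ⟨-, h3, -⟩ := hL n hn
    have h4 : (L n : ℝ) + m * (n : ℝ) ^ b ≤ m * (n : ℝ) ^ (b + 1) := by exact_mod_cast h3
    have hn' : (0 : ℝ) < n := by
      have : 0 < n := by omega
      exact_mod_cast this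
    rw [div_le_one (by positivity)]
    have : (0 : ℝ) ≤ m * (n : ℝ) ^ b := by positivity
    linarith

end Pool.Agent.Helper14.SK
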