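import Pool.Agent.Helper14.SK.Count

/-!
# Strongly k-abelian powers: an upper bound in terms of the number of power-free words
-/

set_option autoImplicit false

namespace Pool.Agent.Helper14.SK

open Pool.Agent.Helper18.SK

variable {α : Type} [DecidableEq α] [Fintype α]

omit [Fintype α] in
theorem pFree_of_avoids {k n : ℕ} (hn : 1 ≤ n) {w v : List α} (h : Avoids k n w) (hv : v <:+: w) :
    PFree n v := by
  intro z hz hi
  refine h _ (hi.trans hv) ⟨?_, z, hz, fun _ _ _ => rfl⟩
  intro h0
  have h1 := congrArg List.length h0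
  have hzl : 1 ≤ z.length := List.length_pos_iff.2 hz
  simp at h1
  rcases h1 with h1 | h1
  · omega
  · exact hz h1

theorem up2 {k n : ℕ} (w : List α) (hk : 1 ≤ k) (hn : 1 ≤ n) (hav : Avoids k n w) :
    w.length + 3 ≤ 2 * k + k ^ 2 * (G α n (2 * k - 2)).card * n ^ (G α n k).card := by
  classical
  by_contra hcon
  push Not at hcon
  obtain ⟨k', rfl⟩ : ∃ k', k = k' + 1 := ⟨k - 1, by omega⟩
  have : NeZero n := ⟨by omega⟩
  rw [show 2 * (k' + 1) - 2 = 2 * k' by omega] at hcon
  set Q := (G α n (2 * k')).card * n ^ (G α n (k' + 1)).card with hQ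
  have hcon' : 2 * (k' + 1) + (k' + 1) ^ 2 * Q < w.length + 3 := by
    rw [hQ, ← mul_assoc]
    exact hcon
  have hwl : 2 * k' ≤ w.length := by omega
  have hwinG : ∀ i, i + 2 * k' ≤ w.length → (w.drop i).take (2 * k') ∈ G α n (2 * k') := by
    intro i hi
    rw [mem_G hn]
    refine ⟨pFree_of_avoids hn hav ((List.take_prefix _ _).isInfix.trans
      (List.drop_suffix _ _).isInfix), ?_⟩
    rw [List.length_take, List.length_drop]
    omega
  have hQ1 : 1 ≤ Q := by
    rw [hQ]
    have h1 : 1 ≤ (G α n (2 * k')).card :=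
      Finset.card_pos.2 ⟨_, hwinG 0 (by omega)⟩
    have h2 : 1 ≤ n ^ (G α n (k' + 1)).card := Nat.one_le_pow _ _ (by omega)
    exact Nat.mul_le_mul h1 h2
  have hkQ : 1 ≤ (k' + 1) ^ 2 * Q := Nat.one_le_iff_ne_zero.2 (by positivity)
  let φ : ℕ → List α × ({x : List α // x ∈ G α n (k' + 1)} → ZMod n) := fun i =>
    ((w.drop (i - k')).take (2 * k'),
      fun x => ((facs (k' + 1) (w.take (i + k'))).count x.1 : ZMod n))
  let T : Finset (List α × ({x : List α // x ∈ G α n (k' + 1)} → ZMod n)) :=
    G α n (2 * k') ×ˢ Finset.univ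
  have hcard : T.card = Q := by
    simp only [T]
    rw [Finset.card_product, Finset.card_univ, Fintype.card_pi]
    simp only [ZMod.card, Finset.prod_const, Finset.card_univ, Fintype.card_coe]
    rfl
  have hmaps : ∀ i ∈ Finset.Icc k' (w.length - k'), φ i ∈ T := by
    intro i hi
    rw [Finset.mem_Icc] at hi
    simp only [T, φ, Finset.mem_product, Finset.mem_univ, and_true]
    exact hwinG (i - k') (by omega)
  obtain ⟨y, -, hy⟩ := Finset.exists_lt_card_fiber_of_mul_lt_card_of_maps_to
    (s := Finset.Icc k' (w.length - k')) (t := T) (f := φ) (n := (k' + 1) ^ 2)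
    hmaps (by
      rw [hcard, Nat.card_Icc, mul_comm]
      omega)
  set Fb := {x ∈ Finset.Icc k' (w.length - k') | φ x = y} with hFb
  let e := Fb.orderEmbOfFin rfl
  have he : ∀ j, e j ∈ Fb := fun j => Finset.orderEmbOfFin_mem _ _ _
  have hstep : ∀ (d i : ℕ) (h : i + d < Fb.card), e ⟨i, by omega⟩ + d ≤ e ⟨i + d, h⟩ := by
    intro d
    induction d with
    | zero => intro i h; simp
    | succ d ih =>
      intro i h
      have h1 := ih i (by omega)
      have h2 : e ⟨i + d, by omega⟩ < e ⟨i + (d + 1), h⟩ := by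
        apply e.strictMono
        simp only [Fin.mk_lt_mk]
        omega
      omega
  have hkt : ∀ t ≤ k' + 1, (k' + 1) * t < Fb.card := by
    intro t ht
    calc (k' + 1) * t ≤ (k' + 1) * (k' + 1) := Nat.mul_le_mul_left _ ht
      _ = (k' + 1) ^ 2 := by ring
      _ < Fb.card := hy
  let pos : ℕ → ℕ := fun t => if h : (k' + 1) * t < Fb.card then e ⟨(k' + 1) * t, h⟩ else 0
  have hposdef : ∀ t (h : t ≤ k' + 1), pos t = e ⟨(k' + 1) * t, hkt t h⟩ := by
    intro t h
    simp only [pos]
    rw [dif_pos (hkt t h)]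
  have hposmem : ∀ t ≤ k' + 1, k' ≤ pos t ∧ pos t ≤ w.length - k' ∧ φ (pos t) = y := by
    intro t ht
    have h := he ⟨(k' + 1) * t, hkt t ht⟩
    rw [← hposdef t ht, hFb, Finset.mem_filter, Finset.mem_Icc] at h
    exact ⟨h.1.1, h.1.2, h.2⟩
  have hposstep : ∀ t < k' + 1, pos t + (k' + 1) ≤ pos (t + 1) := by
    intro t ht
    rw [hposdef t (by omega), hposdef (t + 1) (by omega)]
    have h := hstep (k' + 1) ((k' + 1) * t) (by
      have := hkt (t + 1) (by omega)
      rw [Nat.mul_succ] at this
      exact this)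
    exact h
  have hlen : ∀ t ≤ k' + 1, pos t + k' ≤ w.length := by
    intro t ht
    have := hposmem t ht
    omega
  have hcnt : ∀ t < k' + 1, ∀ x,
      n ∣ (facs (k' + 1) ((w.drop (pos t)).take (pos (t + 1) - pos t + k'))).count x := by
    intro t ht x
    have h1 := hposmem t (by omega)
    have h2 := hposmem (t + 1) (by omega)
    have h3 := hposstep t ht
    have h4 := hlen (t + 1) (by omega)
    obtain ⟨-, hl, -, -, -, -, h7⟩ := PkW1.w1 α (k' + 1) (by omega)
    have hinf : (w.drop (pos t)).take (pos (t + 1) - pos t + k') <:+: w :=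
      (List.take_prefix _ _).isInfix.trans (List.drop_suffix _ _).isInfix
    by_cases hx : x ∈ facs (k' + 1) ((w.drop (pos t)).take (pos (t + 1) - pos t + k'))
    · have hxw : x ∈ facs (k' + 1) w := (h7 _ _ hinf).subset hx
      have hxf : x <:+: w := by
        unfold facs at hxw
        rw [List.mem_map] at hxw
        obtain ⟨v, hv, rfl⟩ := hxw
        rw [List.mem_filter, List.mem_tails] at hv
        exact (List.take_prefix _ _).isInfix.trans hv.1.isInfix
      have hxG : x ∈ G α n (k' + 1) := by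
        rw [mem_G hn]
        exact ⟨pFree_of_avoids hn hav hxf, hl _ x hx⟩
      have h5 : φ (pos t) = φ (pos (t + 1)) := h1.2.2.trans h2.2.2.symm
      have h6 := congrFun (congrArg Prod.snd h5) ⟨x, hxG⟩
      simp only [φ] at h6
      have h8 := take_drop_facs PkW1.w1 (k := k' + 1) (by omega) w (pos t)
        (pos (t + 1) - pos t) (by omega)
      rw [show pos t + (pos (t + 1) - pos t) + (k' + 1 - 1) = pos (t + 1) + k' by omega,
        show k' + 1 - 1 = k' by omega] at h8
      rw [h8, List.count_append, Nat.cast_add] at h6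
      have h9 : ((facs (k' + 1) ((w.drop (pos t)).take (pos (t + 1) - pos t + k'))).count x :
          ZMod n) = 0 := by
        have := h6.symm
        rwa [add_eq_left] at this
      exact (ZMod.natCast_eq_zero_iff _ _).1 h9
    · rw [List.count_eq_zero_of_not_mem hx]
      exact dvd_zero n
  have hwin : ∀ t ≤ k' + 1, (w.drop (pos t - (k' + 1 - 1))).take (2 * (k' + 1) - 2) = y.1 := by
    intro t ht
    have h1 := (hposmem t ht).2.2
    rw [← h1]
    rfl
  obtain ⟨u, hu, hpow⟩ := core (Helper15.SK.dv Helper16.SK.eu) PkW1.w1 w2 Helper11.SK.ke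
    (k := k' + 1) (n := n) (by omega) hn w pos hposstep
    (fun t ht => (hposmem t ht).1) hlen _ hwin hcnt
  exact hav u hu hpow

end Pool.Agent.Helper14.SK
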